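import Pool.Agent.Lib.MP_7e5527_ag.Mz.Defs

/-! The first coefficients of the modular invariant. -/

open PowerSeries

noncomputable section

namespace Pool.Agent.UAP.Mz

theorem t1_E4 : coeff 0 E4s = 1 ∧ coeff 1 E4s = 240 ∧ coeff 2 E4s = 2160 ∧ coeff 3 E4s = 6720 ∧
    coeff 4 E4s = 17520 := by
  simp only [E4s, coeff_mk, ArithmeticFunction.sigma_apply]
  decide

theorem t1_E6 : coeff 0 E6s = 1 ∧ coeff 1 E6s = -504 ∧ coeff 2 E6s = -16632 ∧
    coeff 3 E6s = -122976 ∧ coeff 4 E6s = -532728 := by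
  simp only [E6s, coeff_mk, ArithmeticFunction.sigma_apply]
  decide

theorem t1_mul (f g : ℤ⟦X⟧) (n : ℕ) :
    coeff n (f * g) = ∑ i ∈ Finset.range (n + 1), coeff i f * coeff (n - i) g := by
  rw [coeff_mul, Finset.Nat.sum_antidiagonal_eq_sum_range_succ fun i j => coeff i f * coeff j g]

theorem t1_cube : coeff 0 (E4s ^ 3) = 1 ∧ coeff 1 (E4s ^ 3) = 720 ∧ coeff 2 (E4s ^ 3) = 179280 ∧
    coeff 3 (E4s ^ 3) = 16954560 ∧ coeff 4 (E4s ^ 3) = 396974160 := by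
  obtain ⟨h0, h1, h2, h3, h4⟩ := t1_E4
  simp only [pow_three, t1_mul, Finset.sum_range_succ, Finset.range_zero, Finset.sum_empty,
    Nat.reduceSub, Nat.sub_self, h0, h1, h2, h3, h4]
  norm_num

theorem t1_D0 : coeff 0 D0s = 1 ∧ coeff 1 D0s = -24 ∧ coeff 2 D0s = 252 ∧
    coeff 3 D0s = -1472 := by
  obtain ⟨h0, h1, h2, h3, h4⟩ := t1_E6
  obtain ⟨-, g1, g2, g3, g4⟩ := t1_cube
  simp only [D0s, Ds, coeff_mk, map_sub, Nat.reduceAdd, zero_add, g1, g2, g3, g4, pow_two, t1_mul,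
    Finset.sum_range_succ, Finset.range_zero, Finset.sum_empty, Nat.reduceSub, Nat.sub_self,
    h0, h1, h2, h3, h4]
  norm_num

/-- From `j0s_mul_D0s`; `D0s = 1 - 24 X + 252 X ^ 2 - 1472 X ^ 3 + ...`. -/
theorem j0s_eq : j0s = 1 + 744 * X + 196884 * X ^ 2 + 21493760 * X ^ 3 + X ^ 4 * T4 := by
  obtain ⟨h0, h1, h2, h3⟩ := t1_D0
  obtain ⟨g0, g1, g2, g3, -⟩ := t1_cube
  rw [← j0s_mul_D0s] at g0 g1 g2 g3
  simp only [t1_mul, Finset.sum_range_succ, Finset.range_zero, Finset.sum_empty, Nat.reduceSub,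
    Nat.sub_self, h0, h1, h2, h3] at g0 g1 g2 g3
  have e : (1 + 744 * X + 196884 * X ^ 2 + 21493760 * X ^ 3 : ℤ⟦X⟧) =
      C 1 * X ^ 0 + C 744 * X ^ 1 + C 196884 * X ^ 2 + C 21493760 * X ^ 3 := by simp
  ext n
  rw [e]
  simp only [map_add, coeff_C_mul, coeff_X_pow, coeff_X_pow_mul', T4, coeff_mk]
  obtain rfl | rfl | rfl | rfl | h : n = 0 ∨ n = 1 ∨ n = 2 ∨ n = 3 ∨ 4 ≤ n := by omega
  · simp [constantCoeff_j0s]
  · norm_num
    omega
  · norm_num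
    omega
  · norm_num
    omega
  · rw [if_pos h, Nat.sub_add_cancel h, if_neg (by omega), if_neg (by omega), if_neg (by omega),
      if_neg (by omega)]
    simp

end Pool.Agent.UAP.Mz
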