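import Pool.Agent.Lib.MP_7e5527_ag.Mz.Upper

/-! The cross ratio of four points of the orbit is transcendental. -/

open PowerSeries UpperHalfPlane

noncomputable section

namespace Pool.Agent.UAP.Mz

theorem Sm.mono {K : Type} [Field K] {F : K⟦X⟧} {s t : ℝ} (h : Sm F s) (hst : s ≤ t) : Sm F t := by
  obtain ⟨h0, H, h1, h2⟩ := h
  exact ⟨h0, H, h1, fun n hn σ =>
    (h2 n hn σ).trans (mul_le_mul_of_nonneg_right hst n.cast_nonneg)⟩

theorem sm_C {K : Type} [Field K] {l : K} (hl : l ≠ 0) : Sm (C l : K⟦X⟧) 0 := by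
  refine ⟨fun h => hl (by simpa using congrArg constantCoeff h), 0, ?_, fun n _ σ => by simp⟩
  rw [thS_eq]
  simp

theorem noconst {K : Type} [Field K] [NumberField K] {u1 u2 u3 u4 : Mon K} (hu : Dis u1 u2 u3 u4)
    {l : K} (h : W u1 u3 * W u2 u4 = C l * (W u1 u4 * W u2 u3)) : False := by
  obtain ⟨a12, a13, a14, a23, a24, a34⟩ := hu
  have hl : l ≠ 0 := by
    rintro rfl
    rw [map_zero, zero_mul, mul_eq_zero] at h
    exact h.elim (fun h => a13 (eq_of_W h)) fun h => a24 (eq_of_W h)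
  obtain ⟨k, hk⟩ : ∃ k, k = min u1.r u2.r + min u3.r u4.r := ⟨_, rfl⟩
  have p1 := u1.pos
  have p2 := u2.pos
  have p3 := u3.pos
  have p4 := u4.pos
  have key : ∀ a b : Mon K, a ≠ b → k ≤ a.r + b.r → ∃ Z ε : K⟦X⟧, X ^ (k + 1) ∣ Z ∧ X ^ k ∣ ε ∧
      constantCoeff ε = 0 ∧ ε = 196884 * (a.s * b.s) + Z ∧ W a b = (b.s - a.s) * (1 - ε) := by
    intro a b hab hr
    have pa := a.pos
    have pb := b.pos
    obtain ⟨Z, ε, z, d, c, q, w⟩ :=
      t8_E (k := k) (m := 1) (μ := 0) hab hr (by omega) (by omega)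
    have h1 : (X : K⟦X⟧) ^ k ∣ a.s * b.s := (pow_dvd_pow _ hr).trans (by
      rw [pow_add]
      exact mul_dvd_mul (a.dvd le_rfl) (b.dvd le_rfl))
    have ha : (X : K⟦X⟧) ^ 1 ∣ a.s := a.dvd (by omega)
    have hb : (X : K⟦X⟧) ^ 1 ∣ b.s := b.dvd (by omega)
    refine ⟨a.s * b.s * (a.s * (21493760 + a.s * a.ap T4) + b.s * 21493760) + Z, ε,
      dvd_add ?_ z, d, c, ?_, w⟩
    · rw [pow_add]
      exact mul_dvd_mul h1 (dvd_add (ha.mul_right _) (hb.mul_right _))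
    · rw [q, ff]
      ring
  obtain ⟨Z1, e1, z1, d1, c1, q1, w1⟩ := key u1 u3 a13 (by omega)
  obtain ⟨Z2, e2, z2, d2, c2, q2, w2⟩ := key u2 u4 a24 (by omega)
  obtain ⟨Z3, e3, z3, d3, c3, q3, w3⟩ := key u1 u4 a14 (by omega)
  obtain ⟨Z4, e4, z4, d4, c4, q4, w4⟩ := key u2 u3 a23 (by omega)
  have hL : Lo ((1 - e1) * (1 - e2) - (1 - e3) * (1 - e4)) := by
    refine small (((sm_sub a13.symm).mul (sm_sub a24.symm)).mono (by norm_num))
      (((sm_C hl).mul ((sm_sub a14.symm).mul (sm_sub a23.symm))).mono (by norm_num)) ?_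
      (by simp [c1, c2]) (by simp [c3, c4])
    rw [w1, w2, w3, w4] at h
    linear_combination h
  have hX : (X : K⟦X⟧) ^ (k + 1) ∣ X ^ k * X ^ k := by
    rw [← pow_add]
    exact pow_dvd_pow _ (by omega)
  obtain ⟨ρ, hρ, he⟩ : ∃ ρ : K⟦X⟧, X ^ (k + 1) ∣ ρ ∧ (1 - e1) * (1 - e2) - (1 - e3) * (1 - e4) =
      ρ - C 196884 * ((u1.s - u2.s) * (u3.s - u4.s)) := by
    refine ⟨e1 * e2 - e3 * e4 - (Z1 + Z2) + (Z3 + Z4), dvd_add (dvd_sub (hX.trans
      (dvd_sub (mul_dvd_mul d1 d2) (mul_dvd_mul d3 d4))) (dvd_add z1 z2)) (dvd_add z3 z4), ?_⟩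
    rw [map_ofNat]
    linear_combination q3 + q4 - q1 - q2
  have i1 : (X : K⟦X⟧) ^ min u1.r u2.r ∣ u1.s - u2.s :=
    dvd_sub (u1.dvd (min_le_left _ _)) (u2.dvd (min_le_right _ _))
  have i2 : (X : K⟦X⟧) ^ min u3.r u4.r ∣ u3.s - u4.s :=
    dvd_sub (u3.dvd (min_le_left _ _)) (u4.dvd (min_le_right _ _))
  have hD : (X : K⟦X⟧) ^ k ∣ (u1.s - u2.s) * (u3.s - u4.s) := by
    rw [hk, pow_add]
    exact mul_dvd_mul i1 i2
  have hB : Bd ((u1.s - u2.s) * (u3.s - u4.s)) (1 + 1 + (1 + 1)) := by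
    rw [sub_mul]
    exact ((u3.bd.sub u4.bd).mon_mul u1).sub ((u3.bd.sub u4.bd).mon_mul u2)
  have h0 : coeff k ((u1.s - u2.s) * (u3.s - u4.s)) = 0 := alg (hB k).1 fun σ => by
    rw [he] at hL
    have h1 := hL k (dvd_sub ((pow_dvd_pow _ k.le_succ).trans hρ) (hD.mul_left _)) σ
    rw [map_sub, X_pow_dvd_iff.1 hρ k k.lt_succ_self, coeff_C_mul, zero_sub, map_neg, norm_neg,
      map_mul, map_ofNat, norm_mul, Complex.norm_ofNat] at h1
    linarith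
  rw [hk, coeff_mul_dvd i1 i2] at h0
  exact mul_ne_zero (Mon.lead_ne a12) (Mon.lead_ne a34) h0

theorem ident2 {τ0 : ℍ} (ht : Transcendental ℚ (jf τ0)) {ι : Type} (y : ι → t14_S)
    (hy : ∀ i, ∃ Φ : Polynomial (Polynomial ℤ), Φ ≠ 0 ∧ ∀ τ, ev2 (jf τ) ((y i).1 τ) Φ = 0)
    (F : MvPolynomial ι ℤ) (h : MvPolynomial.aeval (fun i => (y i).1 τ0) F = 0) (z : ℍ) :
    MvPolynomial.aeval (fun i => (y i).1 z) F = 0 := by
  have _ := t14_nzd
  let x : t14_S := ⟨jf, arch0_mdiff⟩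
  have hy' : ∀ i, ∃ Φ : Polynomial (Polynomial ℤ), Φ ≠ 0 ∧ ev2 x (y i) Φ = 0 := fun i => by
    obtain ⟨Φ, h0, h1⟩ := hy i
    exact ⟨Φ, h0, Subtype.ext (funext fun τ => (map_ev2 (t14_ev τ) x (y i) Φ).trans (h1 τ))⟩
  have h0 : MvPolynomial.aeval y F = 0 := by
    by_contra h0
    obtain ⟨r, hr, c, hc⟩ := t14_alg x y hy' F h0
    have h1 := congrArg (t14_ev τ0) hc
    rw [map_mul, t14_ev_aeval, t14_ev1, h, zero_mul] at h1
    exact ht ⟨_, (Polynomial.map_ne_zero_iff (RingHom.injective_int _)).2 hr, h1⟩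
  have h1 := t14_ev_aeval z y F
  rw [h0, map_zero] at h1
  exact h1.symm

theorem cr_tr {t : ℂ} (ht : Transcendental ℚ t) {x : Fin 4 → ℂ} (hx : Function.Injective x)
    (hm : ∀ i, x i ∈ heckeOrbit t) {l : ℂ} (hl : IsAlgebraic ℚ l)
    (h : (x 0 - x 2) * (x 1 - x 3) = l * ((x 0 - x 3) * (x 1 - x 2))) : False := by
  obtain ⟨τ0, rfl⟩ := jf_surjective t
  have hall : ∀ i, ∃ g : ℕ × ℕ × ℕ, (∃ N : ℕ, 0 < N ∧ g ∈ Prim N) ∧ x i = jf (aff g τ0) :=
    fun i => by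
      obtain ⟨N, hN, g, hg, h⟩ := orbit (hm i)
      exact ⟨g, ⟨N, hN, hg⟩, h⟩
  choose g hg hv using hall
  have hpos : ∀ s, 0 < (g s).1 ∧ 0 < (g s).2.2 := fun s => by
    obtain ⟨N, hN, h⟩ := hg s
    have h1 := ((mem_Prim hN).1 h).1
    exact ⟨Nat.pos_of_mul_pos_right (h1 ▸ hN), Nat.pos_of_mul_pos_left (h1 ▸ hN)⟩
  obtain ⟨K, _, _, φ, N, U, hN, hU⟩ := exists_rep g (fun s => (hpos s).1) fun s => (hpos s).2
  have hne : ∀ s s', s ≠ s' → U s ≠ U s' := fun s s' hs h => hs (hx (by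
    rw [hv, hv]
    exact rep_eq (hU s) (h ▸ hU s') τ0))
  have hz : ∀ z : ℍ, (jf (aff (g 0) z) - jf (aff (g 2) z)) * (jf (aff (g 1) z) - jf (aff (g 3) z)) =
      l * ((jf (aff (g 0) z) - jf (aff (g 3) z)) * (jf (aff (g 1) z) - jf (aff (g 2) z))) := by
    intro z
    have h1 := ident2 ht (ι := Option (Fin 4)) (fun o => o.elim ⟨fun _ => l, mdifferentiable_const⟩
      fun i => ⟨_, t14_aff (hpos i).1 (hpos i).2⟩) (by
        rintro (_ | i)
        · obtain ⟨p, hp, hp0⟩ := (IsFractionRing.isAlgebraic_iff ℤ ℚ ℂ).2 hl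
          refine ⟨p.map Polynomial.C, (Polynomial.map_ne_zero_iff Polynomial.C_injective).2 hp,
            fun τ => ?_⟩
          rw [ev2, Polynomial.coe_eval₂RingHom, Polynomial.eval₂_map, ← hp0, Polynomial.aeval_def]
          exact congrArg (fun φ => Polynomial.eval₂ φ l p) (RingHom.ext_int _ _)
        · have _ : Fact (Nat.Prime 2) := ⟨Nat.prime_two⟩
          obtain ⟨N, hN, hi⟩ := hg i
          obtain ⟨Φ, hΦ⟩ := exists_modP 2 hN
          exact ⟨Φ, fun h0 => hΦ.fib_ne_zero hN (0 : ℂ) (by rw [h0, fib, Polynomial.map_zero]),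
            fun τ => (hΦ.root_cx hN τ _).2 ⟨g i, hi, rfl⟩⟩)
      ((.X (some 0) - .X (some 2)) * (.X (some 1) - .X (some 3)) -
        .X none * ((.X (some 0) - .X (some 3)) * (.X (some 1) - .X (some 2))))
      (by simpa only [map_sub, map_mul, MvPolynomial.aeval_X, Option.elim, ← hv, sub_eq_zero]
        using h) z
    simpa only [map_sub, map_mul, MvPolynomial.aeval_X, Option.elim, sub_eq_zero] using h1
  obtain ⟨A, hA⟩ : ∃ A, A = (U 0).ap D0s * (U 2).ap D0s * W (U 0) (U 2) *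
    ((U 1).ap D0s * (U 3).ap D0s * W (U 1) (U 3)) := ⟨_, rfl⟩
  obtain ⟨B, hB⟩ : ∃ B, B = (U 0).ap D0s * (U 3).ap D0s * W (U 0) (U 3) *
    ((U 1).ap D0s * (U 2).ap D0s * W (U 1) (U 2)) := ⟨_, rfl⟩
  have h0 : PowerSeries.map φ A - C l * PowerSeries.map φ B = 0 := zero_of_hasEv hN fun z => by
    have e1 := (mulOK_complex _ _ _ _ _ (hasEv_W (hU 0) (hU 2) z) (hasEv_W (hU 1) (hU 3) z)).sub
      ((mulOK_complex _ _ _ _ _ (hasEv_W (hU 0) (hU 3) z) (hasEv_W (hU 1) (hU 2) z)).C_mul l)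
    rw [← map_mul, ← map_mul, ← hA, ← hB] at e1
    refine Eq.subst (motive := fun w => HasEv _ _ w) ?_ e1
    linear_combination (ModularForm.discriminant (aff (g 0) z) *
      ModularForm.discriminant (aff (g 1) z) * ModularForm.discriminant (aff (g 2) z) *
      ModularForm.discriminant (aff (g 3) z)) * hz z
  have hD : (U 0).ap D0s * (U 1).ap D0s * (U 2).ap D0s * (U 3).ap D0s ≠ 0 :=
    mul_ne_zero (mul_ne_zero (mul_ne_zero (ap_D0s_ne _) (ap_D0s_ne _)) (ap_D0s_ne _)) (ap_D0s_ne _)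
  have hB0 : B ≠ 0 := hB ▸ mul_ne_zero
    (mul_ne_zero (mul_ne_zero (ap_D0s_ne _) (ap_D0s_ne _)) fun h => hne 0 3 (by decide) (eq_of_W h))
    (mul_ne_zero (mul_ne_zero (ap_D0s_ne _) (ap_D0s_ne _)) fun h => hne 1 2 (by decide) (eq_of_W h))
  obtain ⟨n, hn⟩ : ∃ n, coeff n B ≠ 0 := by
    by_contra hc
    exact hB0 (PowerSeries.ext fun n => by simpa using not_exists.1 hc n)
  have h1 : φ (coeff n A / coeff n B) = l := by
    have h2 := congrArg (coeff n) h0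
    rw [map_sub, coeff_C_mul, coeff_map, coeff_map, map_zero, sub_eq_zero] at h2
    rw [map_div₀, h2, mul_div_cancel_right₀ _ ((map_ne_zero φ).2 hn)]
  have h2 : A = C (coeff n A / coeff n B) * B := PowerSeries.map_injective φ φ.injective (by
    rw [map_mul, map_C, h1]
    exact sub_eq_zero.1 h0)
  refine noconst (l := coeff n A / coeff n B) ⟨hne 0 1 (by decide), hne 0 2 (by decide),
    hne 0 3 (by decide), hne 1 2 (by decide), hne 1 3 (by decide), hne 2 3 (by decide)⟩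
    (mul_left_cancel₀ hD ?_)
  generalize C (coeff n A / coeff n B) = c at h2 ⊢
  rw [hA, hB] at h2
  linear_combination h2

end Pool.Agent.UAP.Mz
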