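import Pool.Agent.Lib.MP_7e5527_ag.Ser

/-! Monomial parameters and the cross ratio identity. -/

open PowerSeries

noncomputable section

namespace Pool.Agent.UAP.Mz

/-- A root of unity times a positive power of the variable. -/
structure Mon (K : Type) [Field K] where
  c : K
  r : ℕ
  pos : r ≠ 0
  root : ∃ N : ℕ, 0 < N ∧ c ^ N = 1

variable {K : Type} [Field K]

/-- The monomial as a series. -/
def Mon.s (u : Mon K) : K⟦X⟧ := C u.c * X ^ u.r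

/-- An integer series at the monomial. -/
def Mon.ap (u : Mon K) (f : ℤ⟦X⟧) : K⟦X⟧ := subM u.c u.r u.pos (toS K f)

/-- The difference of two values of `j`, denominators cleared. -/
def W (a b : Mon K) : K⟦X⟧ := a.ap j0s * b.s - b.ap j0s * a.s

/-- Equality of two cross ratios. -/
def Id4 (u1 u2 u3 u4 v1 v2 v3 v4 : Mon K) : Prop :=
  W u1 u3 * W u2 u4 * (W v1 v4 * W v2 v3) = W u1 u4 * W u2 u3 * (W v1 v3 * W v2 v4)

/-- Four different monomials. -/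
def Dis (u1 u2 u3 u4 : Mon K) : Prop :=
  u1 ≠ u2 ∧ u1 ≠ u3 ∧ u1 ≠ u4 ∧ u2 ≠ u3 ∧ u2 ≠ u4 ∧ u3 ≠ u4

/-- The tail of `q j(q)`. -/
def T4 : ℤ⟦X⟧ := PowerSeries.mk fun n => coeff (n + 4) j0s

/-- The part of `j` of positive order. -/
def ff (a : Mon K) : K⟦X⟧ := 196884 * a.s + 21493760 * a.s ^ 2 + a.s ^ 3 * a.ap T4

/-- Integral coefficients, bounded in all embeddings. -/
def Bd (F : K⟦X⟧) (t : ℝ) : Prop :=
  ∀ n, IsIntegral ℤ (coeff n F) ∧ ∀ σ : K →+* ℂ, ‖σ (coeff n F)‖ ≤ t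

/-- The logarithmic derivative has small coefficients. -/
def Sm (F : K⟦X⟧) (t : ℝ) : Prop :=
  F ≠ 0 ∧ ∃ H, thS F = F * H ∧ ∀ n, 1 ≤ n → ∀ σ : K →+* ℂ, ‖σ (coeff n H)‖ ≤ t * n

/-- The lowest coefficient is small. -/
def Lo (G : K⟦X⟧) : Prop := ∀ n, X ^ n ∣ G → ∀ σ : K →+* ℂ, ‖σ (coeff n G)‖ ≤ 8

/-- The monomial `u` is the parameter of the image of `z` in the variable of level `N`. -/
def Rep (ι : K →+* ℂ) (N : ℕ) (u : Mon K) (g : ℕ × ℕ × ℕ) : Prop :=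
  u.r * g.2.2 = g.1 * N ∧ ∀ z : UpperHalfPlane,
    Function.Periodic.qParam 1 (aff g z) = ι u.c * Function.Periodic.qParam N z ^ u.r

end Pool.Agent.UAP.Mz
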