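import Pool.Agent.Lib.MP_7e5527_ag.Mz.Ord
import Pool.Agent.Lib.MP_7e5527_ag.Mz.Coef

/-! Factorisation of a difference. -/

open PowerSeries

noncomputable section

namespace Pool.Agent.UAP.Mz

variable {K : Type} [Field K]

theorem ee_ap (a : Mon K) : a.ap j0s =
    1 + 744 * a.s + 196884 * a.s ^ 2 + 21493760 * a.s ^ 3 + a.s ^ 4 * a.ap T4 := by
  have h := congrArg ((subM a.c a.r a.pos).comp (toS K)) j0s_eq
  simp only [map_add, map_mul, map_pow, map_one, map_ofNat] at h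
  have e : ∀ f, ((subM a.c a.r a.pos).comp (toS K)) f = a.ap f := fun _ => rfl
  simpa only [e, Mon.ap_X] using h

theorem ee_dvd1 (a b : Mon K) : X ^ min a.r b.r ∣ a.s := a.dvd (min_le_left _ _)

theorem ee_dvd2 (a b : Mon K) : X ^ min a.r b.r ∣ b.s := b.dvd (min_le_right _ _)

theorem ee_cc (a : Mon K) : constantCoeff a.s = 0 := by
  rw [← coeff_zero_eq_constantCoeff_apply, Mon.coeff_s, if_neg a.pos.symm]

/-- `Y = (a + b) T(a) + b ^ 2 T'` with `T(a) - T(b) = (a - b) T'`. -/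
theorem exists_E {a b : Mon K} (h : a ≠ b) : ∃ Y : K⟦X⟧, X ^ min a.r b.r ∣ Y ∧
    W a b = (b.s - a.s) * (1 - (b.s * ff a + 21493760 * a.s * b.s ^ 2 + a.s * b.s ^ 2 * Y)) := by
  obtain ⟨T', hT⟩ := Mon.sub_dvd h (Mon.dvd_ap_sub a b T4)
  refine ⟨(a.s + b.s) * a.ap T4 + b.s ^ 2 * T', ?_, ?_⟩
  · exact dvd_add (Dvd.dvd.mul_right (dvd_add (ee_dvd1 a b) (ee_dvd2 a b)) _)
      (Dvd.dvd.mul_right (dvd_pow (ee_dvd2 a b) two_ne_zero) _)
  · rw [W, ee_ap a, ee_ap b, ff]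
    linear_combination a.s * b.s ^ 4 * hT

theorem ff_sub [CharZero K] {a b : Mon K} (h : a ≠ b) : ∃ U : K⟦X⟧, constantCoeff U = 1 ∧
    ff a - ff b = 196884 * ((a.s - b.s) * U) := by
  obtain ⟨T', hT⟩ := Mon.sub_dvd h (Mon.dvd_ap_sub a b T4)
  have h0 : (196884 : K) ≠ 0 := by norm_num
  have h1 : (196884 : K⟦X⟧) * C (196884 : K)⁻¹ = 1 := by
    rw [← map_ofNat (C (R := K)) 196884, ← map_mul, mul_inv_cancel₀ h0, map_one]
  refine ⟨C (196884 : K)⁻¹ * (196884 + 21493760 * (a.s + b.s) +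
    (a.s ^ 2 + a.s * b.s + b.s ^ 2) * a.ap T4 + b.s ^ 3 * T'), ?_, ?_⟩
  · simp only [map_mul, map_add, map_pow, map_ofNat, constantCoeff_C, ee_cc]
    field_simp
    ring
  · rw [ff, ff]
    linear_combination b.s ^ 3 * hT - (a.s - b.s) * (196884 + 21493760 * (a.s + b.s) +
      (a.s ^ 2 + a.s * b.s + b.s ^ 2) * a.ap T4 + b.s ^ 3 * T') * h1

theorem eq_of_W {a b : Mon K} (h : W a b = 0) : a = b := by
  by_contra hne
  obtain ⟨Y, -, hY⟩ := exists_E hne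
  rcases mul_eq_zero.1 (hY.symm.trans h) with h1 | h1
  · refine Mon.lead_ne hne ?_
    rw [← neg_sub, h1, neg_zero, map_zero]
  · have h2 := congrArg constantCoeff h1
    simp [ee_cc] at h2

end Pool.Agent.UAP.Mz
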