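import Pool.Agent.Lib.MP_7e5527_ag.Mz.S3

/-! Five pairs give three fixed points. -/

open PowerSeries

noncomputable section

namespace Pool.Agent.UAP.Mz

variable {K : Type} [Field K] [NumberField K]

omit [NumberField K] in
theorem fv_dis {u : Fin 5 → Mon K} (hu : Function.Injective u) {i j k l : Fin 5} (h1 : i ≠ j)
    (h2 : i ≠ k) (h3 : i ≠ l) (h4 : j ≠ k) (h5 : j ≠ l) (h6 : k ≠ l) :
    Dis (u i) (u j) (u k) (u l) :=
  ⟨hu.ne h1, hu.ne h2, hu.ne h3, hu.ne h4, hu.ne h5, hu.ne h6⟩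

omit [NumberField K] in
theorem fv_fix {a b : Mon K} {n : ℕ} (h : coeff n a.s = coeff n b.s) (hn : n = a.r ∨ n = b.r) :
    a = b := by
  refine Mon.eq_of_coeff h ?_
  rcases hn with hn | hn
  · rw [a.coeff_s, if_pos hn]
    exact a.c_ne
  · rw [h, b.coeff_s, if_pos hn]
    exact b.c_ne

omit [NumberField K] in
theorem fv_min (u v : Fin 5 → Mon K) (s : Finset (Fin 5)) (hs : s.Nonempty) :
    ∃ i ∈ s, ∃ a, (a = (u i).r ∨ a = (v i).r) ∧ ∀ j ∈ s, a ≤ (u j).r ∧ a ≤ (v j).r := by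
  obtain ⟨i, hi, h⟩ := s.exists_min_image (fun i => min (u i).r (v i).r) hs
  exact ⟨i, hi, _, min_choice _ _, fun j hj => le_min_iff.1 (h j hj)⟩

theorem fv_sum {u v : Fin 5 → Mon K} (hu : Function.Injective u) (hv : Function.Injective v)
    (h : ∀ i j k l, i ≠ j → i ≠ k → i ≠ l → j ≠ k → j ≠ l → k ≠ l →
      Id4 (u i) (u j) (u k) (u l) (v i) (v j) (v k) (v l)) {a : ℕ} (i : Fin 5)
    (ha : ∀ j, j ≠ i → a ≤ (u j).r ∧ a ≤ (v j).r) :
    ∑ j ∈ Finset.univ.erase i, (coeff a (u j).s - coeff a (v j).s) = 0 := by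
  obtain ⟨p, q, r, s, ⟨e1, e2, e3, e4⟩, ⟨h1, h2, h3, h4, h5, h6⟩, e⟩ : ∃ p q r s : Fin 5,
      (p ≠ i ∧ q ≠ i ∧ r ≠ i ∧ s ≠ i) ∧ (p ≠ q ∧ p ≠ r ∧ p ≠ s ∧ q ≠ r ∧ q ≠ s ∧ r ≠ s) ∧
        Finset.univ.erase i = {p, q, r, s} :=
    ⟨i + 1, i + 2, i + 3, i + 4, by clear ha; revert i; decide⟩
  have h7 := s1 (fv_dis hu h1 h2 h3 h4 h5 h6) (fv_dis hv h1 h2 h3 h4 h5 h6)
    (h _ _ _ _ h1 h2 h3 h4 h5 h6) (a := a)
    (le_min (le_min (ha p e1).1 (ha q e2).1) (le_min (ha r e3).1 (ha s e4).1))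
    (le_min (le_min (ha p e1).2 (ha q e2).2) (le_min (ha r e3).2 (ha s e4).2))
  rw [e, Finset.sum_insert (by simp [h1, h2, h3]), Finset.sum_insert (by simp [h4, h5]),
    Finset.sum_pair h6]
  linear_combination h7

theorem fv_all {u v : Fin 5 → Mon K} (hu : Function.Injective u) (hv : Function.Injective v)
    (h : ∀ i j k l, i ≠ j → i ≠ k → i ≠ l → j ≠ k → j ≠ l → k ≠ l →
      Id4 (u i) (u j) (u k) (u l) (v i) (v j) (v k) (v l)) {a : ℕ}
    (ha : ∀ j, a ≤ (u j).r ∧ a ≤ (v j).r) (i : Fin 5) : coeff a (u i).s = coeff a (v i).s := by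
  have h1 : ∀ j, ∑ l, (coeff a (u l).s - coeff a (v l).s) = coeff a (u j).s - coeff a (v j).s :=
    fun j => by
      rw [← Finset.add_sum_erase _ _ (Finset.mem_univ j), fv_sum hu hv h j fun l _ => ha l,
        add_zero]
  have h2 := h1 i
  rw [Finset.sum_congr rfl fun j _ => (h1 j).symm.trans (h1 i), Finset.sum_const,
    Finset.card_univ, Fintype.card_fin, nsmul_eq_mul, Nat.cast_ofNat] at h2
  linear_combination (1 / 4 : K) * h2

theorem fv_two {u v : Fin 5 → Mon K} (hu : Function.Injective u) (hv : Function.Injective v)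
    (h : ∀ i j k l, i ≠ j → i ≠ k → i ≠ l → j ≠ k → j ≠ l → k ≠ l →
      Id4 (u i) (u j) (u k) (u l) (v i) (v j) (v k) (v l)) {i : Fin 5} (hi : u i = v i) {b : ℕ}
    (hlt : (u i).r < b) (hb : ∀ j, j ≠ i → b ≤ (u j).r ∧ b ≤ (v j).r) {j : Fin 5} (hj : j ≠ i) :
    coeff b (u j).s = coeff b (v j).s := by
  have h1 : ∀ l ∈ Finset.univ.erase i,
      coeff b (u l).s - coeff b (v l).s = coeff b (u j).s - coeff b (v j).s := fun l hl => by
    have hl' := Finset.ne_of_mem_erase hl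
    rcases eq_or_ne l j with rfl | hlj
    · rfl
    obtain ⟨k, k1, k2, k3⟩ : ∃ k, k ≠ i ∧ k ≠ l ∧ k ≠ j :=
      (by decide : ∀ i l j : Fin 5, ∃ k, k ≠ i ∧ k ≠ l ∧ k ≠ j) i l j
    have h2 := s2 (fv_dis hu k1.symm hl'.symm hj.symm k2 k3 hlj)
      (fv_dis hv k1.symm hl'.symm hj.symm k2 k3 hlj) (h _ _ _ _ k1.symm hl'.symm hj.symm k2 k3 hlj)
      (i := (u i).r) (j := b) (le_min le_rfl (hlt.le.trans (hb k k1).1))
      (le_min (hi ▸ le_rfl) (hlt.le.trans (hb k k1).2)) (le_min (hb l hl').1 (hb j hj).1)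
      (le_min (hb l hl').2 (hb j hj).2)
    rw [← hi, map_sub, map_sub, (u k).coeff_s, (v k).coeff_s, if_neg (hlt.trans_le (hb k k1).1).ne,
      if_neg (hlt.trans_le (hb k k1).2).ne, (u i).coeff_s, if_pos rfl, sub_zero] at h2
    linear_combination mul_left_cancel₀ (u i).c_ne h2
  have h2 := fv_sum hu hv h i hb
  rw [Finset.sum_congr rfl h1, Finset.sum_const, Finset.card_erase_of_mem (Finset.mem_univ i),
    Finset.card_univ, Fintype.card_fin, nsmul_eq_mul] at h2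
  norm_num at h2
  exact sub_eq_zero.1 h2

theorem five {u v : Fin 5 → Mon K} (hu : Function.Injective u) (hv : Function.Injective v)
    (h : ∀ i j k l, i ≠ j → i ≠ k → i ≠ l → j ≠ k → j ≠ l → k ≠ l →
      Id4 (u i) (u j) (u k) (u l) (v i) (v j) (v k) (v l)) :
    ∃ i j k, i ≠ j ∧ i ≠ k ∧ j ≠ k ∧ u i = v i ∧ u j = v j ∧ u k = v k := by
  obtain ⟨i, -, a, hai, ha⟩ := fv_min u v Finset.univ Finset.univ_nonempty
  have ha' := fun j => ha j (Finset.mem_univ j)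
  have hi : u i = v i := fv_fix (fv_all hu hv h ha' i) hai
  have hr : a = (u i).r := hai.elim id fun e => hi ▸ e
  obtain ⟨j, hj, b, hbj, hb⟩ := fv_min u v (Finset.univ.erase i)
    ⟨_, (by decide : ∀ i : Fin 5, i + 1 ∈ Finset.univ.erase i) i⟩
  have hj' := Finset.ne_of_mem_erase hj
  have hb' := fun l (hl : l ≠ i) => hb l (Finset.mem_erase.2 ⟨hl, Finset.mem_univ l⟩)
  have hj2 : u j = v j := by
    refine fv_fix ?_ hbj
    rcases le_or_gt b a with hle | hlt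
    · exact fv_all hu hv h (fun l => ⟨hle.trans (ha' l).1, hle.trans (ha' l).2⟩) j
    · exact fv_two hu hv h hi (hr ▸ hlt) hb' hj'
  obtain ⟨k, l, k1, l1, k2, l2, kl⟩ :=
    (by decide : ∀ i j : Fin 5, ∃ k l, i ≠ k ∧ i ≠ l ∧ j ≠ k ∧ j ≠ l ∧ k ≠ l) i j
  have h1 := fv_dis hv hj'.symm k1 l1 k2 l2 kl
  have h2 := h _ _ _ _ hj'.symm k1 l1 k2 l2 kl
  rw [← hi, ← hj2] at h1 h2
  rcases s3 (fv_dis hu hj'.symm k1 l1 k2 l2 kl) h1 h2 with e | e
  · exact ⟨i, j, k, hj'.symm, k1, k2, hi, hj2, e⟩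
  · exact ⟨i, j, l, hj'.symm, l1, l2, hi, hj2, e⟩

end Pool.Agent.UAP.Mz
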