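import Pool.Agent.Lib.MP_7e5527_ag.Mz.Defs
import Pool.Agent.Lib.MP_7e5527_ag.Ev
import Pool.Agent.Lib.MP_7e5527_ag.Arch0

/-! From functions to formal series. -/

open PowerSeries UpperHalfPlane

noncomputable section

namespace Pool.Agent.UAP.Mz

/-- `N` the product of the `d`, `K` generated by `e(1 / N)`. -/
theorem exists_rep {ι : Type} [Fintype ι] (g : ι → ℕ × ℕ × ℕ) (ha : ∀ i, 0 < (g i).1)
    (hd : ∀ i, 0 < (g i).2.2) : ∃ (K : Type) (_ : Field K) (_ : NumberField K) (φ : K →+* ℂ)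
      (N : ℕ) (u : ι → Mon K), 0 < N ∧ ∀ i, Rep φ N (u i) (g i) := by
  obtain ⟨N, hN⟩ : ∃ N : ℕ, N = ∏ i, (g i).2.2 := ⟨_, rfl⟩
  have h0 : 0 < N := hN ▸ Finset.prod_pos fun i _ => hd i
  choose e he using fun i => (hN ▸ Finset.dvd_prod_of_mem _ (Finset.mem_univ i) : (g i).2.2 ∣ N)
  have e0 : ∀ i, 0 < e i := fun i => Nat.pos_of_mul_pos_left (he i ▸ h0)
  obtain ⟨ζ, hζ⟩ : ∃ ζ : ℂ, ζ = Complex.exp (2 * Real.pi * Complex.I / N) := ⟨_, rfl⟩
  have h1 : ζ ^ N = 1 := hζ ▸ (Complex.isPrimitiveRoot_exp N h0.ne').pow_eq_one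
  have h2 : IsIntegral ℚ ζ := IsIntegral.of_pow h0 (h1 ▸ isIntegral_one)
  have := IntermediateField.adjoin.finiteDimensional h2
  have h3 : NumberField (IntermediateField.adjoin ℚ {ζ}) := ⟨⟩
  have h4 : IntermediateField.AdjoinSimple.gen ℚ ζ ^ N = 1 := Subtype.ext (by simpa using h1)
  refine ⟨IntermediateField.adjoin ℚ {ζ}, inferInstance, h3, algebraMap _ ℂ, N,
    fun i => ⟨IntermediateField.AdjoinSimple.gen ℚ ζ ^ ((g i).2.1 * e i), (g i).1 * e i,
      (mul_pos (ha i) (e0 i)).ne', N, h0, by rw [← pow_mul, mul_comm, pow_mul, h4, one_pow]⟩,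
    h0, fun i => ⟨?_, fun z => ?_⟩⟩
  · change (g i).1 * e i * (g i).2.2 = (g i).1 * N
    rw [mul_assoc, mul_comm (e i), ← he i]
  · have h5 : (N : ℂ) = (g i).2.2 * e i := by exact_mod_cast he i
    have h6 : ((g i).2.2 : ℂ) ≠ 0 := by exact_mod_cast (hd i).ne'
    have h7 : (e i : ℂ) ≠ 0 := by exact_mod_cast (e0 i).ne'
    simp only [map_pow, IntermediateField.AdjoinSimple.algebraMap_gen, Function.Periodic.qParam]
    rw [coe_aff (ha i) (hd i), hζ, ← Complex.exp_nat_mul, ← Complex.exp_nat_mul,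
      ← Complex.exp_add]
    congr 1
    push_cast
    rw [h5]
    field_simp
    ring

theorem zero_of_hasEv {F : ℂ⟦X⟧} {N : ℕ} (hN : 0 < N)
    (h : ∀ z : ℍ, HasEv F (Function.Periodic.qParam N z) 0) : F = 0 := by
  have hh : (0 : ℝ) < N := Nat.cast_pos.2 hN
  have h0 : cuspFunction N (0 : ℍ → ℂ) = 0 := by
    simpa [cuspFunction, Function.Periodic.cuspFunction]
      using! (tendsto_const_nhds.mono_left nhdsWithin_le_nhds).limUnder_eq
  have han : AnalyticAt ℂ (cuspFunction N (0 : ℍ → ℂ)) 0 := by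
    rw [h0]
    exact analyticAt_const
  have h1 := (hasFPowerSeriesOnBall_cuspFunction (c := fun m => coeff m F) hh han
    (fun z => h z)).hasFPowerSeriesAt
  rw [h0] at h1
  ext m
  have h2 := congrArg (FormalMultilinearSeries.coeff · m) h1.eq_zero
  rw [FormalMultilinearSeries.coeff_ofScalars] at h2
  exact h2

variable {K : Type} [Field K] {φ : K →+* ℂ} {N : ℕ}

theorem rep_eq {u : Mon K} {g g' : ℕ × ℕ × ℕ} (h : Rep φ N u g) (h' : Rep φ N u g') (z : ℍ) :
    jf (aff g z) = jf (aff g' z) := by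
  have hq : Function.Periodic.qParam 1 (aff g z) = Function.Periodic.qParam 1 (aff g' z) :=
    (h.2 z).trans (h'.2 z).symm
  have h4 := hasEv_E4 (aff g z)
  have hD := hasEv_Delta (aff g z)
  rw [hq] at h4 hD
  rw [jf, jf, h4.unique (hasEv_E4 _), hD.unique (hasEv_Delta _)]

theorem t16_E4 (a : Mon K) : a.ap E4s ^ 3 = a.ap j0s * a.ap D0s := by
  simp only [Mon.ap]
  rw [← map_pow, ← map_pow, ← map_mul, ← map_mul, j0s_mul_D0s]

theorem t16_Ds (a : Mon K) : a.ap Ds = a.s * a.ap D0s := by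
  have hX : toS K X = X := by simp [toS]
  simp only [Mon.ap, Mon.s]
  rw [Ds_eq_X_mul, map_mul, map_mul, hX, subM_X]

theorem t16_ev {a : Mon K} {g : ℕ × ℕ × ℕ} (ha : Rep φ N a g) (z : ℍ) {f : ℤ⟦X⟧} {v : ℂ}
    (hf : HasEv (toS ℂ f) (Function.Periodic.qParam 1 (aff g z)) v) :
    HasEv (PowerSeries.map φ (a.ap f)) (Function.Periodic.qParam N z) v := by
  rw [ha.2 z] at hf
  rw [Mon.ap, map_subM, map_toS]
  exact hf.substM a.pos

/-- `E4(a) ^ 3 Δ(b) - E4(b) ^ 3 Δ(a) = D0(a) D0(b) W(a, b)`. -/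
theorem hasEv_W {a b : Mon K} {g h : ℕ × ℕ × ℕ} (ha : Rep φ N a g) (hb : Rep φ N b h) (z : ℍ) :
    HasEv (PowerSeries.map φ (a.ap D0s * b.ap D0s * W a b)) (Function.Periodic.qParam N z)
      (ModularForm.discriminant (aff g z) * ModularForm.discriminant (aff h z) *
        (jf (aff g z) - jf (aff h z))) := by
  have key : a.ap D0s * b.ap D0s * W a b =
      a.ap E4s ^ 3 * b.ap Ds - b.ap E4s ^ 3 * a.ap Ds := by
    rw [t16_E4, t16_E4, t16_Ds, t16_Ds, W]
    ring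
  have hv : ModularForm.discriminant (aff g z) * ModularForm.discriminant (aff h z) *
      (jf (aff g z) - jf (aff h z)) =
      ModularForm.E₄ (aff g z) ^ 3 * ModularForm.discriminant (aff h z) -
        ModularForm.E₄ (aff h z) ^ 3 * ModularForm.discriminant (aff g z) := by
    have h1 := ModularForm.discriminant_ne_zero (aff g z)
    have h2 := ModularForm.discriminant_ne_zero (aff h z)
    rw [jf, jf]
    field_simp
  rw [key, hv, map_sub, map_mul, map_mul, map_pow, map_pow]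
  exact (mulOK_complex _ _ _ _ _ ((t16_ev ha z (hasEv_E4 _)).pow mulOK_complex 3)
    (t16_ev hb z (hasEv_Delta _))).sub
    (mulOK_complex _ _ _ _ _ ((t16_ev hb z (hasEv_E4 _)).pow mulOK_complex 3)
      (t16_ev ha z (hasEv_Delta _)))

theorem ap_D0s_ne (a : Mon K) : a.ap D0s ≠ 0 := by
  intro h
  have h0 := congrArg (coeff 0) h
  rw [Mon.ap, coeff_subM, if_pos (dvd_zero _), Nat.zero_div, pow_zero, one_mul] at h0
  simp [toS, constantCoeff_D0s] at h0

end Pool.Agent.UAP.Mz
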