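import Pool.Agent.Lib.MP_7e5527_ag.Mz.Form

/-! The formal cross ratio identity. -/

open PowerSeries UpperHalfPlane

noncomputable section

namespace Pool.Agent.UAP.Mz

variable {K : Type} [Field K] {φ : K →+* ℂ} {N : ℕ}

theorem f2_zero (hN : 0 < N) {F : K⟦X⟧}
    (h : ∀ z : ℍ, HasEv (PowerSeries.map φ F) (Function.Periodic.qParam N z) 0) : F = 0 :=
  PowerSeries.map_injective φ φ.injective ((zero_of_hasEv hN h).trans (map_zero _).symm)

theorem W_zero (hN : 0 < N) {a b : Mon K} {g h : ℕ × ℕ × ℕ} (ha : Rep φ N a g) (hb : Rep φ N b h)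
    (he : ∀ z : ℍ, jf (aff g z) = jf (aff h z)) : W a b = 0 := by
  have h0 := f2_zero (φ := φ) (F := a.ap D0s * b.ap D0s * W a b) hN fun z => by
    have h1 := hasEv_W ha hb z
    rwa [he z, sub_self, mul_zero] at h1
  exact (mul_eq_zero.1 h0).resolve_left (mul_ne_zero (ap_D0s_ne a) (ap_D0s_ne b))

theorem f2_four {A B C D : K⟦X⟧} {x a b c d : ℂ} (ha : HasEv (PowerSeries.map φ A) x a)
    (hb : HasEv (PowerSeries.map φ B) x b) (hc : HasEv (PowerSeries.map φ C) x c)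
    (hd : HasEv (PowerSeries.map φ D) x d) :
    HasEv (PowerSeries.map φ (A * B * (C * D))) x (a * b * (c * d)) := by
  rw [map_mul, map_mul, map_mul]
  exact mulOK_complex _ _ _ _ _ (mulOK_complex _ _ _ _ _ ha hb) (mulOK_complex _ _ _ _ _ hc hd)

theorem id4_of (hN : 0 < N) {u1 u2 u3 u4 v1 v2 v3 v4 : Mon K}
    {g1 g2 g3 g4 h1 h2 h3 h4 : ℕ × ℕ × ℕ} (a1 : Rep φ N u1 g1) (a2 : Rep φ N u2 g2)
    (a3 : Rep φ N u3 g3) (a4 : Rep φ N u4 g4) (b1 : Rep φ N v1 h1) (b2 : Rep φ N v2 h2)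
    (b3 : Rep φ N v3 h3) (b4 : Rep φ N v4 h4)
    (he : ∀ z : ℍ, (jf (aff g1 z) - jf (aff g3 z)) * (jf (aff g2 z) - jf (aff g4 z)) *
        ((jf (aff h1 z) - jf (aff h4 z)) * (jf (aff h2 z) - jf (aff h3 z))) =
      (jf (aff g1 z) - jf (aff g4 z)) * (jf (aff g2 z) - jf (aff g3 z)) *
        ((jf (aff h1 z) - jf (aff h3 z)) * (jf (aff h2 z) - jf (aff h4 z)))) :
    Id4 u1 u2 u3 u4 v1 v2 v3 v4 := by
  have h0 := f2_zero (φ := φ) (F := u1.ap D0s * u3.ap D0s * W u1 u3 *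
      (u2.ap D0s * u4.ap D0s * W u2 u4) *
      (v1.ap D0s * v4.ap D0s * W v1 v4 * (v2.ap D0s * v3.ap D0s * W v2 v3)) -
      u1.ap D0s * u4.ap D0s * W u1 u4 * (u2.ap D0s * u3.ap D0s * W u2 u3) *
      (v1.ap D0s * v3.ap D0s * W v1 v3 * (v2.ap D0s * v4.ap D0s * W v2 v4))) hN fun z => by
    have e1 := (f2_four (hasEv_W a1 a3 z) (hasEv_W a2 a4 z) (hasEv_W b1 b4 z)
      (hasEv_W b2 b3 z)).sub
      (f2_four (hasEv_W a1 a4 z) (hasEv_W a2 a3 z) (hasEv_W b1 b3 z) (hasEv_W b2 b4 z))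
    rw [← map_sub] at e1
    refine Eq.subst (motive := fun w => HasEv _ _ w) ?_ e1
    linear_combination (ModularForm.discriminant (aff g1 z) * ModularForm.discriminant (aff g2 z) *
      ModularForm.discriminant (aff g3 z) * ModularForm.discriminant (aff g4 z) *
      (ModularForm.discriminant (aff h1 z) * ModularForm.discriminant (aff h2 z) *
      ModularForm.discriminant (aff h3 z) * ModularForm.discriminant (aff h4 z))) * he z
  have hne : u1.ap D0s * u2.ap D0s * u3.ap D0s * u4.ap D0s *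
      (v1.ap D0s * v2.ap D0s * v3.ap D0s * v4.ap D0s) ≠ 0 :=
    mul_ne_zero (mul_ne_zero (mul_ne_zero (mul_ne_zero (ap_D0s_ne _) (ap_D0s_ne _))
      (ap_D0s_ne _)) (ap_D0s_ne _)) (mul_ne_zero (mul_ne_zero (mul_ne_zero (ap_D0s_ne _)
      (ap_D0s_ne _)) (ap_D0s_ne _)) (ap_D0s_ne _))
  refine mul_left_cancel₀ hne ?_
  linear_combination h0

end Pool.Agent.UAP.Mz
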