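import Pool.Agent.Lib.MP_7e5527_ag.Modp

/-! From a transcendental point to an identity of functions. -/

open UpperHalfPlane

noncomputable section

namespace Pool.Agent.UAP.Mz

/-- `exists_prim_of_act` and `ModP.root_cx` in both directions. -/
theorem orbit {τ0 : ℍ} {s : ℂ} (hs : s ∈ heckeOrbit (jf τ0)) :
    ∃ N : ℕ, 0 < N ∧ ∃ g ∈ Prim N, s = jf (aff g τ0) := by
  obtain ⟨τ, g, hg, hτ, hgb⟩ := hs
  obtain ⟨N, hN, h, hh, hact⟩ := exists_prim_of_act g hg
  obtain ⟨Φ, hΦ⟩ := exists_modP 2 hN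
  refine ⟨N, hN, (hΦ.root_cx hN τ0 s).1 ?_⟩
  rw [← hτ]
  exact (hΦ.root_cx hN τ s).2 ⟨h, hh, by rw [← hgb, hact]⟩

theorem mem_orbit (τ0 : ℍ) {a : ℕ} (ha : 0 < a) : jf (aff (a, 0, 1) τ0) ∈ heckeOrbit (jf τ0) := by
  have h0 : (0 : ℚ) < (!![(a : ℚ), 0; 0, 1] : Matrix (Fin 2) (Fin 2) ℚ).det := by
    simpa [Matrix.det_fin_two] using ha
  refine ⟨τ0, Matrix.GeneralLinearGroup.mkOfDetNeZero _ h0.ne', h0, rfl, congrArg jf ?_⟩
  have h1 : (0 : ℝ) < (Matrix.GeneralLinearGroup.map (algebraMap ℚ ℝ)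
      (Matrix.GeneralLinearGroup.mkOfDetNeZero _ h0.ne')).det.val := by
    simpa [Matrix.det_fin_two] using ha
  refine UpperHalfPlane.ext ?_
  rw [act, coe_smul_of_det_pos h1, coe_aff ha one_pos]
  simp [num, denom]

theorem t14_alg {S : Type} [CommRing S] [NoZeroDivisors S] (x : S) {ι : Type} (y : ι → S)
    (hy : ∀ i, ∃ Φ : Polynomial (Polynomial ℤ), Φ ≠ 0 ∧ ev2 x (y i) Φ = 0)
    (F : MvPolynomial ι ℤ) (h0 : MvPolynomial.aeval y F ≠ 0) :
    ∃ r : Polynomial ℤ, r ≠ 0 ∧ MvPolynomial.aeval y F ∣ ev1 x r := by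
  let _ : Algebra (Polynomial ℤ) S := (ev1 x).toAlgebra
  have key : ∀ G : MvPolynomial ι ℤ, IsAlgebraic (Polynomial ℤ) (MvPolynomial.aeval y G) := by
    intro G
    induction G using MvPolynomial.induction_on with
    | C a =>
      rw [MvPolynomial.aeval_C, eq_intCast]
      exact isAlgebraic_intCast a
    | add p q hp hq =>
      rw [map_add]
      exact hp.add hq
    | mul_X p i hp =>
      rw [map_mul, MvPolynomial.aeval_X]
      obtain ⟨Φ, h1, h2⟩ := hy i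
      exact hp.mul ⟨Φ, h1, h2⟩
  exact (key F).exists_nonzero_dvd (mem_nonZeroDivisors_of_ne_zero h0)

/-- The ring of holomorphic functions on the upper half plane. -/
def t14_S : Subring (ℍ → ℂ) where
  carrier := {f | MDifferentiable (modelWithCornersSelf ℂ ℂ) (modelWithCornersSelf ℂ ℂ) f}
  mul_mem' ha hb := MDifferentiable.mul ha hb
  one_mem' := mdifferentiable_const
  add_mem' ha hb := MDifferentiable.add ha hb
  zero_mem' := mdifferentiable_const
  neg_mem' ha := MDifferentiable.neg ha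

theorem t14_nzd : NoZeroDivisors t14_S := by
  refine ⟨fun {a b} hab => ?_⟩
  have h1 : a.1 * b.1 = 0 := congrArg Subtype.val hab
  exact ((UpperHalfPlane.mul_eq_zero_iff a.2 b.2).1 h1).imp Subtype.ext Subtype.ext

theorem t14_aff {g : ℕ × ℕ × ℕ} (ha : 0 < g.1) (hd : 0 < g.2.2) :
    (fun τ => jf (aff g τ)) ∈ t14_S := by
  have h1 : MDifferentiable (modelWithCornersSelf ℂ ℂ) (modelWithCornersSelf ℂ ℂ)
      (fun τ : ℍ => ((g.1 : ℂ) * τ + g.2.1) / g.2.2) := by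
    have hd' : (g.2.2 : ℂ) ≠ 0 := by exact_mod_cast hd.ne'
    exact ((mdifferentiable_const.mul mdifferentiable_coe).add mdifferentiable_const).div
      mdifferentiable_const fun _ => hd'
  have h2 : MDifferentiable (modelWithCornersSelf ℂ ℂ) (modelWithCornersSelf ℂ ℂ) (aff g) := by
    intro τ
    have h3 : 0 < (((g.1 : ℂ) * τ + g.2.1) / g.2.2).im := by
      rw [← coe_aff ha hd]
      exact (aff g τ).im_pos
    exact (mdifferentiableAt_ofComplex h3).comp τ (h1 τ)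
  exact arch0_mdiff.comp h2

/-- Evaluation of a holomorphic function at a point. -/
def t14_ev (τ : ℍ) : t14_S →+* ℂ := (Pi.evalRingHom (fun _ : ℍ => ℂ) τ).comp t14_S.subtype

theorem t14_ev_aeval (τ : ℍ) {ι : Type} (y : ι → t14_S) (F : MvPolynomial ι ℤ) :
    t14_ev τ (MvPolynomial.aeval y F) = MvPolynomial.aeval (fun i => (y i).1 τ) F := by
  have := MvPolynomial.comp_aeval_apply y (t14_ev τ).toIntAlgHom F
  exact this

theorem t14_ev1 (τ : ℍ) (x : t14_S) (r : Polynomial ℤ) :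
    t14_ev τ (ev1 x r) = Polynomial.aeval (x.1 τ) (r.map (Int.castRingHom ℚ)) := by
  rw [ev1, Polynomial.coe_eval₂RingHom, Polynomial.hom_eval₂, Polynomial.aeval_def,
    Polynomial.eval₂_map]
  exact congrArg (fun φ => Polynomial.eval₂ φ (x.1 τ) r) (RingHom.ext_int _ _)

/-- Holomorphic functions form a domain, the `j(g z)` are algebraic over `ℤ[j]`. -/
theorem ident {τ0 : ℍ} (ht : Transcendental ℚ (jf τ0)) {ι : Type} (g : ι → ℕ × ℕ × ℕ)
    (hg : ∀ i, ∃ N : ℕ, 0 < N ∧ g i ∈ Prim N) (F : MvPolynomial ι ℤ)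
    (h : MvPolynomial.aeval (fun i => jf (aff (g i) τ0)) F = 0) (z : ℍ) :
    MvPolynomial.aeval (fun i => jf (aff (g i) z)) F = 0 := by
  have hpos : ∀ i, 0 < (g i).1 ∧ 0 < (g i).2.2 := by
    intro i
    obtain ⟨N, hN, hi⟩ := hg i
    have h1 := ((mem_Prim hN).1 hi).1
    rw [← h1] at hN
    exact ⟨Nat.pos_of_mul_pos_right hN, Nat.pos_of_mul_pos_left hN⟩
  have _ := t14_nzd
  have _ : Fact (Nat.Prime 2) := ⟨Nat.prime_two⟩
  let x : t14_S := ⟨jf, arch0_mdiff⟩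
  let y : ι → t14_S := fun i => ⟨_, t14_aff (hpos i).1 (hpos i).2⟩
  have hy : ∀ i, ∃ Φ : Polynomial (Polynomial ℤ), Φ ≠ 0 ∧ ev2 x (y i) Φ = 0 := by
    intro i
    obtain ⟨N, hN, hi⟩ := hg i
    obtain ⟨Φ, hΦ⟩ := exists_modP 2 hN
    refine ⟨Φ, fun h0 => hΦ.fib_ne_zero hN (0 : ℂ) (by rw [h0, fib, Polynomial.map_zero]), ?_⟩
    refine Subtype.ext (funext fun τ => ?_)
    have h1 := map_ev2 (t14_ev τ) x (y i) Φ
    exact h1.trans ((hΦ.root_cx hN τ _).2 ⟨g i, hi, rfl⟩)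
  have h0 : MvPolynomial.aeval y F = 0 := by
    by_contra h0
    obtain ⟨r, hr, c, hc⟩ := t14_alg x y hy F h0
    have h1 := congrArg (t14_ev τ0) hc
    rw [map_mul, t14_ev_aeval, t14_ev1] at h1
    have h2 : MvPolynomial.aeval (fun i => (y i).1 τ0) F = 0 := h
    rw [h2, zero_mul] at h1
    exact ht ⟨_, (Polynomial.map_ne_zero_iff (RingHom.injective_int _)).2 hr, h1⟩
  have h1 := t14_ev_aeval z y F
  rw [h0, map_zero] at h1
  exact h1.symm

end Pool.Agent.UAP.Mz
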