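import Pool.Agent.Lib.MP_7e5527_ag.Mz.Const

/-! Points with one algebraic coordinate. -/

noncomputable section

namespace Pool.Agent.UAP.Mz

theorem up_four {S : Set ℂ} (h : ¬ S.encard ≤ 3) :
    ∃ x : Fin 4 → ℂ, Function.Injective x ∧ ∀ i, x i ∈ S := by
  have h5 : ((4 : ℕ) : ℕ∞) ≤ S.encard := Order.add_one_le_of_lt (not_le.1 h)
  obtain ⟨T, hT, hc⟩ := Set.exists_subset_encard_eq h5
  have hf : T.Finite := Set.finite_of_encard_eq_coe hc
  have : Finite T := hf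
  have hn : Nat.card T = 4 := by
    rw [Nat.card_coe_set_eq, Set.ncard, hc]
    rfl
  let e := (Finite.equivFinOfCardEq hn).symm
  exact ⟨fun i => e i, Subtype.val_injective.comp e.injective, fun i => hT (e i).2⟩

theorem cr_alg {t : ℂ} (ht : Transcendental ℚ t) {x y : Fin 4 → ℂ} (hx : Function.Injective x)
    (hy : Function.Injective y) (hm : ∀ i, x i ∈ heckeOrbit t) (ha : ∀ i, IsAlgebraic ℚ (y i))
    (h : (x 0 - x 2) * (x 1 - x 3) * ((y 0 - y 3) * (y 1 - y 2)) =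
      (x 0 - x 3) * (x 1 - x 2) * ((y 0 - y 2) * (y 1 - y 3))) : False := by
  have h1 : y 0 - y 3 ≠ 0 := sub_ne_zero.2 (hy.ne (by decide))
  have h2 : y 1 - y 2 ≠ 0 := sub_ne_zero.2 (hy.ne (by decide))
  refine cr_tr ht hx hm (l := (y 0 - y 2) * (y 1 - y 3) * ((y 0 - y 3) * (y 1 - y 2))⁻¹)
    ((((ha 0).sub (ha 2)).mul ((ha 1).sub (ha 3))).mul
      (((ha 0).sub (ha 3)).mul ((ha 1).sub (ha 2))).inv) ?_
  field_simp
  linear_combination h

theorem mob_data {a b c d : ℂ} (hdet : a * d - b * c ≠ 0) {x : Fin 4 → ℂ}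
    (hx : Function.Injective x) (h0 : ∀ i, c * x i + d ≠ 0) {y : Fin 4 → ℂ}
    (hy : ∀ i, y i = (a * x i + b) / (c * x i + d)) : Function.Injective y ∧
      (x 0 - x 2) * (x 1 - x 3) * ((y 0 - y 3) * (y 1 - y 2)) =
        (x 0 - x 3) * (x 1 - x 2) * ((y 0 - y 2) * (y 1 - y 3)) := by
  constructor
  · intro i j hij
    have h1 := up_sub (a := a) (b := b) (h0 i) (h0 j)
    rw [← hy, ← hy, hij, sub_self, eq_comm, div_eq_zero_iff, mul_eq_zero, mul_eq_zero] at h1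
    rcases h1 with (h1 | h1) | h1 | h1
    · exact absurd h1 hdet
    · exact hx (sub_eq_zero.1 h1)
    · exact absurd h1 (h0 i)
    · exact absurd h1 (h0 j)
  · simp only [hy, up_sub (h0 _) (h0 _)]
    have := h0 0
    have := h0 1
    have := h0 2
    have := h0 3
    field_simp

theorem left_three {t : ℂ} (ht : Transcendental ℚ t) {a b c d : ℂ} (hdet : a * d - b * c ≠ 0) :
    {s ∈ heckeOrbit t | c * s + d ≠ 0 ∧ IsAlgebraic ℚ ((a * s + b) / (c * s + d))}.encard ≤ 3 := by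
  by_contra hc
  obtain ⟨x, hx, hS⟩ := up_four hc
  obtain ⟨h1, h2⟩ := mob_data hdet hx (fun i => (hS i).2.1) fun _ => rfl
  exact cr_alg ht hx h1 (fun i => (hS i).1) (fun i => (hS i).2.2) h2

theorem right_three {t : ℂ} (ht : Transcendental ℚ t) {a b c d : ℂ} (hdet : a * d - b * c ≠ 0) :
    {s : ℂ | IsAlgebraic ℚ s ∧ c * s + d ≠ 0 ∧
      (a * s + b) / (c * s + d) ∈ heckeOrbit t}.encard ≤ 3 := by
  by_contra hc
  obtain ⟨x, hx, hS⟩ := up_four hc
  obtain ⟨h1, h2⟩ := mob_data hdet hx (fun i => (hS i).2.1) fun _ => rfl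
  exact cr_alg ht h1 hx (fun i => (hS i).2.2) (fun i => (hS i).1) (by linear_combination -h2)

theorem hybrid {t : ℂ} (ht : Transcendental ℚ t) {a b c d : ℂ} (hdet : a * d - b * c ≠ 0)
    (hid : ¬ (b = 0 ∧ c = 0 ∧ a = d)) :
    {s : ℂ | c * s + d ≠ 0 ∧ (s ∈ heckeOrbit t ∨ IsAlgebraic ℚ s) ∧
      ((a * s + b) / (c * s + d) ∈ heckeOrbit t ∨ IsAlgebraic ℚ ((a * s + b) / (c * s + d))) ∧
      ¬ (IsAlgebraic ℚ s ∧ IsAlgebraic ℚ ((a * s + b) / (c * s + d)))}.encard ≤ 10 := by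
  refine (Set.encard_le_encard fun s hs => ?_).trans (((Set.encard_union_le _ _).trans
    (add_le_add ((Set.encard_union_le _ _).trans (add_le_add (upper ht hdet hid)
      (left_three ht hdet))) (right_three ht hdet))).trans (by norm_num))
  obtain ⟨h0, h1 | h1, h2 | h2, h3⟩ := hs
  · exact .inl (.inl ⟨h1, h0, h2⟩)
  · exact .inl (.inr ⟨h1, h0, h2⟩)
  · exact .inr ⟨h1, h0, h2⟩
  · exact absurd ⟨h1, h2⟩ h3

end Pool.Agent.UAP.Mz
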