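import Pool.Agent.Lib.MP_7e5527_ag.Mz.Form2
import Pool.Agent.Lib.MP_7e5527_ag.Mz.Ee
import Pool.Agent.Lib.MP_7e5527_ag.Mz.Hol

/-! Four points are attained. -/

open UpperHalfPlane

noncomputable section

namespace Pool.Agent.UAP.Mz

/-- `ident`, `exists_rep`, `W_zero`, `eq_of_W`. -/
theorem aff_ne {τ0 : ℍ} (ht : Transcendental ℚ (jf τ0)) {a a' : ℕ} (ha : 0 < a) (ha' : 0 < a')
    (h : a ≠ a') : jf (aff (a, 0, 1) τ0) ≠ jf (aff (a', 0, 1) τ0) := by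
  intro e
  have hg : ∀ i : Fin 2, ∃ N : ℕ, 0 < N ∧ ![((a, 0, 1) : ℕ × ℕ × ℕ), (a', 0, 1)] i ∈ Prim N := by
    intro i
    fin_cases i
    · exact ⟨a, ha, (mem_Prim ha).2 (by simp)⟩
    · exact ⟨a', ha', (mem_Prim ha').2 (by simp)⟩
  have h1 := ident ht _ hg (MvPolynomial.X 0 - MvPolynomial.X 1) (by simp [e])
  obtain ⟨K, _, _, φ, N, u, hN, hu⟩ := exists_rep ![((a, 0, 1) : ℕ × ℕ × ℕ), (a', 0, 1)]
    (fun i => by fin_cases i <;> simp [ha, ha']) fun i => by fin_cases i <;> simp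
  have h2 := eq_of_W (W_zero hN (hu 0) (hu 1) fun z => by simpa [sub_eq_zero] using h1 z)
  have h3 : (u 0).r * 1 = a * N := (hu 0).1
  have h4 : (u 1).r * 1 = a' * N := (hu 1).1
  rw [h2, h4] at h3
  exact h (Nat.eq_of_mul_eq_mul_right hN h3).symm

theorem lower_four {I : Set ℂ} {x1 x2 x3 x4 : ℂ} (m1 : x1 ∈ I) (m2 : x2 ∈ I) (m3 : x3 ∈ I)
    (m4 : x4 ∈ I) (h12 : x1 ≠ x2) (h13 : x1 ≠ x3) (h14 : x1 ≠ x4) (h23 : x2 ≠ x3) (h24 : x2 ≠ x4)
    (h34 : x3 ≠ x4) : ∃ a b c d : ℂ, a * d - b * c ≠ 0 ∧ ¬ (b = 0 ∧ c = 0 ∧ a = d) ∧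
      4 ≤ {s ∈ I | c * s + d ≠ 0 ∧ (a * s + b) / (c * s + d) ∈ I}.encard := by
  obtain ⟨c, hc⟩ : ∃ c, c = x1 + x2 - x3 - x4 := ⟨_, rfl⟩
  obtain ⟨a, ha⟩ : ∃ a, a = x1 * x2 - x3 * x4 := ⟨_, rfl⟩
  obtain ⟨b, hb⟩ : ∃ b, b = c * (x1 * x2) - a * (x1 + x2) := ⟨_, rfl⟩
  have s13 := sub_ne_zero.2 h13
  have s14 := sub_ne_zero.2 h14
  have s23 := sub_ne_zero.2 h23
  have s24 := sub_ne_zero.2 h24
  have e1 : c * x1 + -a ≠ 0 := fun e => mul_ne_zero s13 s14 (by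
    rw [hc, ha] at e; linear_combination e)
  have e2 : c * x2 + -a ≠ 0 := fun e => mul_ne_zero s23 s24 (by
    rw [hc, ha] at e; linear_combination e)
  have e3 : c * x3 + -a ≠ 0 := fun e => mul_ne_zero s13 s23 (by
    rw [hc, ha] at e; linear_combination -e)
  have e4 : c * x4 + -a ≠ 0 := fun e => mul_ne_zero s14 s24 (by
    rw [hc, ha] at e; linear_combination -e)
  have hd : a * -a - b * c ≠ 0 := fun e => mul_ne_zero e1 e2 (by
    rw [hb] at e; linear_combination -e)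
  refine ⟨a, b, c, -a, hd, fun ⟨_, h2, h3⟩ => hd ?_, ?_⟩
  · rw [h2, show a = 0 by linear_combination h3 / 2]
    ring
  have f1 : (a * x1 + b) / (c * x1 + -a) = x2 := by
    rw [div_eq_iff e1, hb]; ring
  have f2 : (a * x2 + b) / (c * x2 + -a) = x1 := by
    rw [div_eq_iff e2, hb]; ring
  have f3 : (a * x3 + b) / (c * x3 + -a) = x4 := by
    rw [div_eq_iff e3, hb, hc, ha]; ring
  have f4 : (a * x4 + b) / (c * x4 + -a) = x3 := by
    rw [div_eq_iff e4, hb, hc, ha]; ring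
  have h4 : ({x1, x2, x3, x4} : Set ℂ).encard = 4 := by
    rw [Set.encard_insert_of_notMem (by simp [h12, h13, h14]),
      Set.encard_insert_of_notMem (by simp [h23, h24]), Set.encard_pair h34]
    rfl
  refine h4.ge.trans (Set.encard_le_encard ?_)
  rintro s (rfl | rfl | rfl | rfl)
  · exact ⟨m1, e1, f1.symm ▸ m2⟩
  · exact ⟨m2, e2, f2.symm ▸ m1⟩
  · exact ⟨m3, e3, f3.symm ▸ m4⟩
  · exact ⟨m4, e4, f4.symm ▸ m3⟩

/-- The involution that exchanges `x1, x2` and `x3, x4`. -/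
theorem lower {t : ℂ} (ht : Transcendental ℚ t) : ∃ a b c d : ℂ, a * d - b * c ≠ 0 ∧
    ¬ (b = 0 ∧ c = 0 ∧ a = d) ∧
    4 ≤ {s ∈ heckeOrbit t | c * s + d ≠ 0 ∧ (a * s + b) / (c * s + d) ∈ heckeOrbit t}.encard := by
  obtain ⟨τ0, rfl⟩ := jf_surjective t
  exact lower_four (mem_orbit τ0 (a := 1) (by omega)) (mem_orbit τ0 (a := 2) (by omega))
    (mem_orbit τ0 (a := 3) (by omega)) (mem_orbit τ0 (a := 4) (by omega))
    (aff_ne ht (by omega) (by omega) (by omega)) (aff_ne ht (by omega) (by omega) (by omega))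
    (aff_ne ht (by omega) (by omega) (by omega)) (aff_ne ht (by omega) (by omega) (by omega))
    (aff_ne ht (by omega) (by omega) (by omega)) (aff_ne ht (by omega) (by omega) (by omega))

end Pool.Agent.UAP.Mz
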