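import Pool.Agent.Lib.MP_7e5527_ag.Mz.Ord

/-! Logarithmic derivatives of binomials. -/

open PowerSeries

noncomputable section

namespace Pool.Agent.UAP.Mz

variable {K : Type} [Field K]

theorem t5_sub (f g : K⟦X⟧) : thS (f - g) = thS f - thS g := by
  ext n
  simp [thS, mul_sub]

theorem t5_th (a : Mon K) : thS a.s = C (a.r : K) * a.s := by
  ext n
  rw [coeff_C_mul, thS, coeff_mk, Mon.s, coeff_C_mul, coeff_X_pow]
  split_ifs with h
  · rw [h]
  · simp

theorem t5_norm (a : Mon K) (σ : K →+* ℂ) : ‖σ a.c‖ = 1 := by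
  obtain ⟨N, h0, h⟩ := a.root
  exact Complex.norm_eq_one_of_pow_eq_one (by rw [← map_pow, h, map_one]) h0.ne'

theorem t5_ne (a : Mon K) : a.c ≠ 0 := by
  obtain ⟨N, h0, h⟩ := a.root
  intro e
  rw [e, zero_pow h0.ne'] at h
  exact zero_ne_one h

theorem t5_neg {F : K⟦X⟧} {t : ℝ} (h : Sm F t) : Sm (-F) t := by
  obtain ⟨h0, H, h1, h2⟩ := h
  refine ⟨neg_ne_zero.2 h0, H, ?_, h2⟩
  rw [neg_mul, ← h1]
  ext n
  simp [thS]

theorem t5_lt {a b : Mon K} (h : a.r < b.r) : Sm (a.s - b.s) 1 := by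
  obtain ⟨k, hk⟩ := Nat.exists_eq_add_of_le h.le
  have k0 : k ≠ 0 := by omega
  have h1 := congrArg (subM (b.c / a.c) k k0) (mk_one_mul_one_sub_eq_one K)
  rw [map_mul, map_sub, map_one, subM_X] at h1
  have h2 : b.s = a.s * (C (b.c / a.c) * X ^ k) := by
    rw [Mon.s, Mon.s, hk, pow_add, mul_mul_mul_comm, ← map_mul, mul_div_cancel₀ _ (t5_ne a)]
  refine ⟨fun e => t5_ne a ?_, C (b.r : K) - C (k : K) * subM (b.c / a.c) k k0 (mk 1), ?_,
    fun n hn σ => ?_⟩
  · simpa [Mon.s, coeff_X_pow, h.ne] using congrArg (coeff a.r) e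
  · have h3 : C (b.r : K) = C (a.r : K) + C (k : K) := by rw [hk, Nat.cast_add, map_add]
    rw [t5_sub, t5_th, t5_th, h3, h2]
    linear_combination (C (k : K) * a.s) * h1
  · rw [map_sub, coeff_C, if_neg (by omega), zero_sub, coeff_C_mul, coeff_subM, map_neg, norm_neg,
      one_mul]
    split_ifs with h3
    · have h4 : (k : ℝ) ≤ n := by exact_mod_cast Nat.le_of_dvd hn h3
      simpa [t5_norm] using h4
    · simp

theorem sm_sub {a b : Mon K} (h : a ≠ b) : Sm (a.s - b.s) 1 := by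
  rcases lt_trichotomy a.r b.r with h1 | h1 | h1
  · exact t5_lt h1
  · refine ⟨fun e => h ?_, C (a.r : K), ?_, fun n hn σ => ?_⟩
    · have h2 : a.c = b.c := by
        simpa [Mon.s, coeff_X_pow, h1, sub_eq_zero] using congrArg (coeff b.r) e
      cases a
      cases b
      simp_all
    · rw [t5_sub, t5_th, t5_th, h1]
      ring
    · rw [coeff_C, if_neg (by omega)]
      simp
  · simpa using t5_neg (t5_lt h1)

theorem Sm.mul {F G : K⟦X⟧} {s t : ℝ} (hF : Sm F s) (hG : Sm G t) : Sm (F * G) (s + t) := by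
  obtain ⟨h1, H, h2, h3⟩ := hF
  obtain ⟨h4, H', h5, h6⟩ := hG
  refine ⟨mul_ne_zero h1 h4, H + H', by rw [thS_mul, h2, h5]; ring, fun n hn σ => ?_⟩
  rw [map_add, map_add, add_mul]
  exact norm_add_le_of_le (h3 n hn σ) (h6 n hn σ)

theorem t6_coeff {n : ℕ} {A U : K⟦X⟧} (h : X ^ n ∣ A) :
    coeff n (A * U) = coeff n A * constantCoeff U := by
  obtain ⟨R, rfl⟩ := h
  have h1 := coeff_X_pow_mul (R * U) n 0
  have h2 := coeff_X_pow_mul R n 0
  rw [zero_add] at h1 h2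
  rw [mul_assoc, h1, h2, coeff_zero_eq_constantCoeff, map_mul]

/-- With `G = Ea / Eb` one has `thS G = G (H1 - H0)`. -/
theorem small [CharZero K] {N0 N1 Ea Eb : K⟦X⟧} (h0 : Sm N0 4) (h1 : Sm N1 4)
    (h : N0 * Ea = N1 * Eb) (ha : constantCoeff Ea = 1) (hb : constantCoeff Eb = 1) :
    Lo (Ea - Eb) := by
  obtain ⟨n0, H0, e0, b0⟩ := h0
  obtain ⟨-, H1, e1, b1⟩ := h1
  intro n hn σ
  rcases Nat.eq_zero_or_pos n with rfl | hpos
  · simp [ha, hb]
  obtain ⟨D, rfl⟩ : ∃ D, Ea = Eb + D := ⟨Ea - Eb, by ring⟩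
  rw [add_sub_cancel_left] at hn ⊢
  have h2 := congrArg thS h
  rw [thS_mul, thS_mul, e0, e1, thS_add] at h2
  have h3 : thS D * Eb - D * thS Eb = (H1 - H0) * ((Eb + D) * Eb) :=
    mul_left_cancel₀ n0 (by linear_combination Eb * h2 - (thS Eb + Eb * H1) * h)
  have h4 : X ^ n ∣ thS D := X_pow_dvd_iff.2 fun m hm => by
    simp [thS, X_pow_dvd_iff.1 hn m hm]
  have h5 : constantCoeff ((Eb + D) * Eb) = 1 := by rw [map_mul, ha, hb, mul_one]
  have h6 : X ^ n ∣ H1 - H0 := by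
    refine (IsUnit.dvd_mul_right (isUnit_iff_constantCoeff.2 (h5 ▸ isUnit_one))).1 ?_
    exact h3 ▸ dvd_sub (h4.mul_right _) (hn.mul_right _)
  have h7 := congrArg (coeff n) h3
  have h8 : constantCoeff (thS Eb) = 0 := by simp [thS]
  rw [map_sub, t6_coeff h4, t6_coeff hn, t6_coeff h6, h5, hb, h8, mul_one, mul_one, mul_zero,
    sub_zero, thS, coeff_mk, map_sub] at h7
  have h9 := congrArg (fun x => ‖σ x‖) h7
  simp only [map_mul, map_natCast, norm_mul, Complex.norm_natCast, map_sub] at h9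
  have h10 := norm_sub_le_of_le (b1 n hpos σ) (b0 n hpos σ)
  have h11 : (0 : ℝ) < n := by exact_mod_cast hpos
  exact le_of_mul_le_mul_left (by linarith) h11

end Pool.Agent.UAP.Mz
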