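import Pool.Agent.Lib.MP_7e5527_ag.Mz.Ee
import Pool.Agent.Lib.MP_7e5527_ag.Mz.Small

/-! The linear part of the cross ratio identity. -/

open PowerSeries

noncomputable section

namespace Pool.Agent.UAP.Mz

variable {K : Type} [Field K] [CharZero K]

/-- Expansion of a product of four factors up to second order. -/
theorem t8_prod {R : Type} [CommRing R] {x e1 e2 e3 e4 : R} (h1 : x ∣ e1) (h2 : x ∣ e2)
    (h3 : x ∣ e3) (h4 : x ∣ e4) : ∃ r, x * x ∣ r ∧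
      (1 - e1) * (1 - e2) * ((1 - e3) * (1 - e4)) = 1 - (e1 + e2 + e3 + e4) + r := by
  obtain ⟨a, rfl⟩ := h1
  obtain ⟨b, rfl⟩ := h2
  obtain ⟨c, rfl⟩ := h3
  obtain ⟨d, rfl⟩ := h4
  exact ⟨x * x * (a * b + a * c + a * d + b * c + b * d + c * d -
    x * (a * b * c + a * b * d + a * c * d + b * c * d) + x * x * (a * b * c * d)),
    dvd_mul_right _ _, by ring⟩

omit [CharZero K] in
/-- `exists_E` with the orders of the error terms. -/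
theorem t8_E {a b : Mon K} (h : a ≠ b) {k m μ : ℕ} (hk : k ≤ a.r + b.r) (hm : m ≤ b.r)
    (hμ : μ ≤ min a.r b.r) : ∃ Z ε : K⟦X⟧, X ^ (k + m + μ) ∣ Z ∧ X ^ k ∣ ε ∧
      constantCoeff ε = 0 ∧ ε = b.s * ff a + 21493760 * a.s * b.s ^ 2 + Z ∧
      W a b = (b.s - a.s) * (1 - ε) := by
  obtain ⟨Y, hY, hW⟩ := exists_E h
  have h1 : (X : K⟦X⟧) ^ (a.r + b.r) ∣ a.s * b.s := by
    rw [pow_add]
    exact mul_dvd_mul (a.dvd le_rfl) (b.dvd le_rfl)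
  have h2 : a.s * b.s ∣ b.s * ff a + 21493760 * a.s * b.s ^ 2 + a.s * b.s ^ 2 * Y :=
    ⟨196884 + 21493760 * a.s + a.s ^ 2 * a.ap T4 + 21493760 * b.s + b.s * Y, by
      unfold ff
      ring⟩
  refine ⟨a.s * b.s ^ 2 * Y, _, ?_, ((pow_dvd_pow _ hk).trans h1).trans h2, ?_, rfl, hW⟩
  · rw [pow_add, pow_add, sq, ← mul_assoc]
    exact mul_dvd_mul (mul_dvd_mul ((pow_dvd_pow _ hk).trans h1) (b.dvd hm))
      ((pow_dvd_pow _ hμ).trans hY)
  · have h3 := a.pos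
    exact X_dvd_iff.1 (((dvd_pow_self _ (by omega)).trans h1).trans h2)

omit [CharZero K] in
/-- A product of four differences. -/
theorem t8_sm {a b c d e f g h : Mon K} (h1 : a ≠ b) (h2 : c ≠ d) (h3 : e ≠ f) (h4 : g ≠ h) :
    Sm ((b.s - a.s) * (d.s - c.s) * ((f.s - e.s) * (h.s - g.s))) 4 := by
  have h5 := ((sm_sub h1.symm).mul (sm_sub h2.symm)).mul ((sm_sub h3.symm).mul (sm_sub h4.symm))
  rwa [show (1 : ℝ) + 1 + (1 + 1) = 4 by norm_num] at h5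

/-- `exists_E` for the eight factors, `small`, and the expansion of the two products. -/
theorem master {u1 u2 u3 u4 v1 v2 v3 v4 : Mon K} (hu : Dis u1 u2 u3 u4) (hv : Dis v1 v2 v3 v4)
    (h : Id4 u1 u2 u3 u4 v1 v2 v3 v4) {k m μ e : ℕ}
    (hk : k ≤ min u1.r u2.r + min u3.r u4.r) (hk' : k ≤ min v1.r v2.r + min v3.r v4.r)
    (hm : m ≤ min u3.r u4.r) (hm' : m ≤ min v3.r v4.r)
    (hμ : μ ≤ min (min u1.r u2.r) (min u3.r u4.r)) (hμ' : μ ≤ min (min v1.r v2.r) (min v3.r v4.r))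
    (he : e ≤ 2 * k) (he' : e ≤ k + m + μ) :
    ∃ ρ : K⟦X⟧, X ^ e ∣ ρ ∧
      Lo (-((ff u1 - ff u2) * (u3.s - u4.s) - (ff v1 - ff v2) * (v3.s - v4.s)) -
        21493760 * ((u1.s - u2.s) * (u3.s ^ 2 - u4.s ^ 2) -
          (v1.s - v2.s) * (v3.s ^ 2 - v4.s ^ 2)) + ρ) := by
  obtain ⟨-, a13, a14, a23, a24, -⟩ := hu
  obtain ⟨-, b13, b14, b23, b24, -⟩ := hv
  obtain ⟨Z1, e1, z1, d1, c1, q1, w1⟩ :=
    t8_E (k := k) (m := m) (μ := μ) a13 (by omega) (by omega) (by omega)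
  obtain ⟨Z2, e2, z2, d2, c2, q2, w2⟩ :=
    t8_E (k := k) (m := m) (μ := μ) a24 (by omega) (by omega) (by omega)
  obtain ⟨Z3, e3, z3, d3, c3, q3, w3⟩ :=
    t8_E (k := k) (m := m) (μ := μ) b14 (by omega) (by omega) (by omega)
  obtain ⟨Z4, e4, z4, d4, c4, q4, w4⟩ :=
    t8_E (k := k) (m := m) (μ := μ) b23 (by omega) (by omega) (by omega)
  obtain ⟨Z5, e5, z5, d5, c5, q5, w5⟩ :=
    t8_E (k := k) (m := m) (μ := μ) a14 (by omega) (by omega) (by omega)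
  obtain ⟨Z6, e6, z6, d6, c6, q6, w6⟩ :=
    t8_E (k := k) (m := m) (μ := μ) a23 (by omega) (by omega) (by omega)
  obtain ⟨Z7, e7, z7, d7, c7, q7, w7⟩ :=
    t8_E (k := k) (m := m) (μ := μ) b13 (by omega) (by omega) (by omega)
  obtain ⟨Z8, e8, z8, d8, c8, q8, w8⟩ :=
    t8_E (k := k) (m := m) (μ := μ) b24 (by omega) (by omega) (by omega)
  obtain ⟨ra, hra, ea⟩ := t8_prod d1 d2 d3 d4
  obtain ⟨rb, hrb, eb⟩ := t8_prod d5 d6 d7 d8
  have hL : Lo ((1 - e1) * (1 - e2) * ((1 - e3) * (1 - e4)) -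
      (1 - e5) * (1 - e6) * ((1 - e7) * (1 - e8))) := by
    refine small (t8_sm a13 a24 b14 b23) (t8_sm a14 a23 b13 b24) ?_
      (by simp [c1, c2, c3, c4]) (by simp [c5, c6, c7, c8])
    unfold Id4 at h
    rw [w1, w2, w3, w4, w5, w6, w7, w8] at h
    linear_combination h
  have hX : (X : K⟦X⟧) ^ e ∣ X ^ k * X ^ k := by
    rw [← pow_add]
    exact pow_dvd_pow _ (by omega)
  have hZ : (X : K⟦X⟧) ^ e ∣ X ^ (k + m + μ) := pow_dvd_pow _ he'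
  refine ⟨ra - rb - (Z1 + Z2 + Z3 + Z4) + (Z5 + Z6 + Z7 + Z8), ?_, ?_⟩
  · exact dvd_add (dvd_sub (hX.trans (dvd_sub hra hrb))
      (hZ.trans (dvd_add (dvd_add (dvd_add z1 z2) z3) z4)))
      (hZ.trans (dvd_add (dvd_add (dvd_add z5 z6) z7) z8))
  · rw [ea, eb, q1, q2, q3, q4, q5, q6, q7, q8] at hL
    convert hL using 1
    ring

end Pool.Agent.UAP.Mz
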