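import Pool.Agent.Lib.MP_7e5527_ag.Mz.Defs

/-! Orders and coefficients of monomials. -/

open PowerSeries

noncomputable section

namespace Pool.Agent.UAP.Mz

variable {K : Type} [Field K]

theorem Mon.c_ne (u : Mon K) : u.c ≠ 0 := by
  obtain ⟨N, hN, h⟩ := u.root
  intro h0
  rw [h0, zero_pow hN.ne'] at h
  exact zero_ne_one h

theorem Mon.coeff_s (u : Mon K) (n : ℕ) : coeff n u.s = if n = u.r then u.c else 0 := by
  rw [Mon.s, coeff_C_mul, coeff_X_pow]
  split_ifs <;> simp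

theorem Mon.dvd (u : Mon K) {m : ℕ} (h : m ≤ u.r) : X ^ m ∣ u.s := by
  exact (pow_dvd_pow X h).mul_left _

theorem Mon.eq_of_coeff {a b : Mon K} {n : ℕ} (h : coeff n a.s = coeff n b.s)
    (h0 : coeff n a.s ≠ 0) : a = b := by
  have h1 : coeff n b.s ≠ 0 := h ▸ h0
  rw [Mon.coeff_s] at h0 h1
  have ha : n = a.r := by
    by_contra hn
    exact h0 (if_neg hn)
  have hb : n = b.r := by
    by_contra hn
    exact h1 (if_neg hn)
  rw [Mon.coeff_s, Mon.coeff_s, if_pos ha, if_pos hb] at h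
  obtain ⟨ac, ar, ap, aN⟩ := a
  obtain ⟨bc, br, bp, bN⟩ := b
  simp only at h ha hb
  subst h
  subst ha
  subst hb
  rfl

theorem Mon.lead_ne {a b : Mon K} (h : a ≠ b) : coeff (min a.r b.r) (a.s - b.s) ≠ 0 := by
  intro h0
  rw [map_sub, sub_eq_zero] at h0
  rcases le_total a.r b.r with hr | hr
  · rw [min_eq_left hr] at h0
    refine h (Mon.eq_of_coeff h0 ?_)
    rw [Mon.coeff_s, if_pos rfl]
    exact a.c_ne
  · rw [min_eq_right hr] at h0
    refine h (Mon.eq_of_coeff h0.symm ?_).symm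
    rw [Mon.coeff_s, if_pos rfl]
    exact b.c_ne

theorem Mon.ap_X (u : Mon K) : u.ap X = u.s := by
  have h : toS K (X : ℤ⟦X⟧) = X := by
    ext n
    simp [toS]
  rw [Mon.ap, h, subM_X, Mon.s]

/-- The constant terms cancel. -/
theorem Mon.dvd_ap_sub (a b : Mon K) (f : ℤ⟦X⟧) : X ^ min a.r b.r ∣ a.ap f - b.ap f := by
  rw [X_pow_dvd_iff]
  intro m hm
  rw [map_sub, Mon.ap, Mon.ap, coeff_subM, coeff_subM]
  rcases Nat.eq_zero_or_pos m with rfl | h0
  · simp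
  · rw [if_neg (Nat.not_dvd_of_pos_of_lt h0 (lt_of_lt_of_le hm (min_le_left _ _))),
      if_neg (Nat.not_dvd_of_pos_of_lt h0 (lt_of_lt_of_le hm (min_le_right _ _))), sub_zero]

/-- The difference of two monomials is a unit times a power of the variable. -/
theorem Mon.sub_dvd {a b : Mon K} (h : a ≠ b) {F : K⟦X⟧} (hF : X ^ min a.r b.r ∣ F) :
    a.s - b.s ∣ F := by
  have h1 : X ^ min a.r b.r ∣ a.s - b.s :=
    dvd_sub (a.dvd (min_le_left _ _)) (b.dvd (min_le_right _ _))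
  obtain ⟨U, hU⟩ := h1
  have h2 := Mon.lead_ne h
  have h3 := coeff_X_pow_mul U (min a.r b.r) 0
  rw [zero_add, ← hU] at h3
  rw [h3, coeff_zero_eq_constantCoeff_apply] at h2
  have h4 : IsUnit U := isUnit_iff_constantCoeff.2 (isUnit_iff_ne_zero.2 h2)
  rw [hU]
  exact h4.mul_right_dvd.2 hF

theorem coeff_mul_dvd {F G : K⟦X⟧} {i j : ℕ} (hF : X ^ i ∣ F) (hG : X ^ j ∣ G) :
    coeff (i + j) (F * G) = coeff i F * coeff j G := by
  obtain ⟨F', rfl⟩ := hF
  obtain ⟨G', rfl⟩ := hG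
  have h1 := coeff_X_pow_mul F' i 0
  have h2 := coeff_X_pow_mul G' j 0
  have h3 := coeff_X_pow_mul (F' * G') (i + j) 0
  rw [zero_add] at h1 h2 h3
  rw [h1, h2, mul_mul_mul_comm, ← pow_add, h3]
  simp

theorem Bd.add {F G : K⟦X⟧} {s t : ℝ} (hF : Bd F s) (hG : Bd G t) : Bd (F + G) (s + t) := by
  intro n
  rw [map_add]
  refine ⟨(hF n).1.add (hG n).1, fun σ => ?_⟩
  rw [map_add]
  exact (norm_add_le _ _).trans (add_le_add ((hF n).2 σ) ((hG n).2 σ))

theorem Bd.sub {F G : K⟦X⟧} {s t : ℝ} (hF : Bd F s) (hG : Bd G t) : Bd (F - G) (s + t) := by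
  intro n
  rw [map_sub]
  refine ⟨(hF n).1.sub (hG n).1, fun σ => ?_⟩
  rw [map_sub]
  exact (norm_sub_le _ _).trans (add_le_add ((hF n).2 σ) ((hG n).2 σ))

theorem t3_int (a : Mon K) : IsIntegral ℤ a.c := by
  obtain ⟨N, h0, h⟩ := a.root
  exact IsIntegral.of_pow h0 (h ▸ isIntegral_one)

theorem t3_norm (a : Mon K) (σ : K →+* ℂ) : ‖σ a.c‖ = 1 := by
  obtain ⟨N, h0, h⟩ := a.root
  refine (pow_eq_one_iff_of_nonneg (norm_nonneg _) h0.ne').1 ?_
  rw [← norm_pow, ← map_pow, h, map_one, norm_one]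

theorem Mon.bd (a : Mon K) : Bd a.s 1 := by
  intro n
  rw [Mon.coeff_s]
  split_ifs
  · exact ⟨t3_int a, fun σ => (t3_norm a σ).le⟩
  · exact ⟨isIntegral_zero, fun σ => by simp⟩

/-- Multiplication by a monomial shifts the coefficients and rotates them. -/
theorem Bd.mon_mul {F : K⟦X⟧} {t : ℝ} (hF : Bd F t) (a : Mon K) : Bd (a.s * F) t := by
  intro n
  rw [Mon.s, mul_assoc, coeff_C_mul, coeff_X_pow_mul']
  split_ifs
  · refine ⟨(t3_int a).mul (hF _).1, fun σ => ?_⟩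
    rw [map_mul, norm_mul, t3_norm, one_mul]
    exact (hF _).2 σ
  · refine ⟨by rw [mul_zero]; exact isIntegral_zero, fun σ => ?_⟩
    rw [mul_zero, map_zero, norm_zero]
    exact (norm_nonneg _).trans ((hF 0).2 σ)

end Pool.Agent.UAP.Mz
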