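import Pool.Agent.Lib.MP_7e5527_ag.Mz.RgBase

/-! Four points: the algebra of the leading coefficients. -/

noncomputable section

namespace Pool.Agent.UAP.Mz

variable {p1 p2 p3 p4 q1 q2 q3 q4 : ℂ}

theorem c4s_unit {a : ℂ} (ha : ‖a‖ = 1) : a * (starRingEnd ℂ) a = 1 := by
  rw [Complex.mul_conj, Complex.normSq_eq_norm_sq, ha]
  simp

theorem c4s_conj {a b c d : ℂ} (ha : ‖a‖ = 1) (hb : ‖b‖ = 1) (hc : ‖c‖ = 1) (hd : ‖d‖ = 1) :
    a * b * c * d * (starRingEnd ℂ) (a * b + c * d) = a * b + c * d := by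
  simp only [map_add, map_mul]
  linear_combination (b * (starRingEnd ℂ) b * c * d) * c4s_unit ha + c * d * c4s_unit hb +
    (a * b * d * (starRingEnd ℂ) d) * c4s_unit hc + a * b * c4s_unit hd

theorem c4s_e3 {a b c d : ℂ} (ha : ‖a‖ = 1) (hb : ‖b‖ = 1) (hc : ‖c‖ = 1) (hd : ‖d‖ = 1) :
    a * b * c * d * (starRingEnd ℂ) (a + b + c + d) =
      a * b * c + a * b * d + a * c * d + b * c * d := by
  simp only [map_add]
  linear_combination b * c * d * c4s_unit ha + a * c * d * c4s_unit hb +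
    a * b * d * c4s_unit hc + a * b * c * c4s_unit hd

theorem c4s_norm {a b c d : ℂ} (ha : ‖a‖ = 1) (hb : ‖b‖ = 1) (hc : ‖c‖ = 1) (hd : ‖d‖ = 1) :
    ‖a * b + c * d‖ ≤ 2 := by
  have := norm_add_le (a * b) (c * d)
  rw [norm_mul, norm_mul, ha, hb, hc, hd] at this
  linarith

theorem c4s_re {x y : ℂ} (hx : ‖x‖ ≤ 2) (hy : ‖y‖ ≤ 2) :
    Complex.normSq (x + y) ≤ 8 + 2 * (x * (starRingEnd ℂ) y).re := by
  rw [Complex.normSq_add, Complex.normSq_eq_norm_sq, Complex.normSq_eq_norm_sq]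
  nlinarith [norm_nonneg x, norm_nonneg y]

theorem c4s_opp {x y a b c d : ℂ} (hx : ‖x‖ ≤ 2) (hy : ‖y‖ ≤ 2) (ha : ‖a‖ ≤ 2) (hb : ‖b‖ ≤ 2)
    (hc : ‖c‖ ≤ 2) (hd : ‖d‖ ≤ 2)
    (h : x * (starRingEnd ℂ) y + a * (starRingEnd ℂ) b + c * (starRingEnd ℂ) d = -12) :
    x + y = 0 := by
  have h1 := congrArg Complex.re h
  rw [Complex.add_re, Complex.add_re] at h1
  have h2 : (-12 : ℂ).re = -12 := by simp
  have h3 := c4s_re hx hy
  have h4 := c4s_re ha hb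
  have h5 := c4s_re hc hd
  have h6 := Complex.normSq_nonneg (x + y)
  have h7 := Complex.normSq_nonneg (a + b)
  have h8 := Complex.normSq_nonneg (c + d)
  exact Complex.normSq_eq_zero.1 (by linarith)

theorem c4s_core {E t1 t2 t3 u2 u3 : ℂ} (hE : E ≠ 0) (n1 : ‖t1‖ ≤ 2) (n2 : ‖t2‖ ≤ 2)
    (m2 : ‖u2‖ ≤ 2) (m3 : ‖u3‖ ≤ 2) (c2 : E * (starRingEnd ℂ) t2 = t2)
    (d3 : E * (starRingEnd ℂ) u3 = u3) {s : ℂ} (hs : s ≠ 0) (e2 : u2 = t2 + s) (e3 : u3 = t3 + s)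
    (h : (t1 + s) * (t2 + s) * (t3 + s) - t1 * t2 * t3 = -12 * E * s) : t1 + t2 = 0 := by
  refine c4s_opp n1 n2 n1 m3 m2 m3 (mul_left_cancel₀ hE (mul_left_cancel₀ hs ?_))
  linear_combination h + s * t1 * c2 + s * (t1 + u2) * d3 + s * (t1 + u2) * e3 +
    s * (t3 + s) * e2

/-- Conjugation (`p * conj p = 1`) gives equal `e4` and `e3`. With `θ1 = p1 p2 + p3 p4`,
`θ2 = p1 p3 + p2 p4`, `θ3 = p1 p4 + p2 p3` and `θ' = θ + s` one has
`θ1 θ2 θ3 = e1 ^ 2 e4 + e3 ^ 2 - 4 e2 e4`, `e2 = θ1 + θ2 + θ3`, `θ = e4 * conj θ`. If `s ≠ 0`,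
`-12 = θ1 conj θ2 + θ1 conj θ3' + θ2' conj θ3'` and the same with `2, 3` exchanged; all norms
are at most 2, so `θ2 = -θ1 = θ3`, against `θ2 - θ3 = (p1 - p2) (p3 - p4) ≠ 0`. -/
theorem c4_shift (a1 : ‖p1‖ = 1) (a2 : ‖p2‖ = 1) (a3 : ‖p3‖ = 1) (a4 : ‖p4‖ = 1)
    (b1 : ‖q1‖ = 1) (b2 : ‖q2‖ = 1) (b3 : ‖q3‖ = 1) (b4 : ‖q4‖ = 1) (hp : Dis4 p1 p2 p3 p4)
    (hs : p1 + p2 + p3 + p4 = q1 + q2 + q3 + q4)
    (h12 : (p1 - p2) * (p3 - p4) = (q1 - q2) * (q3 - q4))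
    (h13 : (p1 - p3) * (p2 - p4) = (q1 - q3) * (q2 - q4)) :
    p1 * p2 + p3 * p4 = q1 * q2 + q3 * q4 ∧ p1 * p3 + p2 * p4 = q1 * q3 + q2 * q4 ∧
      p1 * p4 + p2 * p3 = q1 * q4 + q2 * q3 ∧ p1 * p2 * p3 * p4 = q1 * q2 * q3 * q4 ∧
      p1 * p2 * p3 + p1 * p2 * p4 + p1 * p3 * p4 + p2 * p3 * p4 =
        q1 * q2 * q3 + q1 * q2 * q4 + q1 * q3 * q4 + q2 * q3 * q4 := by
  have hd : (p1 - p2) * (p3 - p4) ≠ 0 :=
    mul_ne_zero (sub_ne_zero.2 hp.1) (sub_ne_zero.2 hp.2.2.2.2.2)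
  have t2 := c4s_conj a1 a3 a2 a4
  have t3 := c4s_conj a1 a4 a2 a3
  have u2 := c4s_conj b1 b3 b2 b4
  have u3 := c4s_conj b1 b4 b2 b3
  have k : (starRingEnd ℂ) (p1 * p3 + p2 * p4) - (starRingEnd ℂ) (p1 * p4 + p2 * p3) =
      (starRingEnd ℂ) (q1 * q3 + q2 * q4) - (starRingEnd ℂ) (q1 * q4 + q2 * q3) := by
    rw [← map_sub, ← map_sub]
    congr 1
    linear_combination h12
  have hE : p1 * p2 * p3 * p4 = q1 * q2 * q3 * q4 := by
    refine mul_left_cancel₀ hd ?_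
    linear_combination (q1 * q2 * q3 * q4) * (t2 - t3) - (p1 * p2 * p3 * p4) * (u2 - u3) -
      (p1 * p2 * p3 * p4) * (q1 * q2 * q3 * q4) * k + (p1 * p2 * p3 * p4) * h12
  have h3 : p1 * p2 * p3 + p1 * p2 * p4 + p1 * p3 * p4 + p2 * p3 * p4 =
      q1 * q2 * q3 + q1 * q2 * q4 + q1 * q3 * q4 + q2 * q3 * q4 := by
    rw [← c4s_e3 a1 a2 a3 a4, ← c4s_e3 b1 b2 b3 b4, hE, hs]
  have E0 : p1 * p2 * p3 * p4 ≠ 0 := by
    rw [← norm_ne_zero_iff, norm_mul, norm_mul, norm_mul, a1, a2, a3, a4]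
    norm_num
  obtain ⟨s, hs'⟩ : ∃ s, s = q1 * q4 + q2 * q3 - (p1 * p4 + p2 * p3) := ⟨_, rfl⟩
  have e1 : q1 * q2 + q3 * q4 = p1 * p2 + p3 * p4 + s := by linear_combination -h13 - hs'
  have e2 : q1 * q3 + q2 * q4 = p1 * p3 + p2 * p4 + s := by linear_combination -h12 - hs'
  have e3 : q1 * q4 + q2 * q3 = p1 * p4 + p2 * p3 + s := by linear_combination -hs'
  have s0 : s = 0 := by
    by_contra s0
    have h : (p1 * p2 + p3 * p4 + s) * (p1 * p3 + p2 * p4 + s) * (p1 * p4 + p2 * p3 + s) -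
        (p1 * p2 + p3 * p4) * (p1 * p3 + p2 * p4) * (p1 * p4 + p2 * p3) =
        -12 * (p1 * p2 * p3 * p4) * s := by
      have f : ∀ a b c d : ℂ, (a * b + c * d) * (a * c + b * d) * (a * d + b * c) =
          (a + b + c + d) ^ 2 * (a * b * c * d) + (a * b * c + a * b * d + a * c * d + b * c * d) ^ 2
            - 4 * ((a * b + c * d) + (a * c + b * d) + (a * d + b * c)) * (a * b * c * d) :=
        fun a b c d => by ring
      have f1 := f p1 p2 p3 p4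
      have f2 := f q1 q2 q3 q4
      rw [← hs, ← hE, ← h3, e1, e2, e3] at f2
      rw [f1, f2]
      ring
    have n1 := c4s_norm a1 a2 a3 a4
    have n2 := c4s_norm a1 a3 a2 a4
    have n3 := c4s_norm a1 a4 a2 a3
    have m2 := c4s_norm b1 b3 b2 b4
    have m3 := c4s_norm b1 b4 b2 b3
    have g2 := c4s_core E0 n1 n2 m2 m3 (by linear_combination t2)
      (by rw [hE]; linear_combination u3) s0 e2 e3 h
    have g3 := c4s_core E0 n1 n3 m3 m2 (by linear_combination t3)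
      (by rw [hE]; linear_combination u2) s0 e3 e2 (by linear_combination h)
    exact hd (by linear_combination g2 - g3)
  rw [s0, add_zero] at e1 e2 e3
  exact ⟨e1.symm, e2.symm, e3.symm, hE, h3⟩

theorem c4a_two {a : ℂ} (d13 : a ≠ p3) (d14 : a ≠ p4) (d23 : p2 ≠ p3) (d24 : p2 ≠ p4)
    (hs : p2 + p3 + p4 = q2 + q3 + q4)
    (hf : p2 * p3 + p2 * p4 + p3 * p4 = q2 * q3 + q2 * q4 + q3 * q4)
    (hg : p2 * p3 * p4 = q2 * q3 * q4) (t : a * p2 + p3 * p4 = a * q2 + q3 * q4) : q2 = p2 := by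
  have h1 : (q2 - p2) * ((q2 - p3) * (q2 - p4)) = 0 := by
    linear_combination (-q2 ^ 2) * hs + q2 * hf - hg
  have h2 : (q2 - p2) * (q2 + a - p3 - p4) = 0 := by
    linear_combination (-q2) * hs + hf - t
  by_contra e
  have e' : q2 - p2 ≠ 0 := sub_ne_zero.2 e
  have h3 := (mul_eq_zero.1 h2).resolve_left e'
  rcases mul_eq_zero.1 ((mul_eq_zero.1 h1).resolve_left e') with h4 | h4
  · exact d14 (by linear_combination h3 - h4)
  · exact d13 (by linear_combination h3 - h4)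

theorem c4a_one (hp : Dis4 p1 p2 p3 p4) (hs : p1 + p2 + p3 + p4 = q1 + q2 + q3 + q4)
    (t1 : p1 * p2 + p3 * p4 = q1 * q2 + q3 * q4) (t2 : p1 * p3 + p2 * p4 = q1 * q3 + q2 * q4)
    (t3 : p1 * p4 + p2 * p3 = q1 * q4 + q2 * q3)
    (e3 : p1 * p2 * p3 + p1 * p2 * p4 + p1 * p3 * p4 + p2 * p3 * p4 =
      q1 * q2 * q3 + q1 * q2 * q4 + q1 * q3 * q4 + q2 * q3 * q4) (h : q1 = p1) :
    q1 = p1 ∧ q2 = p2 ∧ q3 = p3 ∧ q4 = p4 := by
  obtain ⟨d12, d13, d14, d23, d24, d34⟩ := hp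
  subst h
  have s : p2 + p3 + p4 = q2 + q3 + q4 := by linear_combination hs
  have f : p2 * p3 + p2 * p4 + p3 * p4 = q2 * q3 + q2 * q4 + q3 * q4 := by
    linear_combination t1 + t2 + t3 - q1 * s
  have g : p2 * p3 * p4 = q2 * q3 * q4 := by linear_combination e3 - q1 * f
  refine ⟨rfl, c4a_two d13 d14 d23 d24 s f g t1, ?_, ?_⟩
  · exact c4a_two (q3 := q2) (q4 := q4) d12 d14 d23.symm d34 (by linear_combination s)
      (by linear_combination f) (by linear_combination g) t2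
  · exact c4a_two (q3 := q2) (q4 := q3) d12 d13 d24.symm d34.symm (by linear_combination s)
      (by linear_combination f) (by linear_combination g) t3

/-- By `c4_shift` all symmetric functions agree, so each `q i` is a root of the product of the
`T - p j`; `q` is a permutation of `p` that fixes the three different numbers `θ`. -/
theorem c4 (a1 : ‖p1‖ = 1) (a2 : ‖p2‖ = 1) (a3 : ‖p3‖ = 1) (a4 : ‖p4‖ = 1)
    (b1 : ‖q1‖ = 1) (b2 : ‖q2‖ = 1) (b3 : ‖q3‖ = 1) (b4 : ‖q4‖ = 1) (hp : Dis4 p1 p2 p3 p4)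
    (hq : Dis4 q1 q2 q3 q4) (hs : p1 + p2 + p3 + p4 = q1 + q2 + q3 + q4)
    (h12 : (p1 - p2) * (p3 - p4) = (q1 - q2) * (q3 - q4))
    (h13 : (p1 - p3) * (p2 - p4) = (q1 - q3) * (q2 - q4)) : V4 p1 p2 p3 p4 q1 q2 q3 q4 := by
  obtain ⟨t1, t2, t3, e4, e3⟩ := c4_shift a1 a2 a3 a4 b1 b2 b3 b4 hp hs h12 h13
  have h : (q1 - p1) * ((q1 - p2) * ((q1 - p3) * (q1 - p4))) = 0 := by
    linear_combination (-q1 ^ 3) * hs + q1 ^ 2 * (t1 + t2 + t3) - q1 * e3 + e4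
  obtain ⟨d12, d13, d14, d23, d24, d34⟩ := id hp
  rcases mul_eq_zero.1 h with h | h
  · exact Or.inl (c4a_one hp hs t1 t2 t3 e3 (sub_eq_zero.1 h))
  rcases mul_eq_zero.1 h with h | h
  · exact Or.inr (Or.inl (c4a_one ⟨d12.symm, d24, d23, d14, d13, d34.symm⟩
      (by linear_combination hs) (by linear_combination t1) (by linear_combination t2)
      (by linear_combination t3) (by linear_combination e3) (sub_eq_zero.1 h)))
  rcases mul_eq_zero.1 h with h | h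
  · exact Or.inr (Or.inr (Or.inl (c4a_one ⟨d34, d13.symm, d23.symm, d14.symm, d24.symm, d12⟩
      (by linear_combination hs) (by linear_combination t1) (by linear_combination t2)
      (by linear_combination t3) (by linear_combination e3) (sub_eq_zero.1 h))))
  · exact Or.inr (Or.inr (Or.inr (c4a_one
      ⟨d34.symm, d24.symm, d14.symm, d23.symm, d13.symm, d12.symm⟩
      (by linear_combination hs) (by linear_combination t1) (by linear_combination t2)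
      (by linear_combination t3) (by linear_combination e3) (sub_eq_zero.1 h))))

theorem a3_ne {p : ℂ} (a : ‖p‖ = 1) : p ≠ 0 := by
  intro h; rw [h] at a; simp at a

theorem a3_conj {p : ℂ} (a : ‖p‖ = 1) : (starRingEnd ℂ) p = p⁻¹ := by
  rw [Complex.inv_def, Complex.normSq_eq_norm_sq, a]; simp

/-- Conjugation gives `q1 q2 q3 q4 = -p1 p2 p3 ^ 2 = -p1 p2 ^ 2 p3`. -/
theorem c34 (a1 : ‖p1‖ = 1) (a2 : ‖p2‖ = 1) (a3 : ‖p3‖ = 1)
    (b1 : ‖q1‖ = 1) (b2 : ‖q2‖ = 1) (b3 : ‖q3‖ = 1) (b4 : ‖q4‖ = 1)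
    (d12 : p1 ≠ p2) (d13 : p1 ≠ p3) (d23 : p2 ≠ p3)
    (h12 : (p1 - p2) * p3 = (q1 - q2) * (q3 - q4))
    (h13 : (p1 - p3) * p2 = (q1 - q3) * (q2 - q4)) : False := by
  have n1 := a3_ne a1
  have n2 := a3_ne a2
  have n3 := a3_ne a3
  have m1 := a3_ne b1
  have m2 := a3_ne b2
  have m3 := a3_ne b3
  have m4 := a3_ne b4
  have c12 := congrArg (starRingEnd ℂ) h12
  have c13 := congrArg (starRingEnd ℂ) h13
  simp only [map_mul, map_sub, a3_conj a1, a3_conj a2, a3_conj a3, a3_conj b1, a3_conj b2,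
    a3_conj b3, a3_conj b4] at c12 c13
  have e12 : (p2 - p1) * (q1 * q2 * q3 * q4) = (q1 - q2) * (q3 - q4) * (p1 * p2 * p3) := by
    field_simp at c12
    linear_combination c12
  have e13 : (p3 - p1) * (q1 * q2 * q3 * q4) = (q1 - q3) * (q2 - q4) * (p1 * p2 * p3) := by
    field_simp at c13
    linear_combination c13
  have f12 : q1 * q2 * q3 * q4 = -(p3 * (p1 * p2 * p3)) := by
    apply mul_left_cancel₀ (sub_ne_zero.mpr d12.symm)
    rw [e12, ← h12]; ring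
  have f13 : q1 * q2 * q3 * q4 = -(p2 * (p1 * p2 * p3)) := by
    apply mul_left_cancel₀ (sub_ne_zero.mpr d13.symm)
    rw [e13, ← h13]; ring
  apply d23
  have hP : p1 * p2 * p3 ≠ 0 := mul_ne_zero (mul_ne_zero n1 n2) n3
  apply mul_right_cancel₀ hP
  linear_combination f13 - f12

/-- Conjugation gives `p i * (p1 p2 p3) = q i * (q1 q2 q3)` (third relation `h13 - h12`), so
`q i = l * p i` and `l ^ 2 = 1`. -/
theorem c33 (a1 : ‖p1‖ = 1) (a2 : ‖p2‖ = 1) (a3 : ‖p3‖ = 1)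
    (b1 : ‖q1‖ = 1) (b2 : ‖q2‖ = 1) (b3 : ‖q3‖ = 1)
    (d12 : p1 ≠ p2) (d13 : p1 ≠ p3) (d23 : p2 ≠ p3) (hs : p1 + p2 + p3 = q1 + q2 + q3)
    (h12 : (p1 - p2) * p3 = (q1 - q2) * q3) (h13 : (p1 - p3) * p2 = (q1 - q3) * q2) :
    (q1 = p1 ∧ q2 = p2 ∧ q3 = p3) ∨ (q2 = -p2 ∧ q3 = -p3 ∧ p1 + p2 + p3 = 0) := by
  have n1 := a3_ne a1
  have n2 := a3_ne a2
  have n3 := a3_ne a3
  have m1 := a3_ne b1
  have m2 := a3_ne b2
  have m3 := a3_ne b3
  have h23 : (p2 - p3) * p1 = (q2 - q3) * q1 := by linear_combination h13 - h12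
  have key : ∀ {x y z u v w : ℂ}, ‖x‖ = 1 → ‖y‖ = 1 → ‖z‖ = 1 → ‖u‖ = 1 → ‖v‖ = 1 → ‖w‖ = 1 →
      x ≠ y → (x - y) * z = (u - v) * w → z * (x * y * z) = w * (u * v * w) := by
    intro x y z u v w hx hy hz hu hv hw d h
    have x0 := a3_ne hx
    have y0 := a3_ne hy
    have z0 := a3_ne hz
    have u0 := a3_ne hu
    have v0 := a3_ne hv
    have w0 := a3_ne hw
    have c := congrArg (starRingEnd ℂ) h
    simp only [map_mul, map_sub, a3_conj hx, a3_conj hy, a3_conj hz, a3_conj hu, a3_conj hv,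
      a3_conj hw] at c
    have e : (y - x) * (u * v * w) = (v - u) * (x * y * z) := by
      field_simp at c
      linear_combination c
    apply mul_left_cancel₀ (sub_ne_zero.mpr d)
    linear_combination (x * y * z) * h + w * e
  have k3 := key a1 a2 a3 b1 b2 b3 d12 h12
  have k2 := key a1 a3 a2 b1 b3 b2 d13 h13
  have k1 := key a2 a3 a1 b2 b3 b1 d23 h23
  have hQ : q1 * q2 * q3 ≠ 0 := mul_ne_zero (mul_ne_zero m1 m2) m3
  obtain ⟨l, hl⟩ : ∃ l : ℂ, l * (q1 * q2 * q3) = p1 * p2 * p3 :=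
    ⟨p1 * p2 * p3 / (q1 * q2 * q3), div_mul_cancel₀ _ hQ⟩
  have r1 : q1 = l * p1 := by
    apply mul_right_cancel₀ hQ
    linear_combination -k1 - p1 * hl
  have r2 : q2 = l * p2 := by
    apply mul_right_cancel₀ hQ
    linear_combination -k2 - p2 * hl
  have r3 : q3 = l * p3 := by
    apply mul_right_cancel₀ hQ
    linear_combination -k3 - p3 * hl
  have hl2 : (l - 1) * (l + 1) = 0 := by
    have h0 : (p1 - p2) * p3 ≠ 0 := mul_ne_zero (sub_ne_zero.mpr d12) n3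
    apply mul_right_cancel₀ h0
    rw [r1, r2, r3] at h12
    linear_combination -h12
  rcases mul_eq_zero.mp hl2 with h | h
  · have : l = 1 := by linear_combination h
    subst this
    left
    exact ⟨by rw [r1, one_mul], by rw [r2, one_mul], by rw [r3, one_mul]⟩
  · have : l = -1 := by linear_combination h
    subst this
    right
    refine ⟨by rw [r2]; ring, by rw [r3]; ring, ?_⟩
    rw [r1, r2, r3] at hs
    linear_combination (1 / 2 : ℂ) * hs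

theorem a4_pow (k : ℕ) : e6 k = Complex.exp (2 * Real.pi * Complex.I / (6 : ℕ)) ^ k := by
  rw [e6, ← Complex.exp_nat_mul]
  congr 1
  push_cast
  ring

theorem a4_root : ∃ w : ℂ, w ^ 2 - w + 1 = 0 ∧ ∀ k, e6 k = w ^ k := by
  have h := Complex.isPrimitiveRoot_exp 6 (by norm_num)
  refine ⟨_, ?_, a4_pow⟩
  generalize Complex.exp (2 * Real.pi * Complex.I / (6 : ℕ)) = w at h
  have h2 := sub_ne_zero.2 (h.pow_ne_one_of_pos_of_lt (l := 2) (by norm_num) (by norm_num))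
  have h3 := sub_ne_zero.2 (h.pow_ne_one_of_pos_of_lt (l := 3) (by norm_num) (by norm_num))
  have h6 := h.pow_eq_one
  refine mul_left_cancel₀ (mul_ne_zero h2 h3) ?_
  linear_combination (w - 1) * h6

/-- Conjugation gives `e2 = 0`, so `x = p2 / p1` has `x ^ 2 + x + 1 = 0`; `w = e6 1` has
`w ^ 3 = -1`, `w ^ 2 - w + 1 = 0`, `e6 k = w ^ k`, and `x ^ 2 + x + 1 = (x - w ^ 2) (x + w)`. -/
theorem omega3 (a1 : ‖p1‖ = 1) (a2 : ‖p2‖ = 1) (a3 : ‖p3‖ = 1) (hs : p1 + p2 + p3 = 0) :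
    (p2 = p1 * e6 2 ∧ -p2 = p1 * e6 5 ∧ -p3 = p1 * e6 1) ∨
      (p3 = p1 * e6 2 ∧ -p3 = p1 * e6 5 ∧ -p2 = p1 * e6 1) := by
  obtain ⟨w, hw, he⟩ := a4_root
  have c : ∀ p : ℂ, ‖p‖ = 1 → p * (starRingEnd ℂ) p = 1 := fun p h => by
    rw [Complex.mul_conj', h]
    simp
  have c1 := c p1 a1
  have c2 := c p2 a2
  have c3 := c p3 a3
  have c0 := congrArg (starRingEnd ℂ) hs
  rw [map_add, map_add, map_zero] at c0
  have h1 : (p2 - p1 * w ^ 2) * (p2 + p1 * w) = 0 := by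
    linear_combination (p1 + p2) * hs - p1 * p2 * p3 * c0 + p2 * p3 * c1 + p1 * p3 * c2 +
      p1 * p2 * c3 - (p1 * p2 + p1 ^ 2 * (w + 1)) * hw
  have h3 : w ^ 3 = -1 := by linear_combination (w + 1) * hw
  rw [he, he, he]
  rcases mul_eq_zero.1 h1 with h | h
  · exact Or.inl ⟨by linear_combination h, by linear_combination -h - p1 * w ^ 2 * h3,
      by linear_combination h - hs + p1 * hw⟩
  · exact Or.inr ⟨by linear_combination hs - h - p1 * hw,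
      by linear_combination h - hs + p1 * hw - p1 * w ^ 2 * h3, by linear_combination -h⟩

end Pool.Agent.UAP.Mz
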