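import Pool.Agent.Lib.MP_7e5527_ag.Mz.S1

/-! Two fixed points force a third. -/

open PowerSeries

noncomputable section

namespace Pool.Agent.UAP.Mz

variable {K : Type} [Field K] [NumberField K]

/-- `master` with `k = α + m`, `μ = 1`, `e = α + 2 m + 1`, `ff_sub`, `ts` at `α + 2 m`. -/
theorem s3 {u1 u2 u3 u4 v3 v4 : Mon K} (hu : Dis u1 u2 u3 u4) (hv : Dis u1 u2 v3 v4)
    (h : Id4 u1 u2 u3 u4 u1 u2 v3 v4) : u3 = v3 ∨ u4 = v4 := by
  obtain ⟨α, hα⟩ : ∃ α, α = min u1.r u2.r := ⟨_, rfl⟩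
  obtain ⟨m, hm⟩ : ∃ m, m = min (min u3.r u4.r) (min v3.r v4.r) := ⟨_, rfl⟩
  have p1 := u1.pos
  have p2 := u2.pos
  have p3 := u3.pos
  have p4 := u4.pos
  have q3 := v3.pos
  have q4 := v4.pos
  obtain ⟨ρ, h1, h2⟩ := master hu hv h (k := α + m) (m := m) (μ := 1) (e := α + (m + m) + 1)
    (by omega) (by omega) (by omega) (by omega) (by omega) (by omega) (by omega) (by omega)
  obtain ⟨U, h3, h4⟩ := ff_sub hu.1
  have d0 : X ^ α ∣ u1.s - u2.s := (u1.dvd (by omega)).sub (u2.dvd (by omega))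
  have d3 : X ^ m ∣ u3.s := u3.dvd (by omega)
  have d4 : X ^ m ∣ u4.s := u4.dvd (by omega)
  have e3 : X ^ m ∣ v3.s := v3.dvd (by omega)
  have e4 : X ^ m ∣ v4.s := v4.dvd (by omega)
  have sq : ∀ {F : K⟦X⟧}, X ^ m ∣ F → X ^ (m + m) ∣ F * F := fun hF =>
    pow_add (X : K⟦X⟧) m m ▸ mul_dvd_mul hF hF
  have w1 : X ^ m ∣ u3.s - u4.s - (v3.s - v4.s) := (d3.sub d4).sub (e3.sub e4)
  have w2 : X ^ (m + m) ∣ u3.s * u3.s - u4.s * u4.s - (v3.s * v3.s - v4.s * v4.s) :=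
    ((sq d3).sub (sq d4)).sub ((sq e3).sub (sq e4))
  have b1 := (u3.bd.sub u4.bd).sub (v3.bd.sub v4.bd)
  have b2 := ((u3.bd.mon_mul u3).sub (u4.bd.mon_mul u4)).sub
    ((v3.bd.mon_mul v3).sub (v4.bd.mon_mul v4))
  have b3 := (b1.mon_mul u1).sub (b1.mon_mul u2)
  have b4 := (b2.mon_mul u1).sub (b2.mon_mul u2)
  rw [← sub_mul] at b3 b4
  obtain ⟨h5, h6⟩ := ts (e := α + (m + m)) h3 (by convert b3 using 1; norm_num) b4
    (pow_add (X : K⟦X⟧) α (m + m) ▸ mul_dvd_mul d0 w2) h1 (by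
      rw [h4] at h2
      convert h2 using 1
      ring)
  have h7 := X_pow_dvd_iff.1 h5 (α + m) (by omega)
  have h8 : coeff α (u1.s - u2.s) ≠ 0 := hα ▸ Mon.lead_ne hu.1
  rw [coeff_mul_dvd d0 w1, mul_eq_zero, or_iff_right h8] at h7
  rw [coeff_mul_dvd d0 w2, mul_eq_zero, or_iff_right h8] at h6
  simp only [map_sub, coeff_mul_dvd d3 d3, coeff_mul_dvd d4 d4, coeff_mul_dvd e3 e3,
    coeff_mul_dvd e4 e4] at h6 h7
  by_cases hAB : coeff m u3.s = coeff m u4.s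
  · have hCD : coeff m v3.s = coeff m v4.s := by linear_combination hAB - h7
    have a0 : coeff m u3.s = 0 := by_contra fun c => hu.2.2.2.2.2 (Mon.eq_of_coeff hAB c)
    have c0 : coeff m v3.s = 0 := by_contra fun c => hv.2.2.2.2.2 (Mon.eq_of_coeff hCD c)
    have key : ∀ u : Mon K, coeff m u.s = 0 → m ≠ u.r := fun u c e =>
      u.c_ne (by rwa [u.coeff_s, if_pos e] at c)
    have k1 := key _ a0
    have k2 := key _ (hAB ▸ a0)
    have k3 := key _ c0
    have k4 := key _ (hCD ▸ c0)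
    omega
  · have hs : coeff m u3.s + coeff m u4.s = coeff m v3.s + coeff m v4.s :=
      mul_left_cancel₀ (sub_ne_zero.2 hAB) (by
        linear_combination h6 - (coeff m v3.s + coeff m v4.s) * h7)
    have hAC : coeff m u3.s = coeff m v3.s := by linear_combination (hs + h7) / 2
    have hBD : coeff m u4.s = coeff m v4.s := by linear_combination (hs - h7) / 2
    by_cases c : coeff m u3.s = 0
    · exact Or.inr (Mon.eq_of_coeff hBD fun c' => hAB (c.trans c'.symm))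
    · exact Or.inl (Mon.eq_of_coeff hAC c)

end Pool.Agent.UAP.Mz
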