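import Pool.Agent.Lib.MP_7e5527_ag.Mz.Form2
import Pool.Agent.Lib.MP_7e5527_ag.Mz.S3

/-! Four points: definitions and symmetries. -/

open PowerSeries

noncomputable section

namespace Pool.Agent.UAP.Mz

/-- The second quadruple is the first up to the Klein four-group. -/
def V4 {α : Type} (u1 u2 u3 u4 v1 v2 v3 v4 : α) : Prop :=
  (v1 = u1 ∧ v2 = u2 ∧ v3 = u3 ∧ v4 = u4) ∨ (v1 = u2 ∧ v2 = u1 ∧ v3 = u4 ∧ v4 = u3) ∨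
    (v1 = u3 ∧ v2 = u4 ∧ v3 = u1 ∧ v4 = u2) ∨ (v1 = u4 ∧ v2 = u3 ∧ v3 = u2 ∧ v4 = u1)

/-- Four different objects. -/
def Dis4 {α : Type} (a b c d : α) : Prop := a ≠ b ∧ a ≠ c ∧ a ≠ d ∧ b ≠ c ∧ b ≠ d ∧ c ≠ d

/-- Equality of two cross ratios of complex numbers. -/
def CR (x1 x2 x3 x4 y1 y2 y3 y4 : ℂ) : Prop :=
  (x1 - x3) * (x2 - x4) * ((y1 - y4) * (y2 - y3)) = (x1 - x4) * (x2 - x3) * ((y1 - y3) * (y2 - y4))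

/-- The function `j (g z)`. -/
def Fn (g : ℕ × ℕ × ℕ) (z : UpperHalfPlane) : ℂ := jf (aff g z)

/-- Positive diagonal. -/
def Pos (g : ℕ × ℕ × ℕ) : Prop := 0 < g.1 ∧ 0 < g.2.2

/-- A sixth root of unity. -/
def e6 (k : ℕ) : ℂ := Complex.exp (2 * Real.pi * Complex.I * (k / 6))

variable {K : Type} [Field K]

/-- The monomial comes from a triangular matrix. -/
def Ok (φ : K →+* ℂ) (N : ℕ) (u : Mon K) : Prop := ∃ g, Pos g ∧ Rep φ N u g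

/-- The formal hypotheses. -/
structure H0 (u1 u2 u3 u4 v1 v2 v3 v4 : Mon K) : Prop where
  du : Dis u1 u2 u3 u4
  dv : Dis v1 v2 v3 v4
  id : Id4 u1 u2 u3 u4 v1 v2 v3 v4

/-- The formal hypotheses for monomials that come from matrices. -/
structure Hy (φ : K →+* ℂ) (N : ℕ) (u1 u2 u3 u4 v1 v2 v3 v4 : Mon K) : Prop where
  pos : 0 < N
  h0 : H0 u1 u2 u3 u4 v1 v2 v3 v4
  a1 : Ok φ N u1
  a2 : Ok φ N u2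
  a3 : Ok φ N u3
  a4 : Ok φ N u4
  b1 : Ok φ N v1
  b2 : Ok φ N v2
  b3 : Ok φ N v3
  b4 : Ok φ N v4

section
variable {α : Type} {u1 u2 u3 u4 v1 v2 v3 v4 : α}

theorem V4.s12 (h : V4 u2 u1 u3 u4 v2 v1 v3 v4) : V4 u1 u2 u3 u4 v1 v2 v3 v4 := by
  unfold V4 at *
  tauto

theorem V4.s23 (h : V4 u1 u3 u2 u4 v1 v3 v2 v4) : V4 u1 u2 u3 u4 v1 v2 v3 v4 := by
  unfold V4 at *
  tauto

theorem V4.s34 (h : V4 u1 u2 u4 u3 v1 v2 v4 v3) : V4 u1 u2 u3 u4 v1 v2 v3 v4 := by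
  unfold V4 at *
  tauto

theorem V4.k1 (h : V4 u1 u2 u3 u4 v2 v1 v4 v3) : V4 u1 u2 u3 u4 v1 v2 v3 v4 := by
  unfold V4 at *
  tauto

theorem V4.k2 (h : V4 u1 u2 u3 u4 v3 v4 v1 v2) : V4 u1 u2 u3 u4 v1 v2 v3 v4 := by
  unfold V4 at *
  tauto

theorem V4.k3 (h : V4 u1 u2 u3 u4 v4 v3 v2 v1) : V4 u1 u2 u3 u4 v1 v2 v3 v4 := h.k1.k2

theorem V4.symm (h : V4 v1 v2 v3 v4 u1 u2 u3 u4) : V4 u1 u2 u3 u4 v1 v2 v3 v4 := by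
  unfold V4 at *
  rcases h with ⟨rfl, rfl, rfl, rfl⟩ | ⟨rfl, rfl, rfl, rfl⟩ | ⟨rfl, rfl, rfl, rfl⟩ |
    ⟨rfl, rfl, rfl, rfl⟩ <;> simp

end

variable {φ : K →+* ℂ} {N : ℕ} {u1 u2 u3 u4 v1 v2 v3 v4 : Mon K}

theorem Dis.s12 (h : Dis u1 u2 u3 u4) : Dis u2 u1 u3 u4 :=
  ⟨h.1.symm, h.2.2.2.1, h.2.2.2.2.1, h.2.1, h.2.2.1, h.2.2.2.2.2⟩

theorem Dis.s23 (h : Dis u1 u2 u3 u4) : Dis u1 u3 u2 u4 :=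
  ⟨h.2.1, h.1, h.2.2.1, h.2.2.2.1.symm, h.2.2.2.2.2, h.2.2.2.2.1⟩

theorem Dis.s34 (h : Dis u1 u2 u3 u4) : Dis u1 u2 u4 u3 :=
  ⟨h.1, h.2.2.1, h.2.1, h.2.2.2.2.1, h.2.2.2.1, h.2.2.2.2.2.symm⟩

theorem H0.s12 (h : H0 u1 u2 u3 u4 v1 v2 v3 v4) : H0 u2 u1 u3 u4 v2 v1 v3 v4 :=
  ⟨h.du.s12, h.dv.s12, by
    have := h.id
    simp only [Id4, W] at this ⊢
    linear_combination -this⟩

theorem H0.s23 (h : H0 u1 u2 u3 u4 v1 v2 v3 v4) : H0 u1 u3 u2 u4 v1 v3 v2 v4 :=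
  ⟨h.du.s23, h.dv.s23, by
    have := h.id
    simp only [Id4, W] at this ⊢
    linear_combination -this⟩

theorem H0.s34 (h : H0 u1 u2 u3 u4 v1 v2 v3 v4) : H0 u1 u2 u4 u3 v1 v2 v4 v3 :=
  ⟨h.du.s34, h.dv.s34, by
    have := h.id
    simp only [Id4, W] at this ⊢
    linear_combination -this⟩

theorem H0.k1 (h : H0 u1 u2 u3 u4 v1 v2 v3 v4) : H0 u1 u2 u3 u4 v2 v1 v4 v3 :=
  ⟨h.du, h.dv.s12.s34, by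
    have := h.id
    simp only [Id4, W] at this ⊢
    linear_combination this⟩

theorem H0.k2 (h : H0 u1 u2 u3 u4 v1 v2 v3 v4) : H0 u1 u2 u3 u4 v3 v4 v1 v2 :=
  ⟨h.du, h.dv.s23.s12.s34.s23, by
    have := h.id
    simp only [Id4, W] at this ⊢
    linear_combination this⟩

theorem H0.k3 (h : H0 u1 u2 u3 u4 v1 v2 v3 v4) : H0 u1 u2 u3 u4 v4 v3 v2 v1 := h.k2.k1

theorem H0.symm (h : H0 u1 u2 u3 u4 v1 v2 v3 v4) : H0 v1 v2 v3 v4 u1 u2 u3 u4 :=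
  ⟨h.dv, h.du, by
    have := h.id
    simp only [Id4] at this ⊢
    linear_combination -this⟩

theorem Hy.s12 (h : Hy φ N u1 u2 u3 u4 v1 v2 v3 v4) : Hy φ N u2 u1 u3 u4 v2 v1 v3 v4 :=
  ⟨h.pos, h.h0.s12, h.a2, h.a1, h.a3, h.a4, h.b2, h.b1, h.b3, h.b4⟩

theorem Hy.s23 (h : Hy φ N u1 u2 u3 u4 v1 v2 v3 v4) : Hy φ N u1 u3 u2 u4 v1 v3 v2 v4 :=
  ⟨h.pos, h.h0.s23, h.a1, h.a3, h.a2, h.a4, h.b1, h.b3, h.b2, h.b4⟩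

theorem Hy.s34 (h : Hy φ N u1 u2 u3 u4 v1 v2 v3 v4) : Hy φ N u1 u2 u4 u3 v1 v2 v4 v3 :=
  ⟨h.pos, h.h0.s34, h.a1, h.a2, h.a4, h.a3, h.b1, h.b2, h.b4, h.b3⟩

theorem Hy.k1 (h : Hy φ N u1 u2 u3 u4 v1 v2 v3 v4) : Hy φ N u1 u2 u3 u4 v2 v1 v4 v3 :=
  ⟨h.pos, h.h0.k1, h.a1, h.a2, h.a3, h.a4, h.b2, h.b1, h.b4, h.b3⟩

theorem Hy.k2 (h : Hy φ N u1 u2 u3 u4 v1 v2 v3 v4) : Hy φ N u1 u2 u3 u4 v3 v4 v1 v2 :=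
  ⟨h.pos, h.h0.k2, h.a1, h.a2, h.a3, h.a4, h.b3, h.b4, h.b1, h.b2⟩

theorem Hy.k3 (h : Hy φ N u1 u2 u3 u4 v1 v2 v3 v4) : Hy φ N u1 u2 u3 u4 v4 v3 v2 v1 := h.k2.k1

theorem Hy.symm (h : Hy φ N u1 u2 u3 u4 v1 v2 v3 v4) : Hy φ N v1 v2 v3 v4 u1 u2 u3 u4 :=
  ⟨h.pos, h.h0.symm, h.b1, h.b2, h.b3, h.b4, h.a1, h.a2, h.a3, h.a4⟩

end Pool.Agent.UAP.Mz
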