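import Pool.Agent.Lib.MP_7e5527_ag.Mz.RgBase

/-! Four points: orders and fixed pairs. -/

open PowerSeries

noncomputable section

namespace Pool.Agent.UAP.Mz

variable {K : Type} [Field K] [NumberField K] {w u1 u2 u3 u4 v1 v2 v3 v4 : Mon K}

/-- The first product cannot have the smaller order. -/
theorem f1_le (h : H0 u1 u2 u3 u4 v1 v2 v3 v4) :
    min v1.r v2.r + min v3.r v4.r ≤ min u1.r u2.r + min u3.r u4.r := by
  by_contra hlt
  have p : ∀ u : Mon K, 1 ≤ u.r := fun u => Nat.one_le_iff_ne_zero.2 u.pos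
  have h1 := (s0 h.du h.dv h.id (a := 1) (e0 := min u1.r u2.r + min u3.r u4.r) le_rfl
    (le_min (le_min (p _) (p _)) (le_min (p _) (p _)))
    (le_min (le_min (p _) (p _)) (le_min (p _) (p _))) (min_eq_left (not_le.1 hlt).le).symm).1
  have h2 : (X : K⟦X⟧) ^ (min u1.r u2.r + min u3.r u4.r + 1) ∣ (v1.s - v2.s) * (v3.s - v4.s) := by
    refine (pow_dvd_pow _ (Nat.succ_le_of_lt (not_le.1 hlt))).trans ?_
    rw [pow_add]
    exact mul_dvd_mul (t9_sub _ _) (t9_sub _ _)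
  have h3 := X_pow_dvd_iff.1 (dvd_add h1 h2) _ (Nat.lt_succ_self _)
  rw [sub_add_cancel, coeff_mul_dvd (t9_sub _ _) (t9_sub _ _)] at h3
  exact mul_ne_zero (Mon.lead_ne h.du.1) (Mon.lead_ne h.du.2.2.2.2.2) h3

/-- First part of `s0` with `a = 1`: the coefficients at `e0` of the two products agree; the one
of smaller order has a nonzero coefficient (`coeff_mul_dvd`, `Mon.lead_ne`). -/
theorem ord4 (h : H0 u1 u2 u3 u4 v1 v2 v3 v4) :
    min u1.r u2.r + min u3.r u4.r = min v1.r v2.r + min v3.r v4.r := by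
  exact le_antisymm (f1_le h.symm) (f1_le h)

/-- `W u2 u4 * W u1 v4 - W u1 u4 * W u2 v4 = ± W u1 u2 * W u4 v4`, `eq_of_W`. -/
theorem fix3 (h : H0 u1 u2 u3 u4 u1 u2 u3 v4) : v4 = u4 := by
  have h1 : W u1 u3 * W u2 u3 * W u1 u2 * W u4 v4 = 0 := by
    have := h.id
    simp only [Id4, W] at this ⊢
    linear_combination -this
  have h2 : W u1 u3 * W u2 u3 * W u1 u2 ≠ 0 :=
    mul_ne_zero (mul_ne_zero (fun e => h.du.2.1 (eq_of_W e)) fun e => h.du.2.2.2.1 (eq_of_W e))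
      fun e => h.du.1 (eq_of_W e)
  exact (eq_of_W ((mul_eq_zero.1 h1).resolve_left h2)).symm

/-- `s3`, `fix3`, `H0.s34`. -/
theorem fix2 (h : H0 u1 u2 u3 u4 u1 u2 v3 v4) : v3 = u3 ∧ v4 = u4 := by
  rcases s3 h.du h.dv h.id with rfl | rfl
  · exact ⟨rfl, fix3 h⟩
  · exact ⟨fix3 h.s34, rfl⟩

/-- `master`, then `ts` by induction on the order of `u3 - u4 - v3 + v4`. -/
theorem s4 (h : H0 w u2 u3 u4 w v2 v3 v4) {b : ℕ} (hb : w.r < b) (a2 : b ≤ u2.r) (a3 : b ≤ u3.r)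
    (a4 : b ≤ u4.r) (b2 : b ≤ v2.r) (b3 : b ≤ v3.r) (b4 : b ≤ v4.r) :
    coeff b u3.s - coeff b u4.s = coeff b v3.s - coeff b v4.s ∧
      (coeff b u3.s - coeff b u4.s) * (coeff b u2.s + coeff b u3.s + coeff b u4.s -
        (coeff b v2.s + coeff b v3.s + coeff b v4.s)) = 0 := by
  obtain ⟨a, ha⟩ : ∃ a, a = w.r := ⟨_, rfl⟩
  have p1 := w.pos
  obtain ⟨ρ, h1, h2⟩ := master h.du h.dv h.id (k := a + b) (m := b) (μ := a) (e := a + a + b + b)
    (by omega) (by omega) (by omega) (by omega) (by omega) (by omega) (by omega) (by omega)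
  have mul : ∀ {F G : K⟦X⟧} {i j : ℕ}, X ^ i ∣ F → X ^ j ∣ G → X ^ (i + j) ∣ F * G :=
    fun hF hG => (pow_add (X : K⟦X⟧) _ _).symm ▸ mul_dvd_mul hF hG
  have low : ∀ {F : K⟦X⟧} {i j : ℕ}, X ^ i ∣ F → j ≤ i → X ^ j ∣ F :=
    fun hF hj => (pow_dvd_pow _ hj).trans hF
  have dw : X ^ a ∣ w.s := w.dvd ha.le
  have d2 : X ^ b ∣ u2.s := u2.dvd a2
  have d3 : X ^ b ∣ u3.s := u3.dvd a3
  have d4 : X ^ b ∣ u4.s := u4.dvd a4
  have e2 : X ^ b ∣ v2.s := v2.dvd b2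
  have e3 : X ^ b ∣ v3.s := v3.dvd b3
  have e4 : X ^ b ∣ v4.s := v4.dvd b4
  obtain ⟨D1, hD1⟩ : ∃ D1, D1 = u3.s - u4.s - (v3.s - v4.s) := ⟨_, rfl⟩
  obtain ⟨D2, hD2⟩ : ∃ D2, D2 = u3.s * u3.s - u4.s * u4.s - (v3.s * v3.s - v4.s * v4.s) :=
    ⟨_, rfl⟩
  obtain ⟨E, hE⟩ : ∃ E, E = u2.s * (u3.s - u4.s) - v2.s * (v3.s - v4.s) := ⟨_, rfl⟩
  have w1 : X ^ b ∣ D1 := hD1 ▸ (d3.sub d4).sub (e3.sub e4)
  have w2 : X ^ (b + b) ∣ D2 :=
    hD2 ▸ ((mul d3 d3).sub (mul d4 d4)).sub ((mul e3 e3).sub (mul e4 e4))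
  have w3 : X ^ (b + b) ∣ E := hE ▸ (mul d2 (d3.sub d4)).sub (mul e2 (e3.sub e4))
  have c1 : Bd D1 (1 + 1 + (1 + 1)) := hD1 ▸ (u3.bd.sub u4.bd).sub (v3.bd.sub v4.bd)
  have c2 : Bd D2 (1 + 1 + (1 + 1)) := hD2 ▸ ((u3.bd.mon_mul u3).sub (u4.bd.mon_mul u4)).sub
    ((v3.bd.mon_mul v3).sub (v4.bd.mon_mul v4))
  have c3 : Bd E (1 + 1 + (1 + 1)) :=
    hE ▸ ((u3.bd.sub u4.bd).mon_mul u2).sub ((v3.bd.sub v4.bd).mon_mul v2)
  have key : ∀ n, n + a ≤ b + b → X ^ n ∣ D1 →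
      X ^ (a + (a + n)) ∣ w.s * D1 - E ∧ coeff (a + (a + n)) (w.s * (w.s * D1) + w.s * D2) = 0 := by
    intro n hn hd
    refine ts (U := 1) (ρ := -(w.s * (w.s * (w.s * D1)) * w.ap T4) +
      (u2.s * (u2.s * (u3.s - u4.s)) * (21493760 + u2.s * u2.ap T4) -
        v2.s * (v2.s * (v3.s - v4.s)) * (21493760 + v2.s * v2.ap T4)) +
      (u2.s * (u3.s * u3.s - u4.s * u4.s) - v2.s * (v3.s * v3.s - v4.s * v4.s)) * 21493760 + ρ)
      (map_one _) (by convert (c1.mon_mul w).sub c3 using 1; norm_num)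
      (((c1.mon_mul w).mon_mul w).add (c2.mon_mul w))
      ((mul dw (mul dw hd)).add (low (mul dw w2) (by omega))) ?_ ?_
    · refine (((low (mul dw (mul dw (mul dw hd))) (by omega)).mul_right _).neg_right.add
        (((low (mul d2 (mul d2 (d3.sub d4))) (by omega)).mul_right _).sub
          ((low (mul e2 (mul e2 (e3.sub e4))) (by omega)).mul_right _))).add ?_ |>.add
        (low h1 (by omega))
      exact ((low (mul d2 ((mul d3 d3).sub (mul d4 d4))) (by omega)).sub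
        (low (mul e2 ((mul e3 e3).sub (mul e4 e4))) (by omega))).mul_right _
    · convert h2 using 1
      rw [hD1, hD2, hE]
      simp only [ff]
      ring
  have cw : coeff a w.s = w.c := by rw [w.coeff_s, if_pos ha]
  have step : ∀ n, n + a ≤ b + b → X ^ n ∣ D1 := by
    intro n
    induction n with
    | zero => exact fun _ => by simp
    | succ n ih =>
      intro hn
      have hd := ih (by omega)
      have k1 := X_pow_dvd_iff.1 (key n (by omega) hd).1 (a + n) (by omega)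
      rw [map_sub, coeff_mul_dvd dw hd, X_pow_dvd_iff.1 w3 (a + n) (by omega), sub_zero, cw,
        mul_eq_zero, or_iff_right w.c_ne] at k1
      refine X_pow_dvd_iff.2 fun m hm => ?_
      rcases Nat.lt_succ_iff_lt_or_eq.1 hm with c | c
      · exact X_pow_dvd_iff.1 hd m c
      · exact c ▸ k1
  obtain ⟨n, hn⟩ : ∃ n, n + a = b + b := ⟨b + b - a, by omega⟩
  have hd := step n hn.le
  obtain ⟨k1, k2⟩ := key n hn.le hd
  have k3 := X_pow_dvd_iff.1 k1 (a + n) (by omega)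
  have k4 := X_pow_dvd_iff.1 hd b (by omega)
  have hn' : a + n = b + b := by omega
  rw [map_sub, coeff_mul_dvd dw hd, hn'] at k3
  rw [map_add, coeff_mul_dvd dw (mul dw hd), coeff_mul_dvd dw hd, hn', coeff_mul_dvd dw w2,
    ← mul_add, cw, mul_eq_zero, or_iff_right w.c_ne] at k2
  rw [cw, hE] at k3
  rw [hD2] at k2
  rw [hD1] at k4
  simp only [map_sub, coeff_mul_dvd d3 d3, coeff_mul_dvd d4 d4, coeff_mul_dvd e3 e3,
    coeff_mul_dvd e4 e4, coeff_mul_dvd d2 (d3.sub d4), coeff_mul_dvd e2 (e3.sub e4)] at k2 k3 k4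
  refine ⟨sub_eq_zero.1 k4, ?_⟩
  linear_combination k2 - k3 - (coeff b v2.s + coeff b v3.s + coeff b v4.s) * k4

/-- `s4` with `b = u2.r` for the three pairings (`h`, `h.s23`, `h.s34.s23`). If the sums differ
the three coefficients of `u2, u3, u4` agree and are nonzero, against `Mon.eq_of_coeff`. So the
sums agree, the coefficients of `u2` and `v2` agree, `v2 = u2`; then `fix2`. -/
theorem fix1 (h : H0 w u2 u3 u4 w v2 v3 v4) (hb : w.r < u2.r) (a3 : u2.r ≤ u3.r)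
    (a4 : u2.r ≤ u4.r) (b2 : u2.r ≤ v2.r) (b3 : u2.r ≤ v3.r) (b4 : u2.r ≤ v4.r) :
    v2 = u2 ∧ v3 = u3 ∧ v4 = u4 := by
  obtain ⟨e1, f1⟩ := s4 h hb le_rfl a3 a4 b2 b3 b4
  obtain ⟨e2, f2⟩ := s4 h.s23 hb a3 le_rfl a4 b3 b2 b4
  have h0 : coeff u2.r u2.s ≠ 0 := by
    rw [u2.coeff_s, if_pos rfl]
    exact u2.c_ne
  have h1 : coeff u2.r u2.s - coeff u2.r u3.s ≠ 0 := fun e =>
    h.du.2.2.2.1 (Mon.eq_of_coeff (sub_eq_zero.1 e) h0)
  have h2 : coeff u2.r u2.s + coeff u2.r u3.s + coeff u2.r u4.s -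
      (coeff u2.r v2.s + coeff u2.r v3.s + coeff u2.r v4.s) = 0 :=
    (mul_eq_zero.1 (by linear_combination f2 - f1)).resolve_left h1
  have h3 : u2 = v2 :=
    Mon.eq_of_coeff (by linear_combination (1 / 3 : K) * (h2 + 2 * e2 - e1)) h0
  subst h3
  exact ⟨rfl, fix2 h⟩

end Pool.Agent.UAP.Mz
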