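import Pool.Agent.Lib.MP_7e5527_ag.Mz.RgAlg
import Pool.Agent.Lib.MP_7e5527_ag.Mz.RgFix
import Pool.Agent.Lib.MP_7e5527_ag.Mz.Hol

/-! Four points: the exceptional configuration is excluded at another cusp. -/

open UpperHalfPlane

noncomputable section

namespace Pool.Agent.UAP.Mz

variable {K : Type} [Field K] {φ : K →+* ℂ} {N : ℕ}

/-- The two points have the same `qParam 1` (`coe_aff`, `Complex.exp_add`); end as `rep_eq`. -/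
theorem phase {u u' : Mon K} {g g' : ℕ × ℕ × ℕ} (h : Rep φ N u g) (h' : Rep φ N u' g')
    (hr : u'.r = u.r) {k : ℕ} (hc : φ u'.c = φ u.c * e6 k) (z : ℍ) :
    Fn g' z = Fn (6, k, 6) (aff g z) := by
  have h6 : Function.Periodic.qParam 1 (aff (6, k, 6) (aff g z)) =
      Function.Periodic.qParam 1 (aff g z) * e6 k := by
    rw [coe_aff (by norm_num) (by norm_num), Function.Periodic.qParam, Function.Periodic.qParam,
      e6, ← Complex.exp_add]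
    congr 1
    push_cast
    ring
  have hq : Function.Periodic.qParam 1 (aff g' z) =
      Function.Periodic.qParam 1 (aff (6, k, 6) (aff g z)) := by
    rw [h6, h'.2 z, h.2 z, hr, hc]
    ring
  have h4 := hasEv_E4 (aff g' z)
  have hD := hasEv_Delta (aff g' z)
  rw [hq] at h4 hD
  rw [Fn, Fn, jf, jf, h4.unique (hasEv_E4 _), hD.unique (hasEv_Delta _)]

theorem c2_key (a b c d : ℤ) (h : a * d - b * c = 1) {z w : ℍ}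
    (e : (z : ℂ) = (a * w + b) / (c * w + d)) : jf z = jf w := by
  let γ : Matrix.SpecialLinearGroup (Fin 2) ℤ :=
    ⟨!![a, b; c, d], by rw [Matrix.det_fin_two_of, h]⟩
  rw [← jf_smul γ w]
  refine congrArg jf (UpperHalfPlane.ext ?_)
  rw [e, coe_specialLinearGroup_apply]
  simp [γ]

theorem c2_S (τ : ℍ) : ((ModularGroup.S • τ : ℍ) : ℂ) = -(τ : ℂ)⁻¹ := by
  rw [modular_S_smul]
  simp [inv_neg]

/-- `jf_smul` with the matrices `S`, `[1, -1; 3, -2]`, `[5, -1; 6, -1]`, `[1, -1; 6, -5]`. -/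
theorem explicit (τ : ℍ) : jf (ModularGroup.S • τ) = Fn (1, 0, 1) τ ∧
    Fn (6, 2, 6) (ModularGroup.S • τ) = Fn (1, 6, 9) τ ∧
    Fn (6, 5, 6) (ModularGroup.S • τ) = Fn (1, 6, 36) τ ∧
    Fn (6, 1, 6) (ModularGroup.S • τ) = Fn (1, 30, 36) τ := by
  have h0 : (τ : ℂ) ≠ 0 := τ.ne_zero
  refine ⟨?_, c2_key 1 (-1) 3 (-2) (by norm_num) ?_, c2_key 5 (-1) 6 (-1) (by norm_num) ?_,
    c2_key 1 (-1) 6 (-5) (by norm_num) ?_⟩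
  · rw [jf_smul]
    refine congrArg jf (UpperHalfPlane.ext ?_)
    rw [coe_aff (by norm_num) (by norm_num)]
    simp
  all_goals
    rw [coe_aff (by norm_num) (by norm_num), coe_aff (by norm_num) (by norm_num), c2_S]
    push_cast
    rw [eq_div_iff]
    · field_simp
      ring
    · intro e
      exact h0 (by first | linear_combination 3 * e | linear_combination 6 * e)

theorem move_mul (A B : GL (Fin 2) ℚ) (τ : ℍ) : act (A * B) τ = act A (act B τ) := by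
  rw [act, act, act, map_mul, mul_smul]

theorem move_one (τ : ℍ) : act 1 τ = τ := by rw [act, map_one, one_smul]

theorem move_tri {g : ℕ × ℕ × ℕ} (h : Pos g) : ∃ A : GL (Fin 2) ℚ,
    0 < (A : Matrix (Fin 2) (Fin 2) ℚ).det ∧ ∀ τ, aff g τ = act A τ := by
  have h0 : (0 : ℚ) < (!![(g.1 : ℚ), g.2.1; 0, g.2.2] : Matrix (Fin 2) (Fin 2) ℚ).det := by
    simp [Matrix.det_fin_two, h.1, h.2]
  refine ⟨Matrix.GeneralLinearGroup.mkOfDetNeZero _ h0.ne', h0, fun τ => ?_⟩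
  have h1 : (0 : ℝ) < (Matrix.GeneralLinearGroup.map (algebraMap ℚ ℝ)
      (Matrix.GeneralLinearGroup.mkOfDetNeZero _ h0.ne')).det.val := by
    simp [Matrix.det_fin_two, h.1, h.2]
  refine UpperHalfPlane.ext ?_
  rw [act, coe_smul_of_det_pos h1, coe_aff h.1 h.2]
  simp [num, denom]

theorem move_S : ∃ A : GL (Fin 2) ℚ,
    0 < (A : Matrix (Fin 2) (Fin 2) ℚ).det ∧ ∀ τ : ℍ, ModularGroup.S • τ = act A τ := by
  have h0 : (0 : ℚ) < (!![0, -1; 1, 0] : Matrix (Fin 2) (Fin 2) ℚ).det := by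
    simp [Matrix.det_fin_two]
  refine ⟨Matrix.GeneralLinearGroup.mkOfDetNeZero _ h0.ne', h0, fun τ => ?_⟩
  have h1 : (0 : ℝ) < (Matrix.GeneralLinearGroup.map (algebraMap ℚ ℝ)
      (Matrix.GeneralLinearGroup.mkOfDetNeZero _ h0.ne')).det.val := by
    simp [Matrix.det_fin_two]
  refine UpperHalfPlane.ext ?_
  rw [act, coe_smul_of_det_pos h1, modular_S_smul]
  simp [num, denom, div_eq_mul_inv]

/-- `ζ = act M` with `M = [a, b; 0, d]⁻¹ [0, -1; 1, 0]` in `GL (Fin 2) ℚ`; `aff g = act` of the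
triangular matrix (see `mem_orbit`), `act` is an action, `exists_prim_of_act`, `mem_Prim`. -/
theorem move {g1 : ℕ × ℕ × ℕ} (h1 : Pos g1) : ∃ ζ : ℍ → ℍ, Function.Surjective ζ ∧
    (∀ τ, aff g1 (ζ τ) = ModularGroup.S • τ) ∧
    ∀ g, Pos g → ∃ g', Pos g' ∧ ∀ τ, Fn g (ζ τ) = Fn g' τ := by
  obtain ⟨A, hA, eA⟩ := move_tri h1
  obtain ⟨B, hB, eB⟩ := move_S
  refine ⟨act (A⁻¹ * B), fun z => ⟨act (A⁻¹ * B)⁻¹ z, ?_⟩, fun τ => ?_, fun g hg => ?_⟩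
  · rw [← move_mul, mul_inv_cancel, move_one]
  · rw [eA, eB, ← move_mul, mul_inv_cancel_left]
  · obtain ⟨D, hD, eD⟩ := move_tri hg
    have h2 : 0 < ((D * (A⁻¹ * B) : GL (Fin 2) ℚ) : Matrix (Fin 2) (Fin 2) ℚ).det := by
      rw [Units.val_mul, Units.val_mul, Matrix.det_mul, Matrix.det_mul, Matrix.coe_units_inv,
        Matrix.det_nonsing_inv, Ring.inverse_eq_inv']
      positivity
    obtain ⟨N, hN, g', hg', e⟩ := exists_prim_of_act _ h2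
    have h3 := ((mem_Prim hN).1 hg').1
    refine ⟨g', ⟨Nat.pos_of_ne_zero fun h => ?_, Nat.pos_of_ne_zero fun h => ?_⟩, fun τ => ?_⟩
    · rw [h, zero_mul] at h3
      omega
    · rw [h, mul_zero] at h3
      omega
    · rw [Fn, Fn, eD, ← move_mul, e]

/-- Converse of `id4_of`: `hasEv_W` for the eight factors, `f2_four`, `HasEv.unique`, cancel the
discriminants. -/
theorem of_id4 {u1 u2 u3 u4 v1 v2 v3 v4 : Mon K} {g1 g2 g3 g4 h1 h2 h3 h4 : ℕ × ℕ × ℕ}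
    (a1 : Rep φ N u1 g1) (a2 : Rep φ N u2 g2) (a3 : Rep φ N u3 g3) (a4 : Rep φ N u4 g4)
    (b1 : Rep φ N v1 h1) (b2 : Rep φ N v2 h2) (b3 : Rep φ N v3 h3) (b4 : Rep φ N v4 h4)
    (h : Id4 u1 u2 u3 u4 v1 v2 v3 v4) (z : ℍ) :
    CR (Fn g1 z) (Fn g2 z) (Fn g3 z) (Fn g4 z) (Fn h1 z) (Fn h2 z) (Fn h3 z) (Fn h4 z) := by
  have e1 := f2_four (hasEv_W a1 a3 z) (hasEv_W a2 a4 z) (hasEv_W b1 b4 z) (hasEv_W b2 b3 z)
  have e2 := f2_four (hasEv_W a1 a4 z) (hasEv_W a2 a3 z) (hasEv_W b1 b3 z) (hasEv_W b2 b4 z)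
  have e0 : u1.ap D0s * u3.ap D0s * W u1 u3 * (u2.ap D0s * u4.ap D0s * W u2 u4) *
      (v1.ap D0s * v4.ap D0s * W v1 v4 * (v2.ap D0s * v3.ap D0s * W v2 v3)) =
      u1.ap D0s * u4.ap D0s * W u1 u4 * (u2.ap D0s * u3.ap D0s * W u2 u3) *
      (v1.ap D0s * v3.ap D0s * W v1 v3 * (v2.ap D0s * v4.ap D0s * W v2 v4)) := by
    unfold Id4 at h
    linear_combination (u1.ap D0s * u2.ap D0s * u3.ap D0s * u4.ap D0s *
      (v1.ap D0s * v2.ap D0s * v3.ap D0s * v4.ap D0s)) * h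
  rw [e0] at e1
  have e3 := e1.unique e2
  have d := fun g : ℕ × ℕ × ℕ => ModularForm.discriminant_ne_zero (aff g z)
  have hne := mul_ne_zero (mul_ne_zero (mul_ne_zero (mul_ne_zero (d g1) (d g2)) (d g3)) (d g4))
    (mul_ne_zero (mul_ne_zero (mul_ne_zero (d h1) (d h2)) (d h3)) (d h4))
  unfold CR Fn
  refine mul_left_cancel₀ hne ?_
  linear_combination e3

/-- `W_zero`, `eq_of_W`. -/
theorem fn_ne [CharZero K] (hN : 0 < N) {a b : Mon K} {g h : ℕ × ℕ × ℕ} (ha : Rep φ N a g)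
    (hb : Rep φ N b h) (hab : a ≠ b) : Fn g ≠ Fn h := by
  exact fun e => hab (eq_of_W (W_zero hN ha hb fun z => congrFun e z))

/-- `exists_rep` for the eight triples, `rep_eq` for `Dis`, `id4_of`. -/
theorem to_hy {g1 g2 g3 g4 h1 h2 h3 h4 : ℕ × ℕ × ℕ} (a1 : Pos g1) (a2 : Pos g2) (a3 : Pos g3)
    (a4 : Pos g4) (b1 : Pos h1) (b2 : Pos h2) (b3 : Pos h3) (b4 : Pos h4)
    (hg : Dis4 (Fn g1) (Fn g2) (Fn g3) (Fn g4)) (hh : Dis4 (Fn h1) (Fn h2) (Fn h3) (Fn h4))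
    (h : ∀ z, CR (Fn g1 z) (Fn g2 z) (Fn g3 z) (Fn g4 z) (Fn h1 z) (Fn h2 z) (Fn h3 z) (Fn h4 z)) :
    ∃ (K : Type) (_ : Field K) (_ : NumberField K) (φ : K →+* ℂ) (N : ℕ)
      (u1 u2 u3 u4 v1 v2 v3 v4 : Mon K), Hy φ N u1 u2 u3 u4 v1 v2 v3 v4 ∧ Rep φ N u1 g1 ∧
      Rep φ N u2 g2 ∧ Rep φ N u3 g3 ∧ Rep φ N u4 g4 ∧ Rep φ N v1 h1 ∧ Rep φ N v2 h2 ∧
      Rep φ N v3 h3 ∧ Rep φ N v4 h4 := by
  have hp : ∀ i : Fin 8, Pos (![g1, g2, g3, g4, h1, h2, h3, h4] i) := fun i => by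
    fin_cases i
    exacts [a1, a2, a3, a4, b1, b2, b3, b4]
  obtain ⟨K, _, _, φ, N, U, hN, hU⟩ := exists_rep ![g1, g2, g3, g4, h1, h2, h3, h4]
    (fun i => (hp i).1) fun i => (hp i).2
  have hne : ∀ i j, Fn (![g1, g2, g3, g4, h1, h2, h3, h4] i) ≠
      Fn (![g1, g2, g3, g4, h1, h2, h3, h4] j) → U i ≠ U j :=
    fun i j h1 h2 => h1 (funext fun z => rep_eq (hU i) (h2 ▸ hU j) z)
  obtain ⟨c1, c2, c3, c4, c5, c6⟩ := hg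
  obtain ⟨d1, d2, d3, d4, d5, d6⟩ := hh
  exact ⟨K, _, inferInstance, φ, N, U 0, U 1, U 2, U 3, U 4, U 5, U 6, U 7,
    ⟨hN, ⟨⟨hne 0 1 c1, hne 0 2 c2, hne 0 3 c3, hne 1 2 c4, hne 1 3 c5, hne 2 3 c6⟩,
      ⟨hne 4 5 d1, hne 4 6 d2, hne 4 7 d3, hne 5 6 d4, hne 5 7 d5, hne 6 7 d6⟩,
      id4_of hN (hU 0) (hU 1) (hU 2) (hU 3) (hU 4) (hU 5) (hU 6) (hU 7) h⟩,
      ⟨_, a1, hU 0⟩, ⟨_, a2, hU 1⟩, ⟨_, a3, hU 2⟩, ⟨_, a4, hU 3⟩, ⟨_, b1, hU 4⟩, ⟨_, b2, hU 5⟩,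
      ⟨_, b3, hU 6⟩, ⟨_, b4, hU 7⟩⟩, hU 0, hU 1, hU 2, hU 3, hU 4, hU 5, hU 6, hU 7⟩

/-- `to_hy`, `ord4`: the orders are `N`, `N / 9` against `N / 36`, `N / 36`. -/
theorem cusp_contra {g3 g4 h1 h4 : ℕ × ℕ × ℕ} (a3 : Pos g3) (a4 : Pos g4) (b1 : Pos h1)
    (b4 : Pos h4) (hg : Dis4 (Fn (1, 0, 1)) (Fn (1, 6, 9)) (Fn g3) (Fn g4))
    (hh : Dis4 (Fn h1) (Fn (1, 6, 36)) (Fn (1, 30, 36)) (Fn h4))
    (h : ∀ z, CR (Fn (1, 0, 1) z) (Fn (1, 6, 9) z) (Fn g3 z) (Fn g4 z) (Fn h1 z)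
      (Fn (1, 6, 36) z) (Fn (1, 30, 36) z) (Fn h4 z)) : False := by
  obtain ⟨K, _, _, φ, N, u1, u2, u3, u4, v1, v2, v3, v4, hy, r1, r2, -, -, -, s2, s3, -⟩ :=
    to_hy (g1 := (1, 0, 1)) (g2 := (1, 6, 9)) (h2 := (1, 6, 36)) (h3 := (1, 30, 36))
      ⟨one_pos, one_pos⟩ ⟨one_pos, by norm_num⟩ a3 a4 b1 ⟨one_pos, by norm_num⟩
      ⟨one_pos, by norm_num⟩ b4 hg hh h
  have e0 := ord4 hy.h0
  have e1 : u1.r * 1 = 1 * N := r1.1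
  have e2 : u2.r * 9 = 1 * N := r2.1
  have e3 : v2.r * 36 = 1 * N := s2.1
  have e4 : v3.r * 36 = 1 * N := s3.1
  have e5 := hy.pos
  omega

/-- `move` for the triple of `u1`; `phase` and `explicit` give the new triples of
`u1, u2, v2, v3`; `fn_ne` and surjectivity give `Dis4`; `of_id4` at `ζ τ`; `cusp_contra`. -/
theorem nosp1 [NumberField K] {u1 u2 u3 u4 v1 v2 v3 v4 : Mon K}
    (h : Hy φ N u1 u2 u3 u4 v1 v2 v3 v4) (r2 : u2.r = u1.r) (t2 : v2.r = u1.r)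
    (t3 : v3.r = u1.r) (c2 : φ u2.c = φ u1.c * e6 2) (d2 : φ v2.c = φ u1.c * e6 5)
    (d3 : φ v3.c = φ u1.c * e6 1) : False := by
  obtain ⟨hN, ⟨⟨x1, x2, x3, x4, x5, x6⟩, ⟨y1, y2, y3, y4, y5, y6⟩, hid⟩, ⟨g1, p1, a1⟩,
    ⟨g2, -, a2⟩, ⟨g3, p3, a3⟩, ⟨g4, p4, a4⟩, ⟨h1, q1, b1⟩, ⟨h2, -, b2⟩, ⟨h3, -, b3⟩,
    ⟨h4, q4, b4⟩⟩ := h
  obtain ⟨ζ, hs, hζ, hm⟩ := move p1
  obtain ⟨g3', p3', e3⟩ := hm g3 p3
  obtain ⟨g4', p4', e4⟩ := hm g4 p4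
  obtain ⟨h1', q1', f1⟩ := hm h1 q1
  obtain ⟨h4', q4', f4⟩ := hm h4 q4
  have e1 : ∀ τ, Fn g1 (ζ τ) = Fn (1, 0, 1) τ := fun τ => by
    rw [Fn, hζ]
    exact (explicit τ).1
  have e2 : ∀ τ, Fn g2 (ζ τ) = Fn (1, 6, 9) τ := fun τ => by
    rw [phase a1 a2 r2 c2, hζ]
    exact (explicit τ).2.1
  have f2 : ∀ τ, Fn h2 (ζ τ) = Fn (1, 6, 36) τ := fun τ => by
    rw [phase a1 b2 t2 d2, hζ]
    exact (explicit τ).2.2.1
  have f3 : ∀ τ, Fn h3 (ζ τ) = Fn (1, 30, 36) τ := fun τ => by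
    rw [phase a1 b3 t3 d3, hζ]
    exact (explicit τ).2.2.2
  have ne : ∀ {a b : Mon K} {g h g' h' : ℕ × ℕ × ℕ}, Rep φ N a g → Rep φ N b h → a ≠ b →
      (∀ τ, Fn g (ζ τ) = Fn g' τ) → (∀ τ, Fn h (ζ τ) = Fn h' τ) → Fn g' ≠ Fn h' := by
    intro a b g h g' h' ha hb hab hg hh e
    refine fn_ne hN ha hb hab (funext fun z => ?_)
    obtain ⟨τ, rfl⟩ := hs z
    rw [hg, hh, e]
  refine cusp_contra p3' p4' q1' q4'
    ⟨ne a1 a2 x1 e1 e2, ne a1 a3 x2 e1 e3, ne a1 a4 x3 e1 e4, ne a2 a3 x4 e2 e3,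
      ne a2 a4 x5 e2 e4, ne a3 a4 x6 e3 e4⟩
    ⟨ne b1 b2 y1 f1 f2, ne b1 b3 y2 f1 f3, ne b1 b4 y3 f1 f4, ne b2 b3 y4 f2 f3,
      ne b2 b4 y5 f2 f4, ne b3 b4 y6 f3 f4⟩ fun τ => ?_
  rw [← e1, ← e2, ← e3, ← e4, ← f1, ← f2, ← f3, ← f4]
  exact of_id4 a1 a2 a3 a4 b1 b2 b3 b4 hid _

end Pool.Agent.UAP.Mz
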