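import Pool.Agent.Lib.MP_7e5527_ag.Mz.RgCusp

/-! Four points: the formal rigidity theorem. -/

open PowerSeries

noncomputable section

namespace Pool.Agent.UAP.Mz

variable {K : Type} [Field K] [NumberField K] {φ : K →+* ℂ} {N : ℕ}
  {u1 u2 u3 u4 v1 v2 v3 v4 : Mon K}

omit [NumberField K] in
theorem g1_co {u : Mon K} {a : ℕ} (h : u.r = a) : coeff a u.s = u.c := by
  rw [u.coeff_s, if_pos h.symm]

omit [NumberField K] in
theorem g1_c0 {u : Mon K} {a : ℕ} (h : a < u.r) : coeff a u.s = 0 := by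
  rw [u.coeff_s, if_neg h.ne]

omit [NumberField K] in
theorem g1_eq (φ : K →+* ℂ) {a b : Mon K} (hr : a.r = b.r) (hc : φ a.c = φ b.c) : a = b := by
  refine Mon.eq_of_coeff (n := b.r) ?_ ?_
  · rw [g1_co hr, g1_co rfl]
    exact φ.injective hc
  · rw [g1_co hr]
    exact a.c_ne

omit [NumberField K] in
theorem g1_ne (φ : K →+* ℂ) {a b : Mon K} (hr : a.r = b.r) (h : a ≠ b) : φ a.c ≠ φ b.c :=
  fun hc => h (g1_eq φ hr hc)

/-- `a = u1.r`; `s1` and `s2` (for `h.h0` and `h.h0.s23`, `i = j = a`), mapped by `φ`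
(`Mon.coeff_s`, `t3_norm`, `φ.injective`). Both fourth orders `a`: `c4`. One: `c34` (twice). None:
`c33`, then `fix3`, or `omega3` and `nosp1` (for `h` and `h.s23`). -/
theorem caseC (h : Hy φ N u1 u2 u3 u4 v1 v2 v3 v4) (r2 : u2.r = u1.r) (r3 : u3.r = u1.r)
    (r4 : u1.r ≤ u4.r) (t1 : v1.r = u1.r) (t2 : v2.r = u1.r) (t3 : v3.r = u1.r)
    (t4 : u1.r ≤ v4.r) : V4 u1 u2 u3 u4 v1 v2 v3 v4 := by
  have S := congrArg φ (s1 h.h0.du h.h0.dv h.h0.id (a := u1.r) (by omega) (by omega))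
  have P := congrArg φ (s2 h.h0.du h.h0.dv h.h0.id (i := u1.r) (j := u1.r)
    (by omega) (by omega) (by omega) (by omega))
  have Q := congrArg φ (s2 h.h0.s23.du h.h0.s23.dv h.h0.s23.id (i := u1.r) (j := u1.r)
    (by omega) (by omega) (by omega) (by omega))
  simp only [map_add, map_mul, map_sub, g1_co r2, g1_co r3, g1_co t1, g1_co t2, g1_co t3,
    g1_co (u := u1) rfl] at S P Q
  obtain ⟨d12, d13, d14, d23, d24, d34⟩ := h.h0.du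
  obtain ⟨e12, e13, e14, e23, e24, e34⟩ := h.h0.dv
  have n := fun u : Mon K => t3_norm u φ
  have D12 := g1_ne φ (by omega) d12
  have D13 := g1_ne φ (by omega) d13
  have D23 := g1_ne φ (by omega) d23
  have E12 := g1_ne φ (by omega) e12
  have E13 := g1_ne φ (by omega) e13
  have E23 := g1_ne φ (by omega) e23
  rcases r4.eq_or_lt with r4 | r4 <;> rcases t4.eq_or_lt with t4 | t4
  · rw [g1_co r4.symm, g1_co t4.symm] at S P Q
    have := c4 (n u1) (n u2) (n u3) (n u4) (n v1) (n v2) (n v3) (n v4)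
      ⟨D12, D13, g1_ne φ (by omega) d14, D23, g1_ne φ (by omega) d24, g1_ne φ (by omega) d34⟩
      ⟨E12, E13, g1_ne φ (by omega) e14, E23, g1_ne φ (by omega) e24, g1_ne φ (by omega) e34⟩
      S P Q
    rcases this with ⟨a, b, c, d⟩ | ⟨a, b, c, d⟩ | ⟨a, b, c, d⟩ | ⟨a, b, c, d⟩
    · exact Or.inl ⟨g1_eq φ (by omega) a, g1_eq φ (by omega) b, g1_eq φ (by omega) c,
        g1_eq φ (by omega) d⟩
    · exact Or.inr (Or.inl ⟨g1_eq φ (by omega) a, g1_eq φ (by omega) b, g1_eq φ (by omega) c,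
        g1_eq φ (by omega) d⟩)
    · exact Or.inr (Or.inr (Or.inl ⟨g1_eq φ (by omega) a, g1_eq φ (by omega) b,
        g1_eq φ (by omega) c, g1_eq φ (by omega) d⟩))
    · exact Or.inr (Or.inr (Or.inr ⟨g1_eq φ (by omega) a, g1_eq φ (by omega) b,
        g1_eq φ (by omega) c, g1_eq φ (by omega) d⟩))
  · rw [g1_co r4.symm, g1_c0 t4, map_zero, sub_zero] at P Q
    exact (c34 (n v1) (n v2) (n v3) (n u1) (n u2) (n u3) (n u4) E12 E13 E23 P.symm Q.symm).elim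
  · rw [g1_co t4.symm, g1_c0 r4, map_zero, sub_zero] at P Q
    exact (c34 (n u1) (n u2) (n u3) (n v1) (n v2) (n v3) (n v4) D12 D13 D23 P Q).elim
  · rw [g1_c0 t4, g1_c0 r4, map_zero, sub_zero, sub_zero] at P Q
    rw [g1_c0 t4, g1_c0 r4, map_zero, add_zero, add_zero] at S
    rcases c33 (n u1) (n u2) (n u3) (n v1) (n v2) (n v3) D12 D13 D23 S P Q with
      ⟨a, b, c⟩ | ⟨a, b, c⟩
    · obtain rfl := g1_eq φ (by omega) a
      obtain rfl := g1_eq φ (by omega) b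
      obtain rfl := g1_eq φ (by omega) c
      exact Or.inl ⟨rfl, rfl, rfl, fix3 h.h0⟩
    · rcases omega3 (n u1) (n u2) (n u3) c with ⟨x, y, z⟩ | ⟨x, y, z⟩
      · exact (nosp1 h r2 t2 t3 x (a.trans y) (b.trans z)).elim
      · exact (nosp1 h.s23 r3 t3 t2 x (b.trans y) (a.trans z)).elim

omit [NumberField K] in
theorem g2_at (u : Mon K) {a : ℕ} (h : u.r = a) : coeff a u.s = u.c := by
  rw [Mon.coeff_s, if_pos h.symm]

omit [NumberField K] in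
theorem g2_lt (u : Mon K) {a : ℕ} (h : a < u.r) : coeff a u.s = 0 := by
  rw [Mon.coeff_s, if_neg h.ne]

omit [NumberField K] in
theorem g2_eq {a b : Mon K} (hr : a.r = b.r) (hc : a.c = b.c) : a = b := by
  cases a
  cases b
  simp_all

/-- `s1` at `a = u1.r` gives `u1.c = coeff a v1.s`, so `v1 = u1`; then `fix1`. -/
theorem caseA (h : H0 u1 u2 u3 u4 v1 v2 v3 v4) (r2 : u1.r < u2.r) (r3 : u2.r ≤ u3.r)
    (r4 : u2.r ≤ u4.r) (t1 : v1.r = u1.r) (t2 : u2.r ≤ v2.r) (t3 : u2.r ≤ v3.r)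
    (t4 : u2.r ≤ v4.r) : V4 u1 u2 u3 u4 v1 v2 v3 v4 := by
  have h1 := s1 h.du h.dv h.id (a := u1.r) (by omega) (by omega)
  rw [g2_at u1 rfl, g2_lt u2 r2, g2_lt u3 (by omega), g2_lt u4 (by omega), g2_at v1 t1,
    g2_lt v2 (by omega), g2_lt v3 (by omega), g2_lt v4 (by omega)] at h1
  obtain rfl : v1 = u1 := g2_eq t1 (by linear_combination -h1)
  exact Or.inl ⟨rfl, fix1 h r2 r3 r4 t2 t3 t4⟩

/-- `s1` and `s2` (for `h.s23`) give equal sums and products of `u1.c, u2.c` and `v1.c, v2.c`;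
`fix2` for `h` or `h.k1`. -/
theorem caseB (h : H0 u1 u2 u3 u4 v1 v2 v3 v4) (r2 : u2.r = u1.r) (r3 : u1.r < u3.r)
    (r4 : u1.r < u4.r) (t1 : v1.r = u1.r) (t2 : v2.r = u1.r) (t3 : u1.r < v3.r)
    (t4 : u1.r < v4.r) : V4 u1 u2 u3 u4 v1 v2 v3 v4 := by
  have h1 := s1 h.du h.dv h.id (a := u1.r) (by omega) (by omega)
  have h2 := s2 h.s23.du h.s23.dv h.s23.id (i := u1.r) (j := u1.r) (by omega) (by omega)
    (by omega) (by omega)
  rw [map_sub, map_sub] at h2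
  rw [g2_at u1 rfl, g2_at u2 r2, g2_lt u3 r3, g2_lt u4 r4, g2_at v1 t1, g2_at v2 t2,
    g2_lt v3 t3, g2_lt v4 t4] at h1 h2
  have h3 : (v1.c - u1.c) * (v1.c - u2.c) = 0 := by linear_combination h2 - v1.c * h1
  rcases mul_eq_zero.1 h3 with h4 | h4
  · obtain rfl : v1 = u1 := g2_eq t1 (by linear_combination h4)
    obtain rfl : v2 = u2 := g2_eq (t2.trans r2.symm) (by linear_combination -h1)
    exact Or.inl ⟨rfl, rfl, fix2 h⟩
  · obtain rfl : v1 = u2 := g2_eq (t1.trans r2.symm) (by linear_combination h4)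
    obtain rfl : v2 = u1 := g2_eq t2 (by linear_combination -h1)
    exact Or.inr (Or.inl ⟨rfl, rfl, (fix2 h.k1).symm⟩)

/-- `ord4` for `h.h0`, `h.h0.s23`, `h.h0.s34.s23` and `omega`. If `u1.r < u2.r`, then
`v1.r = u1.r` by `s1` (else `u1.c = 0`), `caseA`. If `u1.r = u2.r < u3.r`, `caseB`. Else at most
one of `v2, v3, v4` has a larger order: `caseC` for `h`, `h.k1` or `h.k2`. -/
theorem sorted (h : Hy φ N u1 u2 u3 u4 v1 v2 v3 v4) (r2 : u1.r ≤ u2.r) (r3 : u2.r ≤ u3.r)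
    (r4 : u3.r ≤ u4.r) (t1 : u1.r ≤ v1.r) (t2 : v1.r ≤ v2.r) (t3 : v1.r ≤ v3.r)
    (t4 : v1.r ≤ v4.r) : V4 u1 u2 u3 u4 v1 v2 v3 v4 := by
  have o1 := ord4 h.h0
  have o2 := ord4 h.h0.s23
  have o3 := ord4 h.h0.s34.s23
  rcases r2.eq_or_lt with e2 | l2
  · rcases r3.eq_or_lt with e3 | l3
    · by_cases c2 : v2.r = u1.r
      · by_cases c3 : v3.r = u1.r
        · exact caseC h e2.symm (by omega) (by omega) (by omega) c2 c3 (by omega)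
        · exact (caseC h.k1 e2.symm (by omega) (by omega) c2 (by omega) (by omega) (by omega)).k1
      · exact (caseC h.k2 e2.symm (by omega) (by omega) (by omega) (by omega) (by omega)
          (by omega)).k2
    · exact caseB h.h0 e2.symm (by omega) (by omega) (by omega) (by omega) (by omega) (by omega)
  · have e1 : v1.r = u1.r := by
      by_contra c
      have k := s1 h.h0.du h.h0.dv h.h0.id (a := u1.r) (by omega) (by omega)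
      rw [u1.coeff_s, u2.coeff_s, u3.coeff_s, u4.coeff_s, v1.coeff_s, v2.coeff_s, v3.coeff_s,
        v4.coeff_s, if_pos rfl, if_neg (by omega), if_neg (by omega), if_neg (by omega),
        if_neg (by omega), if_neg (by omega), if_neg (by omega), if_neg (by omega)] at k
      exact u1.c_ne (by simpa using k)
    exact caseA h.h0 l2 r3 (by omega) e1 (by omega) (by omega) (by omega)

theorem g4a (h : Hy φ N u1 u2 u3 u4 v1 v2 v3 v4) (r2 : u1.r ≤ u2.r) (r3 : u1.r ≤ u3.r)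
    (r4 : u2.r ≤ u4.r) (r5 : u3.r ≤ u4.r) (t1 : u1.r ≤ v1.r) (t2 : v1.r ≤ v2.r)
    (t3 : v1.r ≤ v3.r) (t4 : v1.r ≤ v4.r) : V4 u1 u2 u3 u4 v1 v2 v3 v4 := by
  rcases le_total u2.r u3.r with e | e
  · exact sorted h r2 e r5 t1 t2 t3 t4
  · exact (sorted h.s23 r3 e r4 t1 t3 t2 t4).s23

theorem g4b (h : Hy φ N u1 u2 u3 u4 v1 v2 v3 v4) (r2 : u1.r ≤ u2.r) (r3 : u1.r ≤ u3.r)
    (r4 : u1.r ≤ u4.r) (t1 : u1.r ≤ v1.r) (t2 : v1.r ≤ v2.r)
    (t3 : v1.r ≤ v3.r) (t4 : v1.r ≤ v4.r) : V4 u1 u2 u3 u4 v1 v2 v3 v4 := by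
  have e : (u2.r ≤ u4.r ∧ u3.r ≤ u4.r) ∨ (u2.r ≤ u3.r ∧ u4.r ≤ u3.r) ∨
      (u3.r ≤ u2.r ∧ u4.r ≤ u2.r) := by omega
  rcases e with ⟨a, b⟩ | ⟨a, b⟩ | ⟨a, b⟩
  · exact g4a h r2 r3 a b t1 t2 t3 t4
  · exact (g4a h.s34 r2 r4 a b t1 t2 t4 t3).s34
  · exact (g4a h.s23.s34 r3 r4 a b t1 t3 t4 t2).s34.s23

theorem g4c (h : Hy φ N u1 u2 u3 u4 v1 v2 v3 v4) (r2 : u1.r ≤ u2.r) (r3 : u1.r ≤ u3.r)
    (r4 : u1.r ≤ u4.r) (t1 : u1.r ≤ v1.r) (t2 : u1.r ≤ v2.r)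
    (t3 : u1.r ≤ v3.r) (t4 : u1.r ≤ v4.r) : V4 u1 u2 u3 u4 v1 v2 v3 v4 := by
  have e : (v1.r ≤ v2.r ∧ v1.r ≤ v3.r ∧ v1.r ≤ v4.r) ∨
      (v2.r ≤ v1.r ∧ v2.r ≤ v4.r ∧ v2.r ≤ v3.r) ∨
      (v3.r ≤ v4.r ∧ v3.r ≤ v1.r ∧ v3.r ≤ v2.r) ∨
      (v4.r ≤ v3.r ∧ v4.r ≤ v2.r ∧ v4.r ≤ v1.r) := by omega
  rcases e with ⟨a, b, c⟩ | ⟨a, b, c⟩ | ⟨a, b, c⟩ | ⟨a, b, c⟩
  · exact g4b h r2 r3 r4 t1 a b c
  · exact (g4b h.k1 r2 r3 r4 t2 a b c).k1
  · exact (g4b h.k2 r2 r3 r4 t3 a b c).k2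
  · exact (g4b h.k3 r2 r3 r4 t4 a b c).k3

theorem g4d (h : Hy φ N u1 u2 u3 u4 v1 v2 v3 v4) (m : ℕ)
    (r : u1.r ≤ m ∨ u2.r ≤ m ∨ u3.r ≤ m ∨ u4.r ≤ m) (t1 : m ≤ v1.r) (t2 : m ≤ v2.r)
    (t3 : m ≤ v3.r) (t4 : m ≤ v4.r) : V4 u1 u2 u3 u4 v1 v2 v3 v4 := by
  have e : (u1.r ≤ m ∧ u1.r ≤ u2.r ∧ u1.r ≤ u3.r ∧ u1.r ≤ u4.r) ∨
      (u2.r ≤ m ∧ u2.r ≤ u1.r ∧ u2.r ≤ u3.r ∧ u2.r ≤ u4.r) ∨
      (u3.r ≤ m ∧ u3.r ≤ u1.r ∧ u3.r ≤ u2.r ∧ u3.r ≤ u4.r) ∨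
      (u4.r ≤ m ∧ u4.r ≤ u1.r ∧ u4.r ≤ u2.r ∧ u4.r ≤ u3.r) := by omega
  rcases e with ⟨z, a, b, c⟩ | ⟨z, a, b, c⟩ | ⟨z, a, b, c⟩ | ⟨z, a, b, c⟩
  · exact g4c h a b c (z.trans t1) (z.trans t2) (z.trans t3) (z.trans t4)
  · exact (g4c h.s12 a b c (z.trans t2) (z.trans t1) (z.trans t3) (z.trans t4)).s12
  · exact (g4c h.s23.s12 a b c (z.trans t3) (z.trans t1) (z.trans t2) (z.trans t4)).s12.s23
  · exact (g4c h.s34.s23.s12 a b c (z.trans t4) (z.trans t1) (z.trans t2)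
      (z.trans t3)).s12.s23.s34

/-- Sorting by `Hy.symm`, `Hy.s12`, `Hy.s23`, `Hy.s34`, `Hy.k1`, `Hy.k2`, `Hy.k3` and the lemmas
of the same names for `V4`. -/
theorem four (h : Hy φ N u1 u2 u3 u4 v1 v2 v3 v4) : V4 u1 u2 u3 u4 v1 v2 v3 v4 := by
  rcases le_total (min (min u1.r u2.r) (min u3.r u4.r)) (min (min v1.r v2.r) (min v3.r v4.r))
    with e | e
  · exact g4d h (min (min v1.r v2.r) (min v3.r v4.r)) (by omega) (by omega) (by omega) (by omega)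
      (by omega)
  · exact (g4d h.symm (min (min u1.r u2.r) (min u3.r u4.r)) (by omega) (by omega) (by omega)
      (by omega) (by omega)).symm

end Pool.Agent.UAP.Mz
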