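import Pool.Agent.Lib.MP_7e5527_ag.Mz.RgFour
import Pool.Agent.Lib.MP_7e5527_ag.Mz.Hyb

/-! Rigidity of cross ratios in a Hecke orbit. -/

open UpperHalfPlane

noncomputable section

namespace Pool.Agent.UAP.Mz

theorem t1_orb {τ0 : ℍ} {s : ℂ} (hs : s ∈ heckeOrbit (jf τ0)) :
    ∃ g : ℕ × ℕ × ℕ, (∃ N : ℕ, 0 < N ∧ g ∈ Prim N) ∧ Pos g ∧ s = Fn g τ0 := by
  obtain ⟨N, hN, g, hg, h⟩ := orbit hs
  have h1 := ((mem_Prim hN).1 hg).1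
  exact ⟨g, ⟨N, hN, hg⟩, ⟨Nat.pos_of_mul_pos_right (h1 ▸ hN), Nat.pos_of_mul_pos_left (h1 ▸ hN)⟩, h⟩

theorem t1_dis {f1 f2 f3 f4 : ℍ → ℂ} {z : ℍ} (h : Dis4 (f1 z) (f2 z) (f3 z) (f4 z)) :
    Dis4 f1 f2 f3 f4 :=
  ⟨fun e => h.1 (congrFun e z), fun e => h.2.1 (congrFun e z), fun e => h.2.2.1 (congrFun e z),
    fun e => h.2.2.2.1 (congrFun e z), fun e => h.2.2.2.2.1 (congrFun e z),
    fun e => h.2.2.2.2.2 (congrFun e z)⟩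

/-- As `upper`: `jf_surjective`, `orbit`, `ident`, `to_hy`, `four`, `rep_eq`. -/
theorem rigid {t : ℂ} (ht : Transcendental ℚ t) {x1 x2 x3 x4 y1 y2 y3 y4 : ℂ}
    (a1 : x1 ∈ heckeOrbit t) (a2 : x2 ∈ heckeOrbit t) (a3 : x3 ∈ heckeOrbit t)
    (a4 : x4 ∈ heckeOrbit t) (b1 : y1 ∈ heckeOrbit t) (b2 : y2 ∈ heckeOrbit t)
    (b3 : y3 ∈ heckeOrbit t) (b4 : y4 ∈ heckeOrbit t) (hx : Dis4 x1 x2 x3 x4)
    (hy : Dis4 y1 y2 y3 y4) (h : CR x1 x2 x3 x4 y1 y2 y3 y4) : V4 x1 x2 x3 x4 y1 y2 y3 y4 := by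
  obtain ⟨τ0, rfl⟩ := jf_surjective t
  obtain ⟨g1, p1, q1, rfl⟩ := t1_orb a1
  obtain ⟨g2, p2, q2, rfl⟩ := t1_orb a2
  obtain ⟨g3, p3, q3, rfl⟩ := t1_orb a3
  obtain ⟨g4, p4, q4, rfl⟩ := t1_orb a4
  obtain ⟨h1, p5, q5, rfl⟩ := t1_orb b1
  obtain ⟨h2, p6, q6, rfl⟩ := t1_orb b2
  obtain ⟨h3, p7, q7, rfl⟩ := t1_orb b3
  obtain ⟨h4, p8, q8, rfl⟩ := t1_orb b4
  have hz : ∀ z, CR (Fn g1 z) (Fn g2 z) (Fn g3 z) (Fn g4 z) (Fn h1 z) (Fn h2 z) (Fn h3 z)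
      (Fn h4 z) := fun z => by
    have e := ident ht ![g1, g2, g3, g4, h1, h2, h3, h4]
      (fun i => by fin_cases i <;> assumption)
      ((.X 0 - .X 2) * (.X 1 - .X 3) * ((.X 4 - .X 7) * (.X 5 - .X 6)) -
        (.X 0 - .X 3) * (.X 1 - .X 2) * ((.X 4 - .X 6) * (.X 5 - .X 7))) (by
        simp only [map_sub, map_mul, MvPolynomial.aeval_X]
        exact sub_eq_zero.2 h) z
    simp only [map_sub, map_mul, MvPolynomial.aeval_X] at e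
    exact sub_eq_zero.1 e
  obtain ⟨K, _, _, φ, N, u1, u2, u3, u4, v1, v2, v3, v4, hH, r1, r2, r3, r4, s1, s2, s3, s4⟩ :=
    to_hy q1 q2 q3 q4 q5 q6 q7 q8 (t1_dis hx) (t1_dis hy) hz
  rcases four hH with ⟨rfl, rfl, rfl, rfl⟩ | ⟨rfl, rfl, rfl, rfl⟩ | ⟨rfl, rfl, rfl, rfl⟩ |
    ⟨rfl, rfl, rfl, rfl⟩
  · exact Or.inl ⟨rep_eq s1 r1 τ0, rep_eq s2 r2 τ0, rep_eq s3 r3 τ0, rep_eq s4 r4 τ0⟩
  · exact Or.inr (Or.inl ⟨rep_eq s1 r2 τ0, rep_eq s2 r1 τ0, rep_eq s3 r4 τ0, rep_eq s4 r3 τ0⟩)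
  · exact Or.inr (Or.inr (Or.inl
      ⟨rep_eq s1 r3 τ0, rep_eq s2 r4 τ0, rep_eq s3 r1 τ0, rep_eq s4 r2 τ0⟩))
  · exact Or.inr (Or.inr (Or.inr
      ⟨rep_eq s1 r4 τ0, rep_eq s2 r3 τ0, rep_eq s3 r2 τ0, rep_eq s4 r1 τ0⟩))

theorem rigid_iff {t : ℂ} (ht : Transcendental ℚ t) (x y : Fin 4 → ℂ)
    (hx : Function.Injective x) (hy : Function.Injective y) (hxt : ∀ i, x i ∈ heckeOrbit t)
    (hyt : ∀ i, y i ∈ heckeOrbit t) :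
    (x 0 - x 2) * (x 1 - x 3) / ((x 0 - x 3) * (x 1 - x 2)) =
        (y 0 - y 2) * (y 1 - y 3) / ((y 0 - y 3) * (y 1 - y 2)) ↔
      y = x ∨ y = ![x 1, x 0, x 3, x 2] ∨ y = ![x 2, x 3, x 0, x 1] ∨
        y = ![x 3, x 2, x 1, x 0] := by
  have hd : ∀ z : Fin 4 → ℂ, Function.Injective z → Dis4 (z 0) (z 1) (z 2) (z 3) ∧
      (z 0 - z 3) * (z 1 - z 2) ≠ 0 := fun z hz =>
    ⟨⟨hz.ne (by decide), hz.ne (by decide), hz.ne (by decide), hz.ne (by decide),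
      hz.ne (by decide), hz.ne (by decide)⟩,
      mul_ne_zero (sub_ne_zero.2 (hz.ne (by decide))) (sub_ne_zero.2 (hz.ne (by decide)))⟩
  constructor
  · intro h
    rw [div_eq_div_iff (hd x hx).2 (hd y hy).2] at h
    have hv := rigid ht (hxt 0) (hxt 1) (hxt 2) (hxt 3) (hyt 0) (hyt 1) (hyt 2) (hyt 3)
      (hd x hx).1 (hd y hy).1 (by unfold CR; linear_combination h)
    refine hv.imp ?_ (Or.imp ?_ (Or.imp ?_ ?_)) <;> rintro ⟨h0, h1, h2, h3⟩ <;> funext i <;>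
      fin_cases i <;> assumption
  · rintro (rfl | rfl | rfl | rfl)
    · rfl
    all_goals
      simp only [Matrix.cons_val_zero, Matrix.cons_val_one, Matrix.cons_val]
      congr 1 <;> ring

theorem rgt2_pack {S : Set ℂ} (h4 : S.encard ≤ 4) {a b c d p q r s : ℂ} (hd : Dis4 p q r s)
    (mp : p ∈ S) (mq : q ∈ S) (mr : r ∈ S) (ms : s ∈ S) (hp : c * p + d ≠ 0) (hq : c * q + d ≠ 0)
    (e1 : (a * p + b) / (c * p + d) = q) (e2 : (a * q + b) / (c * q + d) = p)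
    (e3 : (a * r + b) / (c * r + d) = s) :
    a + d = 0 ∧ ∃ x1 x2 x3 x4 : ℂ, x1 ≠ x2 ∧ x1 ≠ x3 ∧ x1 ≠ x4 ∧ x2 ≠ x3 ∧ x2 ≠ x4 ∧ x3 ≠ x4 ∧
      S = {x1, x2, x3, x4} ∧ (a * x1 + b) / (c * x1 + d) = x2 ∧
      (a * x3 + b) / (c * x3 + d) = x4 := by
  obtain ⟨d1, d2, d3, d4, d5, d6⟩ := hd
  have f1 := (div_eq_iff hp).1 e1
  have f2 := (div_eq_iff hq).1 e2
  refine ⟨mul_left_cancel₀ (sub_ne_zero.2 d1) (by linear_combination f1 - f2), p, q, r, s,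
    d1, d2, d3, d4, d5, d6, ?_, e1, e3⟩
  refine (Set.Finite.eq_of_subset_of_encard_le (Set.toFinite _) ?_ ?_).symm
  · rintro z (rfl | rfl | rfl | rfl) <;> assumption
  · rw [Set.encard_insert_of_notMem (by simp [d1, d2, d3]),
      Set.encard_insert_of_notMem (by simp [d4, d5]), Set.encard_pair d6]
    exact h4.trans (by norm_num)

/-- `up_four`, `mob_data`, `rigid`, `up_fix`; the set has at most four points by `upper`. -/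
theorem classify {t : ℂ} (ht : Transcendental ℚ t) {a b c d : ℂ} (hdet : a * d - b * c ≠ 0)
    (hid : ¬ (b = 0 ∧ c = 0 ∧ a = d)) :
    {s ∈ heckeOrbit t | c * s + d ≠ 0 ∧ (a * s + b) / (c * s + d) ∈ heckeOrbit t}.encard ≤ 3 ∨
      (a + d = 0 ∧ ∃ x1 x2 x3 x4 : ℂ, x1 ≠ x2 ∧ x1 ≠ x3 ∧ x1 ≠ x4 ∧ x2 ≠ x3 ∧ x2 ≠ x4 ∧ x3 ≠ x4 ∧
        {s ∈ heckeOrbit t | c * s + d ≠ 0 ∧ (a * s + b) / (c * s + d) ∈ heckeOrbit t} =
          {x1, x2, x3, x4} ∧ (a * x1 + b) / (c * x1 + d) = x2 ∧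
        (a * x3 + b) / (c * x3 + d) = x4) := by
  refine or_iff_not_imp_left.2 fun hc => ?_
  obtain ⟨x, hx, hS⟩ := up_four hc
  have h0 : ∀ i, c * x i + d ≠ 0 := fun i => (hS i).2.1
  obtain ⟨h1, h2⟩ := mob_data hdet hx h0 fun _ => rfl
  have h4 := upper ht hdet hid
  have hn : ∀ {i j : Fin 4}, i ≠ j → x i ≠ x j := fun h => hx.ne h
  rcases rigid ht (hS 0).1 (hS 1).1 (hS 2).1 (hS 3).1 (hS 0).2.2 (hS 1).2.2 (hS 2).2.2 (hS 3).2.2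
    ⟨hn (by decide), hn (by decide), hn (by decide), hn (by decide), hn (by decide),
      hn (by decide)⟩
    ⟨h1.ne (by decide : (0 : Fin 4) ≠ 1), h1.ne (by decide : (0 : Fin 4) ≠ 2),
      h1.ne (by decide : (0 : Fin 4) ≠ 3), h1.ne (by decide : (1 : Fin 4) ≠ 2),
      h1.ne (by decide : (1 : Fin 4) ≠ 3), h1.ne (by decide : (2 : Fin 4) ≠ 3)⟩ h2 with
    ⟨e0, e1, e2, -⟩ | ⟨e0, e1, e2, -⟩ | ⟨e0, e1, e2, -⟩ | ⟨e0, e1, -, e3⟩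
  · exact absurd (up_fix (hn (by decide)) (hn (by decide)) (hn (by decide))
      ((div_eq_iff (h0 0)).1 e0).symm ((div_eq_iff (h0 1)).1 e1).symm
      ((div_eq_iff (h0 2)).1 e2).symm) hid
  · exact rgt2_pack h4 ⟨hn (by decide), hn (by decide), hn (by decide), hn (by decide),
      hn (by decide), hn (by decide)⟩ (hS 0) (hS 1) (hS 2) (hS 3) (h0 0) (h0 1) e0 e1 e2
  · exact rgt2_pack h4 ⟨hn (by decide), hn (by decide), hn (by decide), hn (by decide),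
      hn (by decide), hn (by decide)⟩ (hS 0) (hS 2) (hS 1) (hS 3) (h0 0) (h0 2) e0 e2 e1
  · exact rgt2_pack h4 ⟨hn (by decide), hn (by decide), hn (by decide), hn (by decide),
      hn (by decide), hn (by decide)⟩ (hS 0) (hS 3) (hS 1) (hS 2) (h0 0) (h0 3) e0 e3 e1

end Pool.Agent.UAP.Mz
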