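import Pool.Agent.Lib.MP_7e5527_ag.Mz.Ord

/-! Large coefficients cannot cancel. -/

open PowerSeries

noncomputable section

namespace Pool.Agent.UAP.Mz

variable {K : Type} [Field K] [NumberField K]

theorem alg {κ : K} (h : IsIntegral ℤ κ) (h1 : ∀ σ : K →+* ℂ, ‖σ κ‖ < 1) : κ = 0 := by
  by_contra h0
  obtain ⟨n, hn, e⟩ := NumberField.Embeddings.pow_eq_one_of_norm_le_one K ℂ h0 h
    fun σ => (h1 σ).le
  obtain ⟨σ⟩ : Nonempty (K →+* ℂ) := inferInstance
  have h2 := congrArg (fun x => ‖σ x‖) e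
  simp only [map_pow, norm_pow, map_one, norm_one] at h2
  exact absurd h2 (pow_lt_one₀ (norm_nonneg _) (h1 σ) hn.ne').ne

/-- Induction on the order of `δ` up to `e`, then the coefficient at `e`. -/
theorem ts {δ U η ρ : K⟦X⟧} {e : ℕ} {t : ℝ} (hU : constantCoeff U = 1) (hδ : Bd δ 8)
    (hη : Bd η t) (he : X ^ e ∣ η) (hρ : X ^ (e + 1) ∣ ρ)
    (h : Lo (-(196884 * (δ * U)) - 21493760 * η + ρ)) : X ^ e ∣ δ ∧ coeff e η = 0 := by
  have key : ∀ n, n ≤ e → X ^ n ∣ δ → ∀ σ : K →+* ℂ,
      ‖196884 * σ (coeff n δ) + 21493760 * σ (coeff n η)‖ ≤ 8 := fun n hn hd σ => by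
    have h1 := h n (dvd_add (dvd_sub (dvd_neg.2 ((hd.mul_right U).mul_left _))
      (((pow_dvd_pow X hn).trans he).mul_left _)) ((pow_dvd_pow X (by omega)).trans hρ)) σ
    have h2 : coeff n (δ * U) = coeff n δ := by
      have h3 := coeff_mul_dvd (G := U) (j := 0) hd (by rw [pow_zero]; exact one_dvd U)
      rwa [add_zero, coeff_zero_eq_constantCoeff_apply, hU, mul_one] at h3
    have c1 : (196884 : K⟦X⟧) = C (196884 : K) := (map_ofNat C _).symm
    have c2 : (21493760 : K⟦X⟧) = C (21493760 : K) := (map_ofNat C _).symm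
    rw [map_add, map_sub, map_neg, c1, c2, coeff_C_mul, coeff_C_mul, h2,
      X_pow_dvd_iff.1 hρ n (by omega), add_zero, ← neg_add', map_neg, norm_neg, map_add, map_mul,
      map_mul, map_ofNat, map_ofNat] at h1
    exact h1
  have h4 : ∀ n, n ≤ e → X ^ n ∣ δ := fun n => by
    induction n with
    | zero => exact fun _ => by rw [pow_zero]; exact one_dvd δ
    | succ n ih =>
      intro hn
      have h5 := ih (by omega)
      have h6 : coeff n δ = 0 := alg (hδ n).1 fun σ => by
        have h7 := key n (by omega) h5 σ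
        rw [X_pow_dvd_iff.1 he n (by omega), map_zero, mul_zero, add_zero, norm_mul,
          Complex.norm_ofNat] at h7
        linarith
      refine X_pow_dvd_iff.2 fun m hm => ?_
      rcases Nat.lt_succ_iff_lt_or_eq.1 hm with h8 | rfl
      exacts [X_pow_dvd_iff.1 h5 m h8, h6]
  refine ⟨h4 e le_rfl, alg (hη e).1 fun σ => ?_⟩
  have h7 := key e le_rfl (h4 e le_rfl) σ
  have h8 := norm_sub_le (196884 * σ (coeff e δ) + 21493760 * σ (coeff e η))
    (196884 * σ (coeff e δ))
  rw [add_sub_cancel_left, norm_mul, norm_mul, Complex.norm_ofNat, Complex.norm_ofNat] at h8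
  have h9 := (hδ e).2 σ
  linarith

end Pool.Agent.UAP.Mz
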