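import Pool.Agent.Lib.MP_7e5527_ag.Mz.Master
import Pool.Agent.Lib.MP_7e5527_ag.Mz.TS

/-! The first two coefficient identities. -/

open PowerSeries

noncomputable section

namespace Pool.Agent.UAP.Mz

variable {K : Type} [Field K] [NumberField K]

omit [NumberField K] in
theorem t9_bd (u1 u2 u3 u4 : Mon K) : Bd ((u1.s - u2.s) * (u3.s - u4.s)) 4 := by
  have h := ((u3.bd.sub u4.bd).mon_mul u1).sub ((u3.bd.sub u4.bd).mon_mul u2)
  rw [← sub_mul, (by norm_num : (1 + 1 + (1 + 1) : ℝ) = 4)] at h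
  exact h

omit [NumberField K] in
theorem t9_bd' (u1 u2 u3 u4 : Mon K) :
    Bd ((u1.s - u2.s) * (u3.s - u4.s) * (u1.s + u2.s + u3.s + u4.s)) (4 + 4 + 4 + 4) := by
  have h0 := t9_bd u1 u2 u3 u4
  have h := (((h0.mon_mul u1).add (h0.mon_mul u2)).add (h0.mon_mul u3)).add (h0.mon_mul u4)
  rw [← add_mul, ← add_mul, ← add_mul, mul_comm] at h
  exact h

omit [NumberField K] in
theorem t9_sub (a b : Mon K) : X ^ min a.r b.r ∣ a.s - b.s :=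
  dvd_sub (a.dvd (min_le_left _ _)) (b.dvd (min_le_right _ _))

omit [NumberField K] in
theorem t9_eta (u1 u2 u3 u4 : Mon K) {a e0 : ℕ} (ha : a ≤ min (min u1.r u2.r) (min u3.r u4.r))
    (he : e0 ≤ min u1.r u2.r + min u3.r u4.r) :
    X ^ (e0 + a) ∣ (u1.s - u2.s) * (u3.s - u4.s) * (u1.s + u2.s + u3.s + u4.s) := by
  rw [pow_add]
  refine mul_dvd_mul ((pow_dvd_pow _ he).trans ?_) (dvd_add (dvd_add (dvd_add (u1.dvd (by omega))
    (u2.dvd (by omega))) (u3.dvd (by omega))) (u4.dvd (by omega)))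
  rw [pow_add]
  exact mul_dvd_mul (t9_sub u1 u2) (t9_sub u3 u4)

omit [NumberField K] in
theorem t9_tail (u1 u2 u3 u4 : Mon K) {a e0 : ℕ} (ha0 : 1 ≤ a)
    (ha : a ≤ min (min u1.r u2.r) (min u3.r u4.r)) (he : e0 ≤ min u1.r u2.r + min u3.r u4.r) :
    X ^ (e0 + a + 1) ∣ (u1.s ^ 3 * u1.ap T4 - u2.s ^ 3 * u2.ap T4) * (u3.s - u4.s) := by
  refine (pow_dvd_pow _ (by omega : e0 + a + 1 ≤ min u1.r u2.r * 3 + min u3.r u4.r)).trans ?_
  rw [pow_add, pow_mul]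
  exact mul_dvd_mul (dvd_sub ((pow_dvd_pow_of_dvd (u1.dvd (min_le_left _ _)) 3).mul_right _)
    ((pow_dvd_pow_of_dvd (u2.dvd (min_le_right _ _)) 3).mul_right _)) (t9_sub u3 u4)

/-- `master` with `k = e0`, `m = μ = a`, then `ts` with `U = 1` and `e = e0 + a`. -/
theorem s0 {u1 u2 u3 u4 v1 v2 v3 v4 : Mon K} (hu : Dis u1 u2 u3 u4) (hv : Dis v1 v2 v3 v4)
    (h : Id4 u1 u2 u3 u4 v1 v2 v3 v4) {a e0 : ℕ} (ha0 : 1 ≤ a)
    (ha : a ≤ min (min u1.r u2.r) (min u3.r u4.r)) (ha' : a ≤ min (min v1.r v2.r) (min v3.r v4.r))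
    (he : e0 = min (min u1.r u2.r + min u3.r u4.r) (min v1.r v2.r + min v3.r v4.r)) :
    X ^ (e0 + a) ∣ (u1.s - u2.s) * (u3.s - u4.s) - (v1.s - v2.s) * (v3.s - v4.s) ∧
      coeff (e0 + a) ((u1.s - u2.s) * (u3.s - u4.s) * (u1.s + u2.s + u3.s + u4.s) -
        (v1.s - v2.s) * (v3.s - v4.s) * (v1.s + v2.s + v3.s + v4.s)) = 0 := by
  have hk : e0 ≤ min u1.r u2.r + min u3.r u4.r := he ▸ min_le_left _ _
  have hk' : e0 ≤ min v1.r v2.r + min v3.r v4.r := he ▸ min_le_right _ _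
  obtain ⟨ρ, hρ, hL⟩ := master hu hv h (k := e0) (m := a) (μ := a) (e := e0 + a + 1) hk hk'
    (by omega) (by omega) ha ha' (by omega) (by omega)
  have hδ := (t9_bd u1 u2 u3 u4).sub (t9_bd v1 v2 v3 v4)
  rw [(by norm_num : (4 + 4 : ℝ) = 8)] at hδ
  refine ts (U := 1) (map_one _) hδ ((t9_bd' u1 u2 u3 u4).sub (t9_bd' v1 v2 v3 v4))
    (dvd_sub (t9_eta u1 u2 u3 u4 ha hk) (t9_eta v1 v2 v3 v4 ha' hk'))
    (dvd_sub hρ (dvd_sub (t9_tail u1 u2 u3 u4 ha0 ha hk) (t9_tail v1 v2 v3 v4 ha0 ha' hk'))) ?_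
  refine (congrArg Lo ?_).mp hL
  simp only [ff]
  ring

theorem s1 {u1 u2 u3 u4 v1 v2 v3 v4 : Mon K} (hu : Dis u1 u2 u3 u4) (hv : Dis v1 v2 v3 v4)
    (h : Id4 u1 u2 u3 u4 v1 v2 v3 v4) {a : ℕ}
    (ha : a ≤ min (min u1.r u2.r) (min u3.r u4.r)) (ha' : a ≤ min (min v1.r v2.r) (min v3.r v4.r)) :
    coeff a u1.s + coeff a u2.s + coeff a u3.s + coeff a u4.s =
      coeff a v1.s + coeff a v2.s + coeff a v3.s + coeff a v4.s := by
  rcases Nat.eq_zero_or_pos a with rfl | ha0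
  · have z : ∀ u : Mon K, coeff 0 u.s = 0 := fun u => by
      rw [u.coeff_s, if_neg u.pos.symm]
    simp only [z]
  obtain ⟨h1, h2⟩ := s0 hu hv h ha0 ha ha' rfl
  set e0 := min (min u1.r u2.r + min u3.r u4.r) (min v1.r v2.r + min v3.r v4.r) with he
  have d2 : ∀ p q : Mon K, X ^ min p.r q.r ∣ p.s - q.s := fun p q =>
    dvd_sub (p.dvd (min_le_left _ _)) (q.dvd (min_le_right _ _))
  have d4 : ∀ p q r t : Mon K, e0 ≤ min p.r q.r + min r.r t.r →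
      X ^ e0 ∣ (p.s - q.s) * (r.s - t.s) := fun p q r t hh =>
    (pow_dvd_pow X hh).trans (by rw [pow_add]; exact mul_dvd_mul (d2 p q) (d2 r t))
  have dS : ∀ p q r t : Mon K, a ≤ min (min p.r q.r) (min r.r t.r) →
      X ^ a ∣ p.s + q.s + r.s + t.s := fun p q r t hh =>
    dvd_add (dvd_add (dvd_add (p.dvd (by omega)) (q.dvd (by omega))) (r.dvd (by omega)))
      (t.dvd (by omega))
  have k0 : ∀ p q r t : Mon K, p ≠ q → r ≠ t →
      coeff (min p.r q.r + min r.r t.r) ((p.s - q.s) * (r.s - t.s)) ≠ 0 := fun p q r t a1 a2 => by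
    rw [coeff_mul_dvd (d2 p q) (d2 r t)]
    exact mul_ne_zero (Mon.lead_ne a1) (Mon.lead_ne a2)
  have k1 := PowerSeries.X_pow_dvd_iff.1 h1 e0 (by omega)
  rw [map_sub, sub_eq_zero] at k1
  have k2 : coeff e0 ((v1.s - v2.s) * (v3.s - v4.s)) ≠ 0 := by
    rcases min_choice (min u1.r u2.r + min u3.r u4.r) (min v1.r v2.r + min v3.r v4.r) with c | c
    · rw [← k1, he, c]
      exact k0 _ _ _ _ hu.1 hu.2.2.2.2.2
    · rw [he, c]
      exact k0 _ _ _ _ hv.1 hv.2.2.2.2.2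
  rw [map_sub, sub_eq_zero, coeff_mul_dvd (d4 _ _ _ _ (min_le_left _ _)) (dS _ _ _ _ ha),
    coeff_mul_dvd (d4 _ _ _ _ (min_le_right _ _)) (dS _ _ _ _ ha'), k1] at h2
  simpa only [map_add] using mul_left_cancel₀ k2 h2

theorem s2 {u1 u2 u3 u4 v1 v2 v3 v4 : Mon K} (hu : Dis u1 u2 u3 u4) (hv : Dis v1 v2 v3 v4)
    (h : Id4 u1 u2 u3 u4 v1 v2 v3 v4) {i j : ℕ} (hi : i ≤ min u1.r u2.r) (hi' : i ≤ min v1.r v2.r)
    (hj : j ≤ min u3.r u4.r) (hj' : j ≤ min v3.r v4.r) :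
    coeff i (u1.s - u2.s) * (coeff j u3.s - coeff j u4.s) =
      coeff i (v1.s - v2.s) * (coeff j v3.s - coeff j v4.s) := by
  have p : ∀ u : Mon K, 1 ≤ u.r := fun u => Nat.one_le_iff_ne_zero.2 u.pos
  obtain ⟨h1, -⟩ := s0 hu hv h (a := 1) le_rfl
    (le_min (le_min (p _) (p _)) (le_min (p _) (p _)))
    (le_min (le_min (p _) (p _)) (le_min (p _) (p _))) rfl
  have d2 : ∀ (p q : Mon K) (n : ℕ), n ≤ min p.r q.r → X ^ n ∣ p.s - q.s := fun p q n hn =>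
    dvd_sub (p.dvd (hn.trans (min_le_left _ _))) (q.dvd (hn.trans (min_le_right _ _)))
  have k1 := PowerSeries.X_pow_dvd_iff.1 h1 (i + j) (by omega)
  rw [map_sub, sub_eq_zero, coeff_mul_dvd (d2 _ _ _ hi) (d2 _ _ _ hj),
    coeff_mul_dvd (d2 _ _ _ hi') (d2 _ _ _ hj'), map_sub _ u3.s, map_sub _ v3.s] at k1
  exact k1

end Pool.Agent.UAP.Mz
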