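import Pool.Agent.Lib.MP_7e5527_ag.Mz.Hyb

/-! Two independent Hecke orbits. -/

noncomputable section

namespace Pool.Agent.UAP.Mz

theorem two_alg {t s : ℂ} (hs : s ∈ heckeOrbit t) : IsAlgebraic (Algebra.adjoin ℚ {t}) s := by
  obtain ⟨τ0, rfl⟩ := jf_surjective t
  obtain ⟨N, hN, g, hg, rfl⟩ := orbit hs
  have _ : Fact (Nat.Prime 2) := ⟨Nat.prime_two⟩
  obtain ⟨Φ, hΦ⟩ := exists_modP 2 hN
  let x : Algebra.adjoin ℚ {jf τ0} := ⟨jf τ0, Algebra.self_mem_adjoin_singleton ℚ _⟩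
  have e : (algebraMap (Algebra.adjoin ℚ {jf τ0}) ℂ).comp (ev1 x) = ev1 (jf τ0) :=
    Polynomial.ringHom_ext' (RingHom.ext_int _ _) (by simp [ev1, x])
  refine ⟨fib Φ x, fun h0 => hΦ.fib_ne_zero hN (jf τ0) ?_, ?_⟩
  · rw [fib, ← e, ← Polynomial.map_map]
    exact (congrArg _ h0).trans (Polynomial.map_zero _)
  · rw [Polynomial.aeval_def, fib, Polynomial.eval₂_map, e]
    exact (hΦ.root_cx hN τ0 _).2 ⟨g, hg, rfl⟩

theorem two_cl {S : Set ℂ} {z : ℂ} : z ∈ (AlgebraicIndependent.matroid ℚ ℂ).closure S ↔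
    IsAlgebraic (Algebra.adjoin ℚ S) z := by
  rw [AlgebraicIndependent.matroid_closure_eq, SetLike.mem_coe, Subalgebra.mem_algebraicClosure]

theorem two_empty {z : ℂ} (h : z ∈ (AlgebraicIndependent.matroid ℚ ℂ).closure ∅) :
    IsAlgebraic ℚ z := by
  have h1 := two_cl.1 h
  rw [Algebra.adjoin_empty] at h1
  exact h1.restrictScalars ℚ

theorem two_exch {t t' l : ℂ} (ht : Transcendental (Algebra.adjoin ℚ {t'}) t)
    (h1 : IsAlgebraic (Algebra.adjoin ℚ {t}) l) (h2 : IsAlgebraic (Algebra.adjoin ℚ {t'}) l) :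
    IsAlgebraic ℚ l := by
  by_contra hl
  have h3 := Matroid.mem_closure_insert (X := ∅) (f := t) (fun h => hl (two_empty h))
    (two_cl.2 (by rwa [insert_empty_eq]))
  rw [insert_empty_eq] at h3
  exact ht (two_cl.1 (Matroid.closure_subset_closure_of_subset_closure
    (Set.singleton_subset_iff.2 (two_cl.2 h2)) h3))

/-- If `t` is transcendental over the ring generated by `t'`, a Moebius map sends at most three
points of the orbit of `t` into the orbit of `t'`. -/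
theorem two_three {t t' : ℂ} (ht : Transcendental (Algebra.adjoin ℚ {t'}) t) {a b c d : ℂ}
    (hdet : a * d - b * c ≠ 0) :
    {s ∈ heckeOrbit t | c * s + d ≠ 0 ∧ (a * s + b) / (c * s + d) ∈ heckeOrbit t'}.encard ≤ 3 := by
  by_contra hc
  obtain ⟨x, hx, hS⟩ := up_four hc
  obtain ⟨y, hy⟩ : ∃ y : Fin 4 → ℂ, ∀ i, y i = (a * x i + b) / (c * x i + d) := ⟨_, fun _ => rfl⟩
  obtain ⟨h1, h2⟩ := mob_data hdet hx (fun i => (hS i).2.1) hy
  have ax := fun i => two_alg (hS i).1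
  have ay : ∀ i, IsAlgebraic (Algebra.adjoin ℚ {t'}) (y i) := fun i => hy i ▸ two_alg (hS i).2.2
  have n1 : y 0 - y 3 ≠ 0 := sub_ne_zero.2 (h1.ne (by decide))
  have n2 : y 1 - y 2 ≠ 0 := sub_ne_zero.2 (h1.ne (by decide))
  have n3 : x 0 - x 3 ≠ 0 := sub_ne_zero.2 (hx.ne (by decide))
  have n4 : x 1 - x 2 ≠ 0 := sub_ne_zero.2 (hx.ne (by decide))
  have e : (x 0 - x 2) * (x 1 - x 3) * ((x 0 - x 3) * (x 1 - x 2))⁻¹ =
      (y 0 - y 2) * (y 1 - y 3) * ((y 0 - y 3) * (y 1 - y 2))⁻¹ := by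
    field_simp
    linear_combination h2
  have hl := two_exch ht
    ((((ax 0).sub (ax 2)).mul ((ax 1).sub (ax 3))).mul
      (((ax 0).sub (ax 3)).mul ((ax 1).sub (ax 2))).inv)
    (e ▸ (((ay 0).sub (ay 2)).mul ((ay 1).sub (ay 3))).mul
      (((ay 0).sub (ay 3)).mul ((ay 1).sub (ay 2))).inv)
  refine cr_tr (ht.restrictScalars (algebraMap ℚ _).injective) hx (fun i => (hS i).1) hl ?_
  field_simp

end Pool.Agent.UAP.Mz
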