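import Pool.Agent.Lib.MP_7e5527_ag.Mz.Form2
import Pool.Agent.Lib.MP_7e5527_ag.Mz.Five
import Pool.Agent.Lib.MP_7e5527_ag.Mz.Hol

/-! The sharp bound. -/

open UpperHalfPlane

noncomputable section

namespace Pool.Agent.UAP.Mz

theorem up_sub {a b c d x x' : ℂ} (h : c * x + d ≠ 0) (h' : c * x' + d ≠ 0) :
    (a * x + b) / (c * x + d) - (a * x' + b) / (c * x' + d) =
      (a * d - b * c) * (x - x') / ((c * x + d) * (c * x' + d)) := by
  rw [div_sub_div _ _ h h']
  congr 1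
  ring

theorem up_fix {a b c d x y z : ℂ} (hxy : x ≠ y) (hxz : x ≠ z) (hyz : y ≠ z)
    (hx : x * (c * x + d) = a * x + b) (hy : y * (c * y + d) = a * y + b)
    (hz : z * (c * z + d) = a * z + b) : b = 0 ∧ c = 0 ∧ a = d := by
  have h1 : c * (x + y) + d - a = 0 :=
    mul_left_cancel₀ (sub_ne_zero.2 hxy) (by linear_combination hx - hy)
  have h2 : c * (x + z) + d - a = 0 :=
    mul_left_cancel₀ (sub_ne_zero.2 hxz) (by linear_combination hx - hz)
  have h3 : c = 0 := mul_left_cancel₀ (sub_ne_zero.2 hyz) (by linear_combination h1 - h2)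
  have h4 : a = d := by linear_combination (x + y) * h3 - h1
  exact ⟨by linear_combination x * x * h3 - x * h4 - hx, h3, h4⟩

theorem up_five {S : Set ℂ} (h : ¬ S.encard ≤ 4) :
    ∃ x : Fin 5 → ℂ, Function.Injective x ∧ ∀ i, x i ∈ S := by
  have h5 : ((5 : ℕ) : ℕ∞) ≤ S.encard := Order.add_one_le_of_lt (not_le.1 h)
  obtain ⟨T, hT, hc⟩ := Set.exists_subset_encard_eq h5
  have hf : T.Finite := Set.finite_of_encard_eq_coe hc
  have : Finite T := hf
  have hn : Nat.card T = 5 := by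
    rw [Nat.card_coe_set_eq, Set.ncard, hc]
    rfl
  let e := (Finite.equivFinOfCardEq hn).symm
  exact ⟨fun i => e i, Subtype.val_injective.comp e.injective, fun i => hT (e i).2⟩

theorem upper {t : ℂ} (ht : Transcendental ℚ t) {a b c d : ℂ} (hdet : a * d - b * c ≠ 0)
    (hid : ¬ (b = 0 ∧ c = 0 ∧ a = d)) :
    {s ∈ heckeOrbit t | c * s + d ≠ 0 ∧ (a * s + b) / (c * s + d) ∈ heckeOrbit t}.encard ≤ 4 := by
  obtain ⟨τ0, rfl⟩ := jf_surjective t
  by_contra hc
  obtain ⟨x, hx, hS⟩ := up_five hc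
  have h0 : ∀ i, c * x i + d ≠ 0 := fun i => (hS i).2.1
  obtain ⟨y, hy⟩ : ∃ y : Fin 5 → ℂ, ∀ i, y i = (a * x i + b) / (c * x i + d) := ⟨_, fun _ => rfl⟩
  have hyi : Function.Injective y := fun i j hij => by
    have h1 := up_sub (a := a) (b := b) (h0 i) (h0 j)
    rw [← hy, ← hy, hij, sub_self, eq_comm, div_eq_zero_iff, mul_eq_zero, mul_eq_zero] at h1
    rcases h1 with (h1 | h1) | h1 | h1
    · exact absurd h1 hdet
    · exact hx (sub_eq_zero.1 h1)
    · exact absurd h1 (h0 i)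
    · exact absurd h1 (h0 j)
  have hall : ∀ s : Fin 5 ⊕ Fin 5, ∃ g : ℕ × ℕ × ℕ, (∃ N : ℕ, 0 < N ∧ g ∈ Prim N) ∧
      Sum.elim x y s = jf (aff g τ0) := by
    rintro (i | i)
    · obtain ⟨N, hN, g, hg, h⟩ := orbit (hS i).1
      exact ⟨g, ⟨N, hN, hg⟩, h⟩
    · obtain ⟨N, hN, g, hg, h⟩ := orbit (hS i).2.2
      exact ⟨g, ⟨N, hN, hg⟩, (hy i).trans h⟩
  choose g hg hv using hall
  have hpos : ∀ s, 0 < (g s).1 ∧ 0 < (g s).2.2 := fun s => by
    obtain ⟨N, hN, h⟩ := hg s
    have h1 := ((mem_Prim hN).1 h).1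
    exact ⟨Nat.pos_of_mul_pos_right (h1 ▸ hN), Nat.pos_of_mul_pos_left (h1 ▸ hN)⟩
  obtain ⟨K, _, _, φ, N, U, hN, hU⟩ := exists_rep g (fun s => (hpos s).1) fun s => (hpos s).2
  have hval : ∀ s s', U s = U s' → Sum.elim x y s = Sum.elim x y s' := fun s s' h => by
    rw [hv, hv]
    exact rep_eq (hU s) (h ▸ hU s') τ0
  obtain ⟨i, j, k, hij, hik, hjk, e1, e2, e3⟩ := five (u := fun i => U (.inl i))
    (v := fun i => U (.inr i)) (fun i j h => hx (hval _ _ h)) (fun i j h => hyi (hval _ _ h))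
    fun i j k l _ _ _ _ _ _ => by
      refine id4_of hN (hU _) (hU _) (hU _) (hU _) (hU _) (hU _) (hU _) (hU _) fun z => ?_
      have h := ident ht g hg
        ((.X (.inl i) - .X (.inl k)) * (.X (.inl j) - .X (.inl l)) *
          ((.X (.inr i) - .X (.inr l)) * (.X (.inr j) - .X (.inr k))) -
        (.X (.inl i) - .X (.inl l)) * (.X (.inl j) - .X (.inl k)) *
          ((.X (.inr i) - .X (.inr k)) * (.X (.inr j) - .X (.inr l)))) (by
          simp only [map_sub, map_mul, MvPolynomial.aeval_X, ← hv, Sum.elim_inl, Sum.elim_inr, hy,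
            up_sub (h0 _) (h0 _)]
          have := h0 i
          have := h0 j
          have := h0 k
          have := h0 l
          field_simp
          ring) z
      simpa only [map_sub, map_mul, MvPolynomial.aeval_X, sub_eq_zero] using h
  have hfix : ∀ i, U (.inl i) = U (.inr i) → x i * (c * x i + d) = a * x i + b := fun i h => by
    have h1 : x i = y i := hval _ _ h
    rw [hy] at h1
    exact (eq_div_iff (h0 i)).1 h1
  exact hid (up_fix (hx.ne hij) (hx.ne hik) (hx.ne hjk) (hfix i e1) (hfix j e2) (hfix k e3))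

end Pool.Agent.UAP.Mz
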